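import Pool.Agent.KMR.ItP
import Pool.Agent.NegLim.NPLang

/-! Decoding and rank one constraint systems are in NP. -/

namespace Pool.Agent.KMR

open Finset Pool.Agent.PolyTime Pool.Agent.KE Pool.Agent.NegLim Pool.Agent.NegLim.NPL
open Pool.Agent.KMQ (toNat_ne getD_mapRange mod_two_ne toNat_zb even_iff)

/-- the verifier of rank one constraint systems -/
def VerR (y : List Bool) : Prop :=
  sbit y 0 = true ∧ ∀ i < dim (plen y),
    (mN (dim (plen y)) (xbit y) (sbit y) i *
      mN (dim (plen y)) (fun p => xbit y (dim (plen y) ^ 2 + p)) (sbit y) i +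
      mN (dim (plen y)) (fun p => xbit y (2 * dim (plen y) ^ 2 + p)) (sbit y) i) % 2 = 0

/-- the verifier of decoding -/
def VerD (y : List Bool) : Prop :=
  (∀ i < dim (plen y), (mN (dim (plen y)) (xbit y) (sbit y) i +
    (xbit y (3 * dim (plen y) ^ 2 + i)).toNat) % 2 = 0) ∧
    ((range (dim (plen y))).filter fun j => sbit y j = true).card ≤
      ((range (dim (plen y))).filter fun j => xbit y (3 * dim (plen y) ^ 2 + dim (plen y) + j) = true).card

section
variable {α : Type} [Ctx α]

theorem pf_n : PF (fun (y : List Bool) (_ : α) => dim (plen y)) := pf_dim pf_plen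

theorem pf_x {A : List Bool → α → ℕ} (hA : PF A) : PF (fun y a => (xbit y (A y a)).toNat) :=
  PF.inp (((PF.const 2).mul hA).add (PF.const 1))

theorem pf_s {A : List Bool → α → ℕ} (hA : PF A) : PF (fun y a => (sbit y (A y a)).toNat) :=
  PF.inp ((((PF.const 2).mul pf_plen).add (PF.const 1)).add hA)

theorem pd_x {A : List Bool → α → ℕ} (hA : PF A) : PD (fun y a => xbit y (A y a) = true) :=
  (pf_x hA).ne_zero.congr fun y a => by cases xbit y (A y a) <;> simp

theorem pd_s {A : List Bool → α → ℕ} (hA : PF A) : PD (fun y a => sbit y (A y a) = true) :=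
  (pf_s hA).ne_zero.congr fun y a => by cases sbit y (A y a) <;> simp

theorem pf_mN (D : List Bool → ℕ) (hD : ∀ (β : Type) [Ctx β], PF (fun (y : List Bool) (_ : β) => D y)) :
    PF (fun (y : List Bool) (t : Unit × ℕ) =>
      mN (dim (plen y)) (fun p => xbit y (D y + p)) (sbit y) t.2) := by
  unfold mN
  refine PF.sum (F := fun (y : List Bool) (t : (Unit × ℕ) × ℕ) =>
    (xbit y (D y + (t.1.2 * dim (plen y) + t.2))).toNat * (sbit y t.2).toNat) pf_n ?_
  exact (pf_x ((hD _).add ((PF.snd.fst.mul pf_n).add PF.snd))).mul (pf_s PF.snd)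

end

theorem pd_VerR : PD (fun (y : List Bool) (_ : Unit) => VerR y) := by
  refine (pd_s (PF.const 0)).and ?_
  refine PD.forall_lt (pf_n (α := Unit))
    (P := fun (y : List Bool) (t : Unit × ℕ) => (mN (dim (plen y)) (xbit y) (sbit y) t.2 *
      mN (dim (plen y)) (fun p => xbit y (dim (plen y) ^ 2 + p)) (sbit y) t.2 +
      mN (dim (plen y)) (fun p => xbit y (2 * dim (plen y) ^ 2 + p)) (sbit y) t.2) % 2 = 0) ?_
  have h0 : PF (fun (y : List Bool) (t : Unit × ℕ) => mN (dim (plen y)) (xbit y) (sbit y) t.2) :=
    (pf_mN (fun _ => 0) (fun β _ => PF.const 0)).congr fun y t => by simp only [Nat.zero_add]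
  exact PD.eq (((h0.mul (pf_mN (fun y => dim (plen y) ^ 2) (fun β _ => pf_n.pow 2))).add
    (pf_mN (fun y => 2 * dim (plen y) ^ 2) (fun β _ => (PF.const 2).mul (pf_n.pow 2)))).mod
      (PF.const 2)) (PF.const 0)

theorem pd_VerD : PD (fun (y : List Bool) (_ : Unit) => VerD y) := by
  have hq : ∀ (β : Type) [Ctx β], PF (fun (y : List Bool) (_ : β) => 3 * dim (plen y) ^ 2) :=
    fun β _ => (PF.const 3).mul (pf_n.pow 2)
  refine PD.and ?_ (PD.le ?_ ?_)
  · refine PD.forall_lt (pf_n (α := Unit))
      (P := fun (y : List Bool) (t : Unit × ℕ) => (mN (dim (plen y)) (xbit y) (sbit y) t.2 +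
        (xbit y (3 * dim (plen y) ^ 2 + t.2)).toNat) % 2 = 0) ?_
    have h0 : PF (fun (y : List Bool) (t : Unit × ℕ) => mN (dim (plen y)) (xbit y) (sbit y) t.2) :=
      (pf_mN (fun _ => 0) (fun β _ => PF.const 0)).congr fun y t => by simp only [Nat.zero_add]
    exact PD.eq ((h0.add (pf_x ((hq _).add PF.snd))).mod (PF.const 2)) (PF.const 0)
  · exact PF.count (P := fun (y : List Bool) (t : Unit × ℕ) => sbit y t.2 = true) pf_n (pd_s PF.snd)
  · exact PF.count (P := fun (y : List Bool) (t : Unit × ℕ) =>
      xbit y (3 * dim (plen y) ^ 2 + dim (plen y) + t.2) = true) pf_n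
      (pd_x (((hq _).add pf_n).add PF.snd))

open Classical in
theorem polyTime_of_pd {P : List Bool → Prop} (h : PD (fun (y : List Bool) (_ : Unit) => P y)) :
    Nonempty (Turing.TM2ComputableInPolyTime (id : List Bool → List Bool)
      (id : List Bool → List Bool) (fun y => [decide (P y)])) := by
  apply PFBits.polyTime
  refine ⟨fun _ => 1, fun w _ => if P w then 1 else 0, PF.const 1, ?_, ?_⟩
  · exact PF.ite (P := fun w (_ : Unit × ℕ) => P w) h.fst (PF.const 1) (PF.const 0)
  · intro w
    by_cases h : P w <;> simp [h]

theorem getD_map (n : ℕ) (v : ℕ → Bool) {k : ℕ} (hk : k < n + 1) :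
    ((List.range (n + 1)).map v).getD k false = v k := getD_mapRange _ _ hk

theorem mN_pair (x w : List Bool) {D i : ℕ} (hi : i < dim x.length)
    (hD : D + dim x.length ^ 2 ≤ 3 * dim x.length ^ 2) :
    ((mN (dim x.length) (fun p => xbit (pairWord x w) (D + p)) (sbit (pairWord x w)) i : ℕ) : ZMod 2) =
      mul (dim x.length) (fun p => x.getD (D + p) false) (fun j => w.getD j false) i := by
  rw [mN_cast]
  have h0 := dim_spec x.length
  unfold mul
  refine Finset.sum_congr rfl fun j hj => ?_
  have h1 := lt_sq hi (mem_range.1 hj)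
  simp only
  rw [xbit_pair _ _ _ (by omega), sbit_pair]

theorem mN_pair0 (x w : List Bool) {i : ℕ} (hi : i < dim x.length) :
    ((mN (dim x.length) (xbit (pairWord x w)) (sbit (pairWord x w)) i : ℕ) : ZMod 2) =
      mul (dim x.length) (fun p => x.getD p false) (fun j => w.getD j false) i := by
  have h := mN_pair x w (D := 0) hi (by omega)
  simp only [Nat.zero_add] at h
  exact h

theorem verR_pair (x w : List Bool) : VerR (pairWord x w) ↔ w.getD 0 false = true ∧
    ∀ i < dim x.length, mul (dim x.length) (mA x) (fun j => w.getD j false) i *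
      mul (dim x.length) (mB x) (fun j => w.getD j false) i =
        mul (dim x.length) (mC x) (fun j => w.getD j false) i := by
  unfold VerR
  rw [plen_pair, sbit_pair]
  refine and_congr Iff.rfl (forall_congr' fun i => forall_congr' fun hi => ?_)
  rw [even_iff]
  push_cast
  rw [mN_pair0 x w hi, mN_pair x w hi (by omega), mN_pair x w hi (by omega)]
  rfl

theorem verD_pair (x w : List Bool) : VerD (pairWord x w) ↔
    (∀ i < dim x.length, mul (dim x.length) (mA x) (fun j => w.getD j false) i = zb (vR x i)) ∧
      ((range (dim x.length)).filter fun j => w.getD j false = true).card ≤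
        ((range (dim x.length)).filter fun j => vS x j = true).card := by
  have h0 := dim_spec x.length
  unfold VerD
  rw [plen_pair]
  refine and_congr (forall_congr' fun i => forall_congr' fun hi => ?_) ?_
  · rw [even_iff, mN_pair0 x w hi, toNat_zb, xbit_pair _ _ _ (by omega)]
    rfl
  · have e1 : ((range (dim x.length)).filter fun j => sbit (pairWord x w) j = true) =
        (range (dim x.length)).filter fun j => w.getD j false = true :=
      Finset.filter_congr fun j _ => by rw [sbit_pair]
    have e2 : ((range (dim x.length)).filter fun j =>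
        xbit (pairWord x w) (3 * dim x.length ^ 2 + dim x.length + j) = true) =
        (range (dim x.length)).filter fun j => vS x j = true :=
      Finset.filter_congr fun j hj => by
        have := mem_range.1 hj
        rw [xbit_pair _ _ _ (by omega)]
        rfl
    rw [e1, e2]

theorem mul_congr {n : ℕ} {A x x' : ℕ → Bool} (h : ∀ j < n, x j = x' j) (i : ℕ) :
    mul n A x i = mul n A x' i := by
  unfold mul
  exact Finset.sum_congr rfl fun j hj => by rw [h j (mem_range.1 hj)]

open Classical in
/-- **Rank one constraint systems are in NP.** -/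
theorem inNP_RCS : InNP (fun y => decide (RCS y)) := by
  refine ⟨fun y => decide (VerR y), 1, polyTime_of_pd pd_VerR, fun x => ?_⟩
  rw [decide_eq_true_iff]
  unfold RCS
  constructor
  · rintro ⟨v, hv0, hv⟩
    have hg : ∀ k < dim x.length, v k = ((List.range (dim x.length + 1)).map v).getD k false :=
      fun k hk => (getD_map _ v (by omega)).symm
    refine ⟨(List.range (dim x.length + 1)).map v, ?_, ?_⟩
    · rw [List.length_map, List.length_range, pow_one]
      have := dim_spec x.length
      omega
    · rw [decide_eq_true_iff, verR_pair]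
      refine ⟨by rw [getD_map _ v (by omega)]; exact hv0, fun i hi => ?_⟩
      have := hv i hi
      rw [mul_congr hg, mul_congr hg, mul_congr hg] at this
      exact this
  · rintro ⟨w, _, hw⟩
    rw [decide_eq_true_iff, verR_pair] at hw
    exact ⟨fun i => w.getD i false, hw⟩

open Classical in
/-- **Decoding is in NP.** -/
theorem inNP_Dec : InNP (fun y => decide (Dec y)) := by
  refine ⟨fun y => decide (VerD y), 1, polyTime_of_pd pd_VerD, fun x => ?_⟩
  rw [decide_eq_true_iff]
  unfold Dec
  constructor
  · rintro ⟨v, hv, hc⟩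
    have hg : ∀ k < dim x.length, v k = ((List.range (dim x.length + 1)).map v).getD k false :=
      fun k hk => (getD_map _ v (by omega)).symm
    refine ⟨(List.range (dim x.length + 1)).map v, ?_, ?_⟩
    · rw [List.length_map, List.length_range, pow_one]
      have := dim_spec x.length
      omega
    · rw [decide_eq_true_iff, verD_pair]
      refine ⟨fun i hi => ?_, ?_⟩
      · have := hv i hi
        rw [mul_congr hg] at this
        exact this
      · have e1 : ((range (dim x.length)).filter fun j =>
            ((List.range (dim x.length + 1)).map v).getD j false = true) =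
            (range (dim x.length)).filter fun j => v j = true :=
          Finset.filter_congr fun j hj => by rw [← hg j (mem_range.1 hj)]
        rw [e1]
        exact hc
  · rintro ⟨w, _, hw⟩
    rw [decide_eq_true_iff, verD_pair] at hw
    exact ⟨fun i => w.getD i false, hw⟩

end Pool.Agent.KMR
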