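import Pool.Agent.KMQ.AbsX

/-! The time bounds for two-sided error, for all languages that contain a conjunction of a balanced function
of many blocks, or a balanced function of the sum of many blocks. -/

namespace Pool.Agent.KMR

open Finset Pool.Agent.SemRO Pool.Agent.KD Pool.Agent.KNL Pool.Agent.KE Pool.Agent.KH Pool.Agent.KMQ

open Classical in
/-- **The lower bound for distributions on deterministic programs with a stack**, for every language
that, on some subcube, is a conjunction of equal balanced functions of disjoint blocks of variables that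
make up a constant fraction of the word. -/
theorem time_abs (K : ℕ) (hK : 1 ≤ K) : ∃ c x0 : ℝ, 0 < c ∧ 1 ≤ x0 ∧ ∀ (N n m S : ℕ) (η : ℝ), 1 ≤ S →
    x0 * S ≤ n → 1 ≤ m → N ≤ K * (m * n) → 1 / 2 ^ S ≤ η → ∀ (pos : Fin m → Fin n → Fin N),
    (∀ b b' i i', pos b i = pos b' i' → b = b' ∧ i = i') → ∀ (Lg : List Bool → Prop),
    (∀ e, 1 ≤ e → 8 * e ≤ n → 4 * n ≤ e ^ 2 → ∃ g : (Fin n → Bool) → Bool, Pool.Agent.KE.Bal g e ∧
      ∃ z0 : Fin N → Bool, ∀ X, Lg (List.ofFn (wd pos z0 X)) ↔ ∀ b, g (X b) = false) →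
      ∀ (ι : Type) [Fintype ι] (w : ι → ℝ) (V Γ : ι → Type) [∀ i, Fintype (V i)]
        (P : ∀ i, SBP (V i) (Γ i) (Fin N)), (∀ i, 0 ≤ w i) → ∑ i, w i = 1 →
        (∀ i, Det (P i) ∧ Fintype.card (V i) ≤ 2 ^ S) →
        ∀ T : ℕ, (∀ y, 1 / 2 + η ≤ ∑ i, if Correct Lg (P i) T y then w i else 0) →
          c * η * N * Real.log (n / S) / Real.log (Real.log (n / S)) ≤ T := by
  obtain ⟨B, ⟨c0, hB⟩, hB1, hX⟩ := block_bias'
  obtain ⟨d, x0, hd, hx0, hch⟩ := choose_block (c0 + 2)
  have hKr : (1 : ℝ) ≤ K := by exact_mod_cast hK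
  refine ⟨d / K, max x0 2, by positivity, le_max_of_le_left hx0, ?_⟩
  intro N n m S η hS hx hm hN hη pos hpos Lg hLg ι _ w V Γ _ P hw0 hw1 hP T hT
  by_contra hcon
  push Not at hcon
  have hSr : (1 : ℝ) ≤ S := by exact_mod_cast hS
  obtain ⟨k, hk2, hkS, hk⟩ := hch n S hS
    (le_trans (mul_le_mul_of_nonneg_right (le_max_left _ _) (by linarith)) hx)
  have hn2r : (2 : ℝ) ≤ n := by
    have h1 : (2 : ℝ) * S ≤ n := le_trans (mul_le_mul_of_nonneg_right (le_max_right _ _) (by linarith)) hx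
    linarith
  have hn2 : 2 ≤ n := by exact_mod_cast hn2r
  have hη0 : 0 < η := lt_of_lt_of_le (by positivity) hη
  have hη2 : η ≤ 1 / 2 := by
    by_contra h
    push Not at h
    have h1 := hT fun _ => false
    have h2 : ∑ i, (if Correct Lg (P i) T (fun _ => false) then w i else 0) ≤ ∑ i, w i := by
      refine Finset.sum_le_sum fun i _ => ?_
      split_ifs
      · exact le_rfl
      · exact hw0 i
    linarith
  have hBr : (1 : ℝ) ≤ B k := by exact_mod_cast hB1 k
  -- the size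
  have h3S : 3 * (S : ℝ) ≤ n / B k := by
    have h1 : 3 * B k ≤ k ^ ((c0 + 2) * k) := by
      have h2 : 3 ≤ k ^ (2 * k) := by
        calc 3 ≤ 2 ^ 2 := by norm_num
          _ ≤ k ^ 2 := Nat.pow_le_pow_left hk2 _
          _ ≤ k ^ (2 * k) := Nat.pow_le_pow_right (by omega) (by omega)
      calc 3 * B k ≤ k ^ (2 * k) * k ^ (c0 * k) := Nat.mul_le_mul h2 (hB k hk2)
        _ = k ^ ((c0 + 2) * k) := by rw [← pow_add]; congr 1; ring
    have h3 : (3 : ℝ) * B k ≤ (k : ℝ) ^ ((c0 + 2) * k) := by exact_mod_cast h1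
    have h4 : (S : ℝ) ≤ n / (3 * B k) :=
      hkS.trans (div_le_div_of_nonneg_left (by linarith) (by linarith) h3)
    rw [le_div_iff₀ (by linarith)] at h4 ⊢
    linarith
  have hBn : B k ≤ n := by
    have h1 : (B k : ℝ) ≤ n := by
      rw [le_div_iff₀ (by linarith)] at h3S
      nlinarith
    exact_mod_cast h1
  obtain ⟨e, he1, he8, h4n, hf⟩ := hX k hk2 n hBn
  obtain ⟨g, hbal, z0, hz0⟩ := hLg e he1 he8 h4n
  have hf := hf g hbal
  -- the bias
  obtain ⟨δ, hδ⟩ : ∃ δ : ℝ, δ = 1 / 2 ^ ((n : ℝ) / B k) := ⟨_, rfl⟩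
  have hδ0 : 0 ≤ δ := by rw [hδ]; positivity
  have hδ4 : 4 * δ ≤ η := by
    refine le_trans ?_ hη
    have h1 : (2 : ℝ) ^ ((S : ℝ) + 2) ≤ 2 ^ ((n : ℝ) / B k) :=
      Real.rpow_le_rpow_of_exponent_le (by norm_num) (by linarith)
    have h2 : (2 : ℝ) ^ ((S : ℝ) + 2) = 2 ^ S * 4 := by
      rw [Real.rpow_add (by norm_num), Real.rpow_natCast]
      norm_num
    rw [hδ, mul_one_div, div_le_div_iff₀ (by positivity) (by positivity)]
    linarith
  have hdiv : (2 : ℝ) ^ n / 2 ^ ((n : ℝ) / B k) = δ * 2 ^ n := by rw [hδ]; ring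
  rw [hdiv] at hf
  have hVle : ∀ a : ℕ, a ≤ 2 ^ S → (a : ℝ) ≤ 2 ^ ((n : ℝ) / B k) := by
    intro a ha
    have h1 : (a : ℝ) ≤ 2 ^ (S : ℝ) := by
      rw [Real.rpow_natCast]
      exact_mod_cast ha
    exact h1.trans (Real.rpow_le_rpow_of_exponent_le (by norm_num) (by linarith))
  have hinj : ∀ b, Function.Injective (pos b) := fun b i i' h => (hpos b b i i' h).2
  -- the sum of all signs
  have hg : |∑ x, (sg (g x) : ℝ)| ≤ δ * 2 ^ n := by
    have b0 : Fin m := ⟨0, hm⟩
    refine hf N (pos b0) (hinj b0) (Classical.decPred _) (fun _ => false) Unit Empty inferInstance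
      (triv N) (triv_det N) ?_ univ ?_
    · rw [Fintype.card_unit, Nat.cast_one]
      exact Real.one_le_rpow (by norm_num) (by positivity)
    · intro x
      refine ⟨fun _ => ⟨[], .nil _ _, by simp⟩, fun _ => Finset.mem_univ _⟩
  refine avg (B := m) (n := n) (N := N) (T := T) (k' := k) (δ := δ) (η := η)
    hm hδ0 g hg hpos (z0 := z0) Lg hz0
    ι w V Γ P hw0 hw1 ?_ ?_ hη0 hη2 hδ4 hT
  · intro i b z A hA
    exact hf N (pos b) (hinj b) _ z (V i) (Γ i) _ (P i) (hP i).1 (hVle _ (hP i).2) A hA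
  · have h1 : (N : ℝ) ≤ K * (m * n) := by exact_mod_cast hN
    have h2 : 0 ≤ d / K * η * N := by positivity
    have h3 : d / K * η * N * Real.log (n / S) / Real.log (Real.log (n / S)) ≤
        η / K * N * k := by
      have h4 : d / K * η * N * Real.log (n / S) / Real.log (Real.log (n / S)) =
          η / K * N * (d * Real.log (n / S) / Real.log (Real.log (n / S))) := by ring
      rw [h4]
      exact mul_le_mul_of_nonneg_left hk (by positivity)
    have h5 : η / K * N * k ≤ η / K * (K * (m * n)) * k := by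
      refine mul_le_mul_of_nonneg_right (mul_le_mul_of_nonneg_left h1 (by positivity)) (by positivity)
    calc (T : ℝ) ≤ η / K * (K * (m * n)) * k := (hcon.le.trans h3).trans h5
      _ = η * (m * (k * n)) := by
        field_simp

open Classical in
/-- **The lower bound for distributions on deterministic programs with a stack**, for every language
that, on some subcube, is a balanced function of the sum of disjoint blocks of variables that make up a
constant fraction of the word. -/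
theorem time_absx (K : ℕ) (hK : 1 ≤ K) : ∃ c x0 : ℝ, 0 < c ∧ 1 ≤ x0 ∧ ∀ (N n m S : ℕ) (η : ℝ), 1 ≤ S →
    x0 * S ≤ n → 1 ≤ m → N ≤ K * (m * n) → 1 / 2 ^ S ≤ η → ∀ (pos : Fin m → Fin n → Fin N),
    (∀ b b' i i', pos b i = pos b' i' → b = b' ∧ i = i') → ∀ (Lg : List Bool → Prop),
    (∀ e, 1 ≤ e → 8 * e ≤ n → 4 * n ≤ e ^ 2 → ∃ g : (Fin n → Bool) → Bool, Pool.Agent.KE.Bal g e ∧
      ∃ z0 : Fin N → Bool, ∀ X, Lg (List.ofFn (wd pos z0 X)) ↔ g (xs X) = true) →
      ∀ (ι : Type) [Fintype ι] (w : ι → ℝ) (V Γ : ι → Type) [∀ i, Fintype (V i)]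
        (P : ∀ i, SBP (V i) (Γ i) (Fin N)), (∀ i, 0 ≤ w i) → ∑ i, w i = 1 →
        (∀ i, Det (P i) ∧ Fintype.card (V i) ≤ 2 ^ S) →
        ∀ T : ℕ, (∀ y, 1 / 2 + η ≤ ∑ i, if Correct Lg (P i) T y then w i else 0) →
          c * η * N * Real.log (n / S) / Real.log (Real.log (n / S)) ≤ T := by
  obtain ⟨B, ⟨c0, hB⟩, hB1, hX⟩ := block_bias'
  obtain ⟨d, x0, hd, hx0, hch⟩ := choose_block (c0 + 2)
  have hKr : (1 : ℝ) ≤ K := by exact_mod_cast hK
  refine ⟨d / (2 * K), max x0 2, by positivity, le_max_of_le_left hx0, ?_⟩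
  intro N n m S η hS hx hm hN hη pos hpos Lg hLg ι _ w V Γ _ P hw0 hw1 hP T hT
  by_contra hcon
  push Not at hcon
  have hSr : (1 : ℝ) ≤ S := by exact_mod_cast hS
  obtain ⟨k, hk2, hkS, hk⟩ := hch n S hS
    (le_trans (mul_le_mul_of_nonneg_right (le_max_left _ _) (by linarith)) hx)
  have hn2r : (2 : ℝ) ≤ n := by
    have h1 : (2 : ℝ) * S ≤ n := le_trans (mul_le_mul_of_nonneg_right (le_max_right _ _) (by linarith)) hx
    linarith
  have hn2 : 2 ≤ n := by exact_mod_cast hn2r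
  have hη0 : 0 < η := lt_of_lt_of_le (by positivity) hη
  have hη2 : η ≤ 1 / 2 := by
    by_contra h
    push Not at h
    have h1 := hT fun _ => false
    have h2 : ∑ i, (if Correct Lg (P i) T (fun _ => false) then w i else 0) ≤ ∑ i, w i := by
      refine Finset.sum_le_sum fun i _ => ?_
      split_ifs
      · exact le_rfl
      · exact hw0 i
    linarith
  have hBr : (1 : ℝ) ≤ B k := by exact_mod_cast hB1 k
  -- the size
  have h3S : 3 * (S : ℝ) ≤ n / B k := by
    have h1 : 3 * B k ≤ k ^ ((c0 + 2) * k) := by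
      have h2 : 3 ≤ k ^ (2 * k) := by
        calc 3 ≤ 2 ^ 2 := by norm_num
          _ ≤ k ^ 2 := Nat.pow_le_pow_left hk2 _
          _ ≤ k ^ (2 * k) := Nat.pow_le_pow_right (by omega) (by omega)
      calc 3 * B k ≤ k ^ (2 * k) * k ^ (c0 * k) := Nat.mul_le_mul h2 (hB k hk2)
        _ = k ^ ((c0 + 2) * k) := by rw [← pow_add]; congr 1; ring
    have h3 : (3 : ℝ) * B k ≤ (k : ℝ) ^ ((c0 + 2) * k) := by exact_mod_cast h1
    have h4 : (S : ℝ) ≤ n / (3 * B k) :=
      hkS.trans (div_le_div_of_nonneg_left (by linarith) (by linarith) h3)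
    rw [le_div_iff₀ (by linarith)] at h4 ⊢
    linarith
  have hBn : B k ≤ n := by
    have h1 : (B k : ℝ) ≤ n := by
      rw [le_div_iff₀ (by linarith)] at h3S
      nlinarith
    exact_mod_cast h1
  obtain ⟨e, he1, he8, h4n, hf⟩ := hX k hk2 n hBn
  obtain ⟨g, hbal, z0, hz0⟩ := hLg e he1 he8 h4n
  -- the function
  obtain ⟨G, hG⟩ : ∃ G : (Fin m → Fin n → Bool) → Bool, G = fun X => !(g (xs X)) := ⟨_, rfl⟩
  have hslice : ∀ b X, ∀ x, G (Function.update X b x) =
      (fun x => !(g (xr x (xs (Function.update X b fun _ => false))))) x := by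
    intro b X x
    rw [hG]
    simp only
    rw [xs_update]
  -- the bias
  obtain ⟨δ, hδ⟩ : ∃ δ : ℝ, δ = 1 / 2 ^ ((n : ℝ) / B k) := ⟨_, rfl⟩
  have hδ4 : 4 * δ ≤ η := by
    refine le_trans ?_ hη
    have h1 : (2 : ℝ) ^ ((S : ℝ) + 2) ≤ 2 ^ ((n : ℝ) / B k) :=
      Real.rpow_le_rpow_of_exponent_le (by norm_num) (by linarith)
    have h2 : (2 : ℝ) ^ ((S : ℝ) + 2) = 2 ^ S * 4 := by
      rw [Real.rpow_add (by norm_num), Real.rpow_natCast]
      norm_num
    rw [hδ, mul_one_div, div_le_div_iff₀ (by positivity) (by positivity)]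
    linarith
  have hdiv : (2 : ℝ) ^ n / 2 ^ ((n : ℝ) / B k) = δ * 2 ^ n := by rw [hδ]; ring
  have hVle : ∀ a : ℕ, a ≤ 2 ^ S → (a : ℝ) ≤ 2 ^ ((n : ℝ) / B k) := by
    intro a ha
    have h1 : (a : ℝ) ≤ 2 ^ (S : ℝ) := by
      rw [Real.rpow_natCast]
      exact_mod_cast ha
    exact h1.trans (Real.rpow_le_rpow_of_exponent_le (by norm_num) (by linarith))
  have hinj : ∀ b, Function.Injective (pos b) := fun b i i' h => (hpos b b i i' h).2
  have hfs : ∀ b X, ∀ (N : ℕ) (pos : Fin n → Fin N), Function.Injective pos →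
      ∀ (_ : DecidablePred fun v => v ∈ Set.range pos) (z : Fin N → Bool)
        (V Γ : Type) (_ : Fintype V) (P : SBP V Γ (Fin N)), Det P →
      (Fintype.card V : ℝ) ≤ 2 ^ ((n : ℝ) / B k) → ∀ A : Finset (Fin n → Bool),
      (∀ x, x ∈ A ↔ ∃ l, P.AccWalk (Function.extend pos x z) l ∧
        (l.filter fun v => v ∈ Set.range pos).length ≤ k * n) →
      |∑ x ∈ A, (sg (G (Function.update X b x)) : ℝ)| ≤ δ * 2 ^ n := by
    intro b X N pos hp hd z V Γ hV P hP hc A hA
    have h1 := hf _ (bal_not (bal_xr hbal (xs (Function.update X b fun _ => false)))) N pos hp hd z V Γ hV P hP hc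
      A hA
    rw [hdiv] at h1
    refine le_trans (le_of_eq ?_) h1
    congr 1
    refine Finset.sum_congr rfl fun x _ => ?_
    rw [hslice]
  refine avgx (B := m) (n := n) (N := N) (T := T) (k' := k) (δ := δ) (η := η)
    hm G ?_ hpos (z0 := z0) Lg ?_ ι w V Γ P hw0 hw1 ?_ ?_ hη0 hη2 hδ4 hT
  · intro b X
    refine hfs b X N (pos b) (hinj b) (Classical.decPred _) (fun _ => false) Unit Empty inferInstance
      (triv N) (triv_det N) ?_ univ ?_
    · rw [Fintype.card_unit, Nat.cast_one]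
      exact Real.one_le_rpow (by norm_num) (by positivity)
    · intro x
      refine ⟨fun _ => ⟨[], .nil _ _, by simp⟩, fun _ => Finset.mem_univ _⟩
  · intro X
    rw [hz0, hG]
    simp
  · intro i b X A hA
    exact hfs b X N (pos b) (hinj b) _ (wd pos z0 X) (V i) (Γ i) _ (P i) (hP i).1 (hVle _ (hP i).2) A hA
  · have h1 : (N : ℝ) ≤ K * (m * n) := by exact_mod_cast hN
    have h2 : 0 ≤ d / (2 * K) * η * N := by positivity
    have h3 : d / (2 * K) * η * N * Real.log (n / S) / Real.log (Real.log (n / S)) ≤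
        η / (2 * K) * N * k := by
      have h4 : d / (2 * K) * η * N * Real.log (n / S) / Real.log (Real.log (n / S)) =
          η / (2 * K) * N * (d * Real.log (n / S) / Real.log (Real.log (n / S))) := by ring
      rw [h4]
      exact mul_le_mul_of_nonneg_left hk (by positivity)
    have h5 : η / (2 * K) * N * k ≤ η / (2 * K) * (K * (m * n)) * k := by
      refine mul_le_mul_of_nonneg_right (mul_le_mul_of_nonneg_left h1 (by positivity)) (by positivity)
    calc (T : ℝ) ≤ η / (2 * K) * (K * (m * n)) * k := (hcon.le.trans h3).trans h5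
      _ = η / 2 * (m * (k * n)) := by
        field_simp

end Pool.Agent.KMR
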