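import Pool.Agent.KMR.RcsE

/-! A decoding problem that has a solution if and only if a sum of products of three linear forms does not
vanish at one of the blocks. -/

namespace Pool.Agent.KMR

open Finset Pool.Agent.KE Pool.Agent.KH
open Pool.Agent.KMQ (zb_true zb_false zb_sq zb_inj sum_window ob zb_ob)

/-! ### Counting -/

/-- the number of ones of a sequence among the first letters -/
def wt (n : ℕ) (x : ℕ → Bool) : ℕ := ∑ j ∈ range n, (x j).toNat

theorem wt_eq (n : ℕ) (x : ℕ → Bool) : ((range n).filter fun j => x j = true).card = wt n x := by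
  unfold wt
  rw [Finset.card_filter]
  refine Finset.sum_congr rfl fun j _ => ?_
  cases x j <;> rfl

theorem wt_add (a b : ℕ) (x : ℕ → Bool) : wt (a + b) x = wt a x + wt b (fun j => x (a + j)) := by
  unfold wt
  exact Finset.sum_range_add _ _ _

theorem sum8 {M : Type} [AddCommMonoid M] (K : ℕ) (f : ℕ → M) :
    ∑ j ∈ range (8 * K), f j = ∑ s ∈ range K, ∑ c ∈ range 8, f (8 * s + c) := by
  induction K with
  | zero => simp
  | succ K ih =>
    rw [mul_add, mul_one, Finset.sum_range_add, ih,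
      Finset.sum_range_succ (fun s => ∑ c ∈ range 8, f (8 * s + c)) K]

theorem wt_zb (n : ℕ) (x : ℕ → Bool) : ((wt n x : ℕ) : ZMod 2) = ∑ j ∈ range n, zb (x j) := by
  unfold wt
  push_cast
  refine Finset.sum_congr rfl fun j _ => ?_
  cases x j <;> rfl

theorem wt_pos {n : ℕ} {x : ℕ → Bool} (h : ∑ j ∈ range n, zb (x j) = 1) : 1 ≤ wt n x := by
  rw [← wt_zb] at h
  by_contra hc
  have h0 : wt n x = 0 := by omega
  rw [h0] at h
  exact absurd h (by decide)

/-- a sequence with exactly one one -/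
theorem wt_one {n : ℕ} {x : ℕ → Bool} (h : wt n x = 1) : ∃ i < n, ∀ j < n, x j = decide (j = i) := by
  rw [← wt_eq, Finset.card_eq_one] at h
  obtain ⟨i, hi⟩ := h
  have h1 : i ∈ (range n).filter fun j => x j = true := by rw [hi]; exact Finset.mem_singleton_self i
  rw [mem_filter, mem_range] at h1
  refine ⟨i, h1.1, fun j hj => ?_⟩
  by_cases hji : j = i
  · rw [decide_eq_true hji, hji]
    exact h1.2
  · rw [decide_eq_false hji]
    by_contra hc
    rw [Bool.not_eq_false] at hc
    have h2 : j ∈ (range n).filter fun j => x j = true := mem_filter.2 ⟨mem_range.2 hj, hc⟩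
    rw [hi, Finset.mem_singleton] at h2
    exact hji h2

theorem wt_single {n i : ℕ} {x : ℕ → Bool} (hi : i < n) (h : ∀ j < n, x j = decide (j = i)) :
    wt n x = 1 := by
  unfold wt
  rw [Finset.sum_eq_single i]
  · rw [h i hi]; simp
  · intro j hj hji
    rw [h j (mem_range.1 hj), decide_eq_false hji]
    rfl
  · intro hc
    exact absurd (mem_range.2 hi) hc

/-! ### The instance -/

/-- the row with a linear form and the columns with the bit `t` -/
def fr (m : ℕ) (F : ℕ → Bool) (t s j : ℕ) : Bool :=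
  (decide (2 * m ≤ j ∧ j < 2 * m + m) && F (j - 2 * m)) ||
    (decide (3 * m + 8 * s ≤ j ∧ j < 3 * m + 8 * s + 8) && (j - (3 * m + 8 * s)).testBit t)

/-- the instance without blocks -/
def insD (m K : ℕ) (α β γ : ℕ → ℕ → Bool) : Ins where
  A i j :=
    if i < 1 then decide (0 ≤ j ∧ j < 0 + m) && true
    else if i < m + 1 then decide (j = m + (i - 1)) || decide (j = 2 * m + (i - 1))
    else if i < m + 1 + K then
      decide (3 * m + 8 * (i - (m + 1)) ≤ j ∧ j < 3 * m + 8 * (i - (m + 1)) + 8) && true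
    else if i < 2 * m + 1 + K then decide (j = 2 * m + (i - (m + 1 + K)))
    else if i < 2 * m + 1 + 2 * K then fr m (α (i - (2 * m + 1 + K))) 0 (i - (2 * m + 1 + K)) j
    else if i < 2 * m + 1 + 3 * K then fr m (β (i - (2 * m + 1 + 2 * K))) 1 (i - (2 * m + 1 + 2 * K)) j
    else if i < 2 * m + 1 + 4 * K then fr m (γ (i - (2 * m + 1 + 3 * K))) 2 (i - (2 * m + 1 + 3 * K)) j
    else if i < 2 * m + 2 + 4 * K then
      decide (3 * m ≤ j ∧ j < 3 * m + 8 * K) && decide ((j - 3 * m) % 8 = 7)
    else false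
  B _ _ := false
  C _ _ := false
  r i := decide (i < m + 1 + K ∨ i = 2 * m + 1 + 4 * K)
  s j := decide (j < m + 1 + K)

section
variable {m K n : ℕ} (α β γ : ℕ → ℕ → Bool) (X : Fin m → Fin m → Bool) (x : ℕ → Bool)

/-- a row that is the disjoint union of two rows -/
theorem mv_or {R P Q : ℕ → ℕ → Bool} {i : ℕ} (h : ∀ j, R i j = (P i j || Q i j))
    (h2 : ∀ j, ¬ (P i j = true ∧ Q i j = true)) : mv n R x i = mv n P x i + mv n Q x i := by
  unfold mv
  rw [← Finset.sum_add_distrib]
  refine Finset.sum_congr rfl fun j _ => ?_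
  have h3 := h2 j
  rw [h]
  generalize P i j = a at h3 ⊢
  generalize Q i j = b at h3 ⊢
  generalize x j = c
  revert h3
  cases a <;> cases b <;> cases c <;> decide

/-- in the rows of the blocks -/
theorem mv_block' {I : Ins} {a c l : ℕ} (hl : l < m) (hc : c + m ≤ n)
    (h0 : ∀ j, c ≤ j → j < c + m → I.A (a + l) j = false) :
    mv n (I.set a c X).A x (a + l) =
      ∑ b : Fin m, zb (X b ⟨l, hl⟩) * zb (x (c + b)) + mv n I.A x (a + l) := by
  rw [mv_or x (R := (I.set a c X).A) (P := fun _ j => decide (c ≤ j ∧ j < c + m) &&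
      (fun b => if h : b < m then X ⟨b, h⟩ ⟨l, hl⟩ else false) (j - c)) (Q := I.A)]
  · congr 1
    rw [mv_win x (R := fun _ j => decide (c ≤ j ∧ j < c + m) &&
      (fun b => if h : b < m then X ⟨b, h⟩ ⟨l, hl⟩ else false) (j - c))
      (F := fun b => if h : b < m then X ⟨b, h⟩ ⟨l, hl⟩ else false) (fun j => rfl) hc, Finset.sum_range]
    refine Finset.sum_congr rfl fun b _ => ?_
    rw [dif_pos b.2]
  · intro j
    simp only
    by_cases hj : c ≤ j ∧ j < c + m
    · obtain ⟨b, rfl⟩ : ∃ b, j = c + b := ⟨j - c, by omega⟩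
      have hb : b < m := by omega
      rw [decide_eq_true hj, Bool.true_and, Nat.add_sub_cancel_left, dif_pos hb, h0 _ hj.1 hj.2, Bool.or_false]
      exact set_in I X ⟨b, hb⟩ ⟨l, hl⟩
    · rw [decide_eq_false hj, Bool.false_and, set_out _ _ (by omega), Bool.false_or]
  · intro j
    simp only
    rintro ⟨h1, h2⟩
    rw [Bool.and_eq_true, decide_eq_true_iff] at h1
    rw [h0 j h1.1.1 h1.1.2] at h2
    exact absurd h2 (by decide)

theorem mv_fr {R : ℕ → ℕ → Bool} {i t s : ℕ} {F : ℕ → Bool} (h : ∀ j, R i j = fr m F t s j)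
    (hn : 3 * m + 8 * s + 8 ≤ n) :
    mv n R x i = lw m F (fun l => x (2 * m + l)) +
      ∑ c ∈ range 8, zb (c.testBit t) * zb (x (3 * m + 8 * s + c)) := by
  rw [mv_or x (R := R) (P := fun _ j => decide (2 * m ≤ j ∧ j < 2 * m + m) && F (j - 2 * m))
    (Q := fun _ j => decide (3 * m + 8 * s ≤ j ∧ j < 3 * m + 8 * s + 8) &&
      (fun c => c.testBit t) (j - (3 * m + 8 * s))) h]
  · rw [mv_win x (R := fun _ j => decide (2 * m ≤ j ∧ j < 2 * m + m) && F (j - 2 * m)) (F := F)
      (fun j => rfl) (by omega),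
      mv_win x (R := fun _ j => decide (3 * m + 8 * s ≤ j ∧ j < 3 * m + 8 * s + 8) &&
      (fun c => c.testBit t) (j - (3 * m + 8 * s))) (F := fun c => c.testBit t) (fun j => rfl) hn]
    rfl
  · intro j
    rintro ⟨h1, h2⟩
    simp only [Bool.and_eq_true, decide_eq_true_iff] at h1 h2
    omega

theorem D0 (hm : 1 ≤ m) (hn : 3 * m + 8 * K ≤ n) :
    mv n ((insD m K α β γ).set (m + 1 + K) 0 X).A x 0 = ∑ b ∈ range m, zb (x b) := by
  rw [mv_set X x (by omega), mv_win x (a := 0) (k := m) (F := fun _ => true) (fun j => by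
    unfold insD; simp only; rw [if_pos (by omega)]) (by omega)]
  refine Finset.sum_congr rfl fun s _ => ?_
  rw [zb_true, one_mul, zero_add]

theorem D1 (hn : 3 * m + 8 * K ≤ n) {l : ℕ} (hl : l < m) :
    mv n ((insD m K α β γ).set (m + 1 + K) 0 X).A x (1 + l) = zb (x (m + l)) + zb (x (2 * m + l)) := by
  rw [mv_set X x (by omega)]
  unfold mv
  rw [Finset.sum_congr rfl fun j _ => by
    unfold insD; simp only
    rw [if_neg (by omega), if_pos (by omega), Nat.add_sub_cancel_left],
    row_two x (by omega) (by omega) (by omega)]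

theorem D2 (hn : 3 * m + 8 * K ≤ n) {s : ℕ} (hs : s < K) :
    mv n ((insD m K α β γ).set (m + 1 + K) 0 X).A x (m + 1 + s) =
      ∑ c ∈ range 8, zb (x (3 * m + 8 * s + c)) := by
  rw [mv_set X x (by omega), mv_win x (a := 3 * m + 8 * s) (k := 8) (F := fun _ => true) (fun j => by
    unfold insD; simp only
    rw [if_neg (by omega), if_neg (by omega), if_pos (by omega), Nat.add_sub_cancel_left]) (by omega)]
  refine Finset.sum_congr rfl fun s _ => ?_
  rw [zb_true, one_mul]

theorem D3 (hn : 3 * m + 8 * K ≤ n) {l : ℕ} (hl : l < m) :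
    mv n ((insD m K α β γ).set (m + 1 + K) 0 X).A x (m + 1 + K + l) =
      ∑ b : Fin m, zb (X b ⟨l, hl⟩) * zb (x b) + zb (x (2 * m + l)) := by
  have hr : ∀ j, (insD m K α β γ).A (m + 1 + K + l) j = decide (j = 2 * m + l) := fun j => by
    unfold insD; simp only
    rw [if_neg (by omega), if_neg (by omega), if_neg (by omega), if_pos (by omega), Nat.add_sub_cancel_left]
  rw [mv_block' X x hl (by omega) (fun j h1 h2 => by rw [hr, decide_eq_false (by omega)]),
    mv_one x hr (by omega)]
  congr 1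
  refine Finset.sum_congr rfl fun b _ => ?_
  rw [zero_add]

theorem D4 (hn : 3 * m + 8 * K ≤ n) {s : ℕ} (hs : s < K) :
    mv n ((insD m K α β γ).set (m + 1 + K) 0 X).A x (2 * m + 1 + K + s) =
      lw m (α s) (fun l => x (2 * m + l)) +
        ∑ c ∈ range 8, zb (c.testBit 0) * zb (x (3 * m + 8 * s + c)) := by
  rw [mv_set X x (by omega), mv_fr x (t := 0) (s := s) (F := α s) (fun j => by
    unfold insD; simp only
    rw [if_neg (by omega), if_neg (by omega), if_neg (by omega), if_neg (by omega), if_pos (by omega),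
      Nat.add_sub_cancel_left]) (by omega)]

theorem D5 (hn : 3 * m + 8 * K ≤ n) {s : ℕ} (hs : s < K) :
    mv n ((insD m K α β γ).set (m + 1 + K) 0 X).A x (2 * m + 1 + 2 * K + s) =
      lw m (β s) (fun l => x (2 * m + l)) +
        ∑ c ∈ range 8, zb (c.testBit 1) * zb (x (3 * m + 8 * s + c)) := by
  rw [mv_set X x (by omega), mv_fr x (t := 1) (s := s) (F := β s) (fun j => by
    unfold insD; simp only
    rw [if_neg (by omega), if_neg (by omega), if_neg (by omega), if_neg (by omega), if_neg (by omega),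
      if_pos (by omega), Nat.add_sub_cancel_left]) (by omega)]

theorem D6 (hn : 3 * m + 8 * K ≤ n) {s : ℕ} (hs : s < K) :
    mv n ((insD m K α β γ).set (m + 1 + K) 0 X).A x (2 * m + 1 + 3 * K + s) =
      lw m (γ s) (fun l => x (2 * m + l)) +
        ∑ c ∈ range 8, zb (c.testBit 2) * zb (x (3 * m + 8 * s + c)) := by
  rw [mv_set X x (by omega), mv_fr x (t := 2) (s := s) (F := γ s) (fun j => by
    unfold insD; simp only
    rw [if_neg (by omega), if_neg (by omega), if_neg (by omega), if_neg (by omega), if_neg (by omega),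
      if_neg (by omega), if_pos (by omega), Nat.add_sub_cancel_left]) (by omega)]

theorem D7 (hn : 3 * m + 8 * K ≤ n) :
    mv n ((insD m K α β γ).set (m + 1 + K) 0 X).A x (2 * m + 1 + 4 * K) =
      ∑ s ∈ range K, zb (x (3 * m + 8 * s + 7)) := by
  rw [mv_set X x (by omega), mv_win x (a := 3 * m) (k := 8 * K) (F := fun c => decide (c % 8 = 7))
    (fun j => by
    unfold insD; simp only
    rw [if_neg (by omega), if_neg (by omega), if_neg (by omega), if_neg (by omega), if_neg (by omega),
      if_neg (by omega), if_neg (by omega), if_pos (by omega)]) (by omega), sum8]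
  refine Finset.sum_congr rfl fun s _ => ?_
  rw [Finset.sum_eq_single 7]
  · rw [decide_eq_true (by omega), zb_true, one_mul, add_assoc]
  · intro c hc h7
    have := mem_range.1 hc
    rw [decide_eq_false (by omega), zb_false, zero_mul]
  · intro hc
    exact absurd (mem_range.2 (by omega)) hc

theorem D8 {i : ℕ} (h : 2 * m + 2 + 4 * K ≤ i) :
    mv n ((insD m K α β γ).set (m + 1 + K) 0 X).A x i = 0 := by
  rw [mv_set X x (by omega)]
  exact mv_zero x fun j => by
    unfold insD; simp only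
    rw [if_neg (by omega), if_neg (by omega), if_neg (by omega), if_neg (by omega), if_neg (by omega),
      if_neg (by omega), if_neg (by omega), if_neg (by omega)]

/-- the equations in terms of their parts -/
structure DSol (m K : ℕ) (α β γ : ℕ → ℕ → Bool) (X : Fin m → Fin m → Bool) (x : ℕ → Bool) : Prop where
  e0 : ∑ b ∈ range m, zb (x b) = 1
  e1 : ∀ l < m, zb (x (m + l)) + zb (x (2 * m + l)) = 1
  e2 : ∀ s < K, ∑ c ∈ range 8, zb (x (3 * m + 8 * s + c)) = 1
  e3 : ∀ l (hl : l < m), ∑ b : Fin m, zb (X b ⟨l, hl⟩) * zb (x b) + zb (x (2 * m + l)) = 0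
  e4 : ∀ s < K, lw m (α s) (fun l => x (2 * m + l)) +
    ∑ c ∈ range 8, zb (c.testBit 0) * zb (x (3 * m + 8 * s + c)) = 0
  e5 : ∀ s < K, lw m (β s) (fun l => x (2 * m + l)) +
    ∑ c ∈ range 8, zb (c.testBit 1) * zb (x (3 * m + 8 * s + c)) = 0
  e6 : ∀ s < K, lw m (γ s) (fun l => x (2 * m + l)) +
    ∑ c ∈ range 8, zb (c.testBit 2) * zb (x (3 * m + 8 * s + c)) = 0
  e7 : ∑ s ∈ range K, zb (x (3 * m + 8 * s + 7)) = 1

theorem dsol_iff (hm : 1 ≤ m) (hn : 3 * m + 8 * K ≤ n) (hn2 : 2 * m + 2 + 4 * K ≤ n) :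
    (∀ i < n, mv n ((insD m K α β γ).set (m + 1 + K) 0 X).A x i = zb ((insD m K α β γ).r i)) ↔
      DSol m K α β γ X x := by
  have r1 : ∀ i, i < m + 1 + K → zb ((insD m K α β γ).r i) = 1 := fun i hi => by
    unfold insD; simp only; rw [decide_eq_true (Or.inl hi), zb_true]
  have r0 : ∀ i, m + 1 + K ≤ i → i ≠ 2 * m + 1 + 4 * K → zb ((insD m K α β γ).r i) = 0 := fun i hi h => by
    unfold insD; simp only; rw [decide_eq_false (by omega), zb_false]
  have r7 : zb ((insD m K α β γ).r (2 * m + 1 + 4 * K)) = 1 := by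
    unfold insD; simp only; rw [decide_eq_true (Or.inr trivial), zb_true]
  constructor
  · intro h
    refine ⟨?_, ?_, ?_, ?_, ?_, ?_, ?_, ?_⟩
    · rw [← D0 α β γ X x hm hn, h 0 (by omega), r1 _ (by omega)]
    · intro l hl
      rw [← D1 α β γ X x hn hl, h _ (by omega), r1 _ (by omega)]
    · intro s hs
      rw [← D2 α β γ X x hn hs, h _ (by omega), r1 _ (by omega)]
    · intro l hl
      rw [← D3 α β γ X x hn hl, h _ (by omega), r0 _ (by omega) (by omega)]
    · intro s hs
      rw [← D4 α β γ X x hn hs, h _ (by omega), r0 _ (by omega) (by omega)]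
    · intro s hs
      rw [← D5 α β γ X x hn hs, h _ (by omega), r0 _ (by omega) (by omega)]
    · intro s hs
      rw [← D6 α β γ X x hn hs, h _ (by omega), r0 _ (by omega) (by omega)]
    · rw [← D7 α β γ X x hn, h _ (by omega), r7]
  · intro h i hi
    by_cases c0 : i = 0
    · subst c0
      rw [D0 α β γ X x hm hn, r1 _ (by omega)]
      exact h.e0
    by_cases c1 : i < m + 1
    · obtain ⟨l, rfl⟩ : ∃ l, i = 1 + l := ⟨i - 1, by omega⟩
      rw [D1 α β γ X x hn (by omega), r1 _ (by omega)]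
      exact h.e1 l (by omega)
    by_cases c2 : i < m + 1 + K
    · obtain ⟨s, rfl⟩ : ∃ s, i = m + 1 + s := ⟨i - (m + 1), by omega⟩
      rw [D2 α β γ X x hn (by omega), r1 _ (by omega)]
      exact h.e2 s (by omega)
    by_cases c3 : i < 2 * m + 1 + K
    · obtain ⟨l, rfl⟩ : ∃ l, i = m + 1 + K + l := ⟨i - (m + 1 + K), by omega⟩
      rw [D3 α β γ X x hn (by omega), r0 _ (by omega) (by omega)]
      exact h.e3 l (by omega)
    by_cases c4 : i < 2 * m + 1 + 2 * K
    · obtain ⟨s, rfl⟩ : ∃ s, i = 2 * m + 1 + K + s := ⟨i - (2 * m + 1 + K), by omega⟩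
      rw [D4 α β γ X x hn (by omega), r0 _ (by omega) (by omega)]
      exact h.e4 s (by omega)
    by_cases c5 : i < 2 * m + 1 + 3 * K
    · obtain ⟨s, rfl⟩ : ∃ s, i = 2 * m + 1 + 2 * K + s := ⟨i - (2 * m + 1 + 2 * K), by omega⟩
      rw [D5 α β γ X x hn (by omega), r0 _ (by omega) (by omega)]
      exact h.e5 s (by omega)
    by_cases c6 : i < 2 * m + 1 + 4 * K
    · obtain ⟨s, rfl⟩ : ∃ s, i = 2 * m + 1 + 3 * K + s := ⟨i - (2 * m + 1 + 3 * K), by omega⟩
      rw [D6 α β γ X x hn (by omega), r0 _ (by omega) (by omega)]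
      exact h.e6 s (by omega)
    by_cases c7 : i = 2 * m + 1 + 4 * K
    · subst c7
      rw [D7 α β γ X x hn, r7]
      exact h.e7
    · rw [D8 (m := m) (K := K) (n := n) α β γ X x (i := i) (by omega), r0 _ (by omega) c7]

end

/-! ### The equivalence -/

/-- the weight splits into groups -/
theorem wt_split (m K : ℕ) (x : ℕ → Bool) : wt (3 * m + 8 * K) x =
    wt m x + ∑ l ∈ range m, ((x (m + l)).toNat + (x (2 * m + l)).toNat) +
      ∑ s ∈ range K, wt 8 (fun c => x (3 * m + 8 * s + c)) := by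
  rw [show 3 * m + 8 * K = (m + m) + m + 8 * K by ring, wt_add, wt_add, wt_add, Finset.sum_add_distrib]
  have h1 : wt (8 * K) (fun j => x (m + m + m + j)) =
      ∑ s ∈ range K, wt 8 (fun c => x (3 * m + 8 * s + c)) := by
    unfold wt
    rw [sum8]
    refine Finset.sum_congr rfl fun s _ => Finset.sum_congr rfl fun c _ => ?_
    simp only
    rw [show m + m + m + (8 * s + c) = 3 * m + 8 * s + c by ring]
  have h2 : wt m (fun j => x (m + m + j)) = ∑ l ∈ range m, (x (2 * m + l)).toNat := by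
    unfold wt
    refine Finset.sum_congr rfl fun l _ => ?_
    simp only
    rw [show m + m + l = 2 * m + l by ring]
  rw [h1, h2]
  unfold wt
  ring

theorem wt_mono {a b : ℕ} (h : a ≤ b) (x : ℕ → Bool) : wt a x ≤ wt b x := by
  unfold wt
  exact Finset.sum_le_sum_of_subset (Finset.range_mono h)

/-- a light solution has one one in each group -/
theorem groups {m K n : ℕ} {x : ℕ → Bool} (hn : 3 * m + 8 * K ≤ n) (hw : wt n x ≤ m + 1 + K)
    (h0 : ∑ b ∈ range m, zb (x b) = 1) (h1 : ∀ l < m, zb (x (m + l)) + zb (x (2 * m + l)) = 1)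
    (h2 : ∀ s < K, ∑ c ∈ range 8, zb (x (3 * m + 8 * s + c)) = 1) :
    wt m x = 1 ∧ ∀ s < K, wt 8 (fun c => x (3 * m + 8 * s + c)) = 1 := by
  have h3 := (wt_mono hn x).trans hw
  rw [wt_split] at h3
  have p0 : 1 ≤ wt m x := wt_pos h0
  have p1 : m ≤ ∑ l ∈ range m, ((x (m + l)).toNat + (x (2 * m + l)).toNat) := by
    calc m = ∑ _l ∈ range m, 1 := by simp
      _ ≤ _ := Finset.sum_le_sum fun l hl => by
        have := h1 l (mem_range.1 hl)
        revert this
        generalize x (m + l) = a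
        generalize x (2 * m + l) = b
        cases a <;> cases b <;> decide
  have p2 : ∀ s < K, 1 ≤ wt 8 (fun c => x (3 * m + 8 * s + c)) := fun s hs => wt_pos (h2 s hs)
  have p3 : K ≤ ∑ s ∈ range K, wt 8 (fun c => x (3 * m + 8 * s + c)) := by
    calc K = ∑ _s ∈ range K, 1 := by simp
      _ ≤ _ := Finset.sum_le_sum fun s hs => p2 s (mem_range.1 hs)
  refine ⟨by omega, fun s hs => ?_⟩
  by_contra hc
  have hc2 : 2 ≤ wt 8 (fun c => x (3 * m + 8 * s + c)) := by
    have := p2 s hs
    omega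
  have p4 : K + 1 ≤ ∑ s ∈ range K, wt 8 (fun c => x (3 * m + 8 * s + c)) := by
    have h4 : ∑ _s ∈ range K, 1 < ∑ s ∈ range K, wt 8 (fun c => x (3 * m + 8 * s + c)) :=
      Finset.sum_lt_sum (fun s hs => p2 s (mem_range.1 hs)) ⟨s, mem_range.2 hs, by omega⟩
    simpa using h4
  omega

/-- one chosen column in a group of eight, in terms of the bits of its number -/
theorem eight {y : ℕ → Bool} (h : wt 8 y = 1) {a b g : ZMod 2}
    (ha : a + ∑ c ∈ range 8, zb (c.testBit 0) * zb (y c) = 0)
    (hb : b + ∑ c ∈ range 8, zb (c.testBit 1) * zb (y c) = 0)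
    (hg : g + ∑ c ∈ range 8, zb (c.testBit 2) * zb (y c) = 0) : a * b * g = zb (y 7) := by
  obtain ⟨i, hi, hy⟩ := wt_one h
  have h1 : ∀ t, ∑ c ∈ range 8, zb (c.testBit t) * zb (y c) = zb (i.testBit t) := by
    intro t
    rw [Finset.sum_eq_single i]
    · rw [hy i hi, decide_eq_true rfl, zb_true, mul_one]
    · intro c hc hci
      rw [hy c (mem_range.1 hc), decide_eq_false hci, zb_false, mul_zero]
    · intro hc
      exact absurd (mem_range.2 hi) hc
  rw [h1] at ha hb hg
  rw [hy 7 (by omega)]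
  have e : ∀ u v : ZMod 2, u + v = 0 → u = v := by decide
  rw [e _ _ ha, e _ _ hb, e _ _ hg]
  clear h hy h1 ha hb hg
  interval_cases i <;> decide

/-- the number of the chosen column -/
def cn (a b g : Bool) : ℕ := a.toNat + 2 * b.toNat + 4 * g.toNat

/-- the solution that selects the block `b0` -/
def solD (m : ℕ) (α β γ : ℕ → ℕ → Bool) (b0 : ℕ) (w : ℕ → Bool) (K j : ℕ) : Bool :=
  if j < m then decide (j = b0)
  else if j < 2 * m then !w (j - m)
  else if j < 3 * m then w (j - 2 * m)
  else if j < 3 * m + 8 * K then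
    decide ((j - 3 * m) % 8 = cn (ob (lw m (α ((j - 3 * m) / 8)) w)) (ob (lw m (β ((j - 3 * m) / 8)) w))
      (ob (lw m (γ ((j - 3 * m) / 8)) w)))
  else false

theorem cn_lt (a b g : Bool) : cn a b g < 8 := by cases a <;> cases b <;> cases g <;> decide

theorem cn_bits (a b g : Bool) : (cn a b g).testBit 0 = a ∧ (cn a b g).testBit 1 = b ∧
    (cn a b g).testBit 2 = g := by cases a <;> cases b <;> cases g <;> decide

theorem cn_seven (a b g : Bool) : zb (decide (7 = cn a b g)) = zb a * zb b * zb g := by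
  cases a <;> cases b <;> cases g <;> decide

/-- **The decoding problem with the blocks `X`.** -/
theorem dec_sys {m K n : ℕ} (hm : 1 ≤ m) (hn : 3 * m + 8 * K ≤ n) (hn2 : 2 * m + 2 + 4 * K ≤ n)
    (α β γ : Fin K → Fin m → Bool) (X : Fin m → Fin m → Bool) :
    (∃ x : ℕ → Bool, (∀ i < n, mv n ((insD m K (ex α) (ex β) (ex γ)).set (m + 1 + K) 0 X).A x i =
        zb ((insD m K (ex α) (ex β) (ex γ)).r i)) ∧ wt n x ≤ m + 1 + K) ↔
      ∃ b, g3 α β γ (X b) = true := by
  constructor
  · rintro ⟨x, hx, hw⟩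
    have h := (dsol_iff (ex α) (ex β) (ex γ) X x hm hn hn2).1 hx
    obtain ⟨g0, g1⟩ := groups hn hw h.e0 h.e1 h.e2
    obtain ⟨i0, hi0, hu⟩ := wt_one g0
    refine ⟨⟨i0, hi0⟩, ?_⟩
    have hwX : ∀ l : Fin m, x (2 * m + l) = X ⟨i0, hi0⟩ l := by
      intro l
      have h3 := h.e3 l l.2
      rw [Finset.sum_eq_single (⟨i0, hi0⟩ : Fin m)] at h3
      · have h5 : x i0 = true := by
          rw [hu i0 hi0]
          simp
        simp only at h3
        rw [h5, zb_true, mul_one] at h3
        have e : ∀ u v : ZMod 2, u + v = 0 → u = v := by decide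
        exact (zb_inj.1 (e _ _ h3)).symm
      · intro b _ hb
        rw [hu b b.2, decide_eq_false (fun hc => hb (Fin.ext hc)), zb_false, mul_zero]
      · intro hc
        exact absurd (Finset.mem_univ _) hc
    rw [← sum_g3 α β γ (X ⟨i0, hi0⟩) (fun l => x (2 * m + l)) hwX, ← h.e7]
    refine Finset.sum_congr rfl fun s hs => ?_
    have hs' := mem_range.1 hs
    exact eight (g1 s hs') (h.e4 s hs') (h.e5 s hs') (h.e6 s hs')
  · rintro ⟨b, hb⟩
    obtain ⟨w, hw⟩ : ∃ w : ℕ → Bool, w = fun l => if h : l < m then X b ⟨l, h⟩ else false := ⟨_, rfl⟩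
    have hwX : ∀ l : Fin m, w l = X b l := fun l => by rw [hw]; simp only; rw [dif_pos l.2]
    obtain ⟨x, hx⟩ : ∃ x, x = solD m (ex α) (ex β) (ex γ) b w K := ⟨_, rfl⟩
    obtain ⟨A, hA⟩ : ∃ A : ℕ → Bool, A = fun s => ob (lw m (ex α s) w) := ⟨_, rfl⟩
    obtain ⟨B, hB⟩ : ∃ B : ℕ → Bool, B = fun s => ob (lw m (ex β s) w) := ⟨_, rfl⟩
    obtain ⟨C, hC⟩ : ∃ C : ℕ → Bool, C = fun s => ob (lw m (ex γ s) w) := ⟨_, rfl⟩
    have zA : ∀ s, zb (A s) = lw m (ex α s) w := fun s => by rw [hA]; exact zb_ob _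
    have zB : ∀ s, zb (B s) = lw m (ex β s) w := fun s => by rw [hB]; exact zb_ob _
    have zC : ∀ s, zb (C s) = lw m (ex γ s) w := fun s => by rw [hC]; exact zb_ob _
    have xu : ∀ j < m, x j = decide (j = (b : ℕ)) := by
      intro j hj
      rw [hx]
      unfold solD
      rw [if_pos hj]
    have x0 : ∀ l < m, x (m + l) = !w l := by
      intro l hl
      rw [hx]
      unfold solD
      rw [if_neg (by omega), if_pos (by omega), Nat.add_sub_cancel_left]
    have x1 : ∀ l < m, x (2 * m + l) = w l := by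
      intro l hl
      rw [hx]
      unfold solD
      rw [if_neg (by omega), if_neg (by omega), if_pos (by omega), Nat.add_sub_cancel_left]
    have x2 : ∀ s < K, ∀ c < 8, x (3 * m + 8 * s + c) = decide (c = cn (A s) (B s) (C s)) := by
      intro s hs c hc
      rw [hx, hA, hB, hC]
      unfold solD
      rw [if_neg (by omega), if_neg (by omega), if_neg (by omega), if_pos (by omega),
        show (3 * m + 8 * s + c - 3 * m) % 8 = c by omega, show (3 * m + 8 * s + c - 3 * m) / 8 = s by omega]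
    have x3 : ∀ j, 3 * m + 8 * K ≤ j → x j = false := by
      intro j hj
      rw [hx]
      unfold solD
      rw [if_neg (by omega), if_neg (by omega), if_neg (by omega), if_neg (by omega)]
    have hlw : ∀ F : ℕ → Bool, lw m F (fun l => x (2 * m + l)) = lw m F w :=
      fun F => lw_congr fun l hl => x1 l hl
    have hb2 := b.2
    have w0 : wt m x = 1 := wt_single hb2 xu
    have w8 : ∀ s < K, wt 8 (fun c => x (3 * m + 8 * s + c)) = 1 := fun s hs =>
      wt_single (cn_lt (A s) (B s) (C s)) (fun c hc => x2 s hs c hc)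
    have s8 : ∀ s < K, ∀ t, ∑ c ∈ range 8, zb (c.testBit t) * zb (x (3 * m + 8 * s + c)) =
        zb ((cn (A s) (B s) (C s)).testBit t) := by
      intro s hs t
      rw [Finset.sum_eq_single (cn (A s) (B s) (C s))]
      · rw [x2 s hs _ (cn_lt _ _ _), decide_eq_true rfl, zb_true, mul_one]
      · intro c hc hci
        rw [x2 s hs c (mem_range.1 hc), decide_eq_false hci, zb_false, mul_zero]
      · intro hc
        exact absurd (mem_range.2 (cn_lt _ _ _)) hc
    have dbl : ∀ u : ZMod 2, u + u = 0 := by decide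
    refine ⟨x, (dsol_iff (ex α) (ex β) (ex γ) X x hm hn hn2).2 ⟨?_, ?_, ?_, ?_, ?_, ?_, ?_, ?_⟩, ?_⟩
    · rw [← wt_zb, w0]
      rfl
    · intro l hl
      rw [x0 l hl, x1 l hl]
      generalize w l = a
      cases a <;> decide
    · intro s hs
      rw [← wt_zb, w8 s hs]
      rfl
    · intro l hl
      rw [Finset.sum_eq_single b, xu b b.2, decide_eq_true rfl, zb_true, mul_one, x1 l hl,
        ← hwX ⟨l, hl⟩]
      · exact dbl _
      · intro c _ hc
        rw [xu c c.2, decide_eq_false (fun h => hc (Fin.ext h)), zb_false, mul_zero]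
      · intro hc
        exact absurd (Finset.mem_univ _) hc
    · intro s hs
      rw [hlw, s8 s hs, (cn_bits _ _ _).1, zA]
      exact dbl _
    · intro s hs
      rw [hlw, s8 s hs, (cn_bits _ _ _).2.1, zB]
      exact dbl _
    · intro s hs
      rw [hlw, s8 s hs, (cn_bits _ _ _).2.2, zC]
      exact dbl _
    · rw [← (sum_g3 α β γ (X b) w hwX).2 hb]
      refine Finset.sum_congr rfl fun s hs => ?_
      rw [x2 s (mem_range.1 hs) 7 (by omega), cn_seven, zA, zB, zC]
    · have hsplit : wt n x = wt (3 * m + 8 * K) x := by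
        obtain ⟨d, rfl⟩ : ∃ d, n = 3 * m + 8 * K + d := ⟨n - (3 * m + 8 * K), by omega⟩
        rw [wt_add]
        have : wt d (fun j => x (3 * m + 8 * K + j)) = 0 := by
          unfold wt
          refine Finset.sum_eq_zero fun j _ => ?_
          simp only
          rw [x3 _ (by omega)]
          rfl
        rw [this, add_zero]
      rw [hsplit, wt_split, w0]
      have e1 : ∑ l ∈ range m, ((x (m + l)).toNat + (x (2 * m + l)).toNat) = m := by
        rw [Finset.sum_congr rfl fun l hl => by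
          rw [x0 l (mem_range.1 hl), x1 l (mem_range.1 hl), show (!w l).toNat + (w l).toNat = 1 by
            generalize w l = a; cases a <;> rfl]]
        simp
      have e2 : ∑ s ∈ range K, wt 8 (fun c => x (3 * m + 8 * s + c)) = K := by
        rw [Finset.sum_congr rfl fun s hs => w8 s (mem_range.1 hs)]
        simp
      rw [e1, e2]
      omega

/-- **The word with the blocks `X`.** -/
theorem decE_iff {N m K : ℕ} (hm : 1 ≤ m) (hn : 3 * m + 8 * K ≤ dim N) (hn2 : 2 * m + 2 + 4 * K ≤ dim N)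
    (α β γ : Fin K → Fin m → Bool) (X : Fin m → Fin m → Bool) :
    ¬ Dec (List.ofFn (wd (pos N m (m + 1 + K) 0 (by omega) (by omega))
      (word N (insD m K (ex α) (ex β) (ex γ))) X)) ↔ ∀ b, g3 α β γ (X b) = false := by
  rw [wd_word, dec_iff]
  have h := dec_sys hm hn hn2 α β γ X
  have hs : ((range (dim N)).filter fun j =>
      ((insD m K (ex α) (ex β) (ex γ)).set (m + 1 + K) 0 X).s j = true).card = m + 1 + K := by
    have : ((range (dim N)).filter fun j =>
      ((insD m K (ex α) (ex β) (ex γ)).set (m + 1 + K) 0 X).s j = true) = range (m + 1 + K) := by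
      ext j
      rw [mem_filter, mem_range, mem_range]
      unfold Ins.set insD
      simp only [decide_eq_true_iff]
      omega
    rw [this, card_range]
  have h' : (∃ x : ℕ → Bool, (∀ i < dim N,
      mv (dim N) ((insD m K (ex α) (ex β) (ex γ)).set (m + 1 + K) 0 X).A x i =
        zb (((insD m K (ex α) (ex β) (ex γ)).set (m + 1 + K) 0 X).r i)) ∧
      ((range (dim N)).filter fun j => x j = true).card ≤
        ((range (dim N)).filter fun j =>
          ((insD m K (ex α) (ex β) (ex γ)).set (m + 1 + K) 0 X).s j = true).card) ↔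
      ∃ b, g3 α β γ (X b) = true := by
    rw [← h]
    refine exists_congr fun x => and_congr Iff.rfl ?_
    rw [hs, wt_eq]
  constructor
  · intro h1 b
    by_contra hb
    rw [Bool.not_eq_false] at hb
    exact h1 (h'.2 ⟨b, hb⟩)
  · intro h1 h2
    obtain ⟨b, hb⟩ := h'.1 h2
    rw [h1 b] at hb
    exact absurd hb (by decide)

end Pool.Agent.KMR
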