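import Pool.Agent.KMR.Defs
import Pool.Agent.KH.Cub

/-! Sums of products of three linear forms that are balanced on all large cubes. -/

namespace Pool.Agent.KMR

open Finset Pool.Agent.SemRO Pool.Agent.KD Pool.Agent.KE Pool.Agent.KH

/-- the sign of an element of the field with two elements -/
def ch (a : ZMod 2) : ℤ := if a = 1 then -1 else 1

theorem ch_add (a b : ZMod 2) : ch (a + b) = ch a * ch b := by
  revert a b
  decide

theorem ch_zero : ch 0 = 1 := by decide

theorem ch_sum {ι : Type} (s : Finset ι) (f : ι → ZMod 2) : ch (∑ i ∈ s, f i) = ∏ i ∈ s, ch (f i) := by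
  classical
  induction s using Finset.induction_on with
  | empty => simp [ch_zero]
  | insert a s ha ih => rw [Finset.sum_insert ha, Finset.prod_insert ha, ch_add, ih]

theorem sg_dec (a : ZMod 2) : sg (decide (a = 1)) = ch a := by
  revert a
  decide

theorem abs_ch (a : ZMod 2) : |ch a| = 1 := by
  revert a
  decide

theorem ind_ch (a : ZMod 2) : 2 * (if a = 0 then (1 : ℤ) else 0) = 1 + ch a := by
  revert a
  decide

/-- nontrivial characters have sum zero -/
theorem sum_ch {m : ℕ} (a : Fin m → ZMod 2) {i : Fin m} (hi : a i ≠ 0) :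
    ∑ x : Fin m → Bool, ch (∑ j, zb (x j) * a j) = 0 := by
  have h1 : ∀ x : Fin m → Bool, ch (∑ j, zb (x j) * a j) = ∏ j, ch (zb (x j) * a j) := fun x => ch_sum _ _
  rw [Finset.sum_congr rfl fun x _ => h1 x]
  have h := Finset.prod_univ_sum (κ := fun _ : Fin m => Bool) (fun _ : Fin m => (univ : Finset Bool))
    (fun j b => ch (zb b * a j))
  rw [Fintype.piFinset_univ] at h
  rw [← h]
  refine Finset.prod_eq_zero (Finset.mem_univ i) ?_
  rw [Fintype.sum_bool]
  revert hi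
  generalize a i = b
  revert b
  decide

section
variable {m : ℕ}

/-- the linear forms of one product -/
abbrev Tr (m : ℕ) : Type := (Fin m → Bool) × (Fin m → Bool) × (Fin m → Bool)

/-- the sum over all products of the products of the signs -/
def W {r : ℕ} (z z' : Fin r → Fin m → Bool) : ℤ :=
  ∑ c : Tr m, ∏ s, (ch (lin c.1 (z s) * lin c.2.1 (z s) * lin c.2.2 (z s)) *
    ch (lin c.1 (z' s) * lin c.2.1 (z' s) * lin c.2.2 (z' s)))

theorem lin_eq (α x : Fin m → Bool) : lin α x = ∑ l, zb (α l) * zb (x l) := by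
  unfold lin
  exact Finset.sum_congr rfl fun l _ => zb_and _ _

theorem card_Tr : Fintype.card (Tr m) = 8 ^ m := by
  rw [Fintype.card_prod, Fintype.card_prod, Fintype.card_fun, Fintype.card_bool, Fintype.card_fin,
    ← mul_pow, ← mul_pow]
  norm_num

theorem W_le {r : ℕ} (z z' : Fin r → Fin m → Bool) : |W z z'| ≤ 8 ^ m := by
  unfold W
  refine (Finset.abs_sum_le_sum_abs _ _).trans ?_
  have h : ∀ c : Tr m, |∏ s, (ch (lin c.1 (z s) * lin c.2.1 (z s) * lin c.2.2 (z s)) *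
      ch (lin c.1 (z' s) * lin c.2.1 (z' s) * lin c.2.2 (z' s)))| = 1 := by
    intro c
    rw [Finset.abs_prod]
    refine Finset.prod_eq_one fun s _ => ?_
    rw [abs_mul, abs_ch, abs_ch, one_mul]
  rw [Finset.sum_congr rfl fun c _ => h c, Finset.sum_const, Finset.card_univ, card_Tr, nsmul_eq_mul,
    mul_one]
  push_cast
  exact le_rfl

/-- the sum over the third form -/
theorem sum_third {r : ℕ} (z z' : Fin r → Fin m → Bool) (α β : Fin m → Bool) :
    ∑ γ : Fin m → Bool, ∏ s, (ch (lin α (z s) * lin β (z s) * lin γ (z s)) *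
      ch (lin α (z' s) * lin β (z' s) * lin γ (z' s))) =
    ∑ γ : Fin m → Bool, ch (∑ l, zb (γ l) * ∑ s, (lin α (z s) * lin β (z s) * zb (z s l) +
      lin α (z' s) * lin β (z' s) * zb (z' s l))) := by
  refine Finset.sum_congr rfl fun γ _ => ?_
  have h1 : ∀ s, ch (lin α (z s) * lin β (z s) * lin γ (z s)) *
      ch (lin α (z' s) * lin β (z' s) * lin γ (z' s)) =
      ch (lin α (z s) * lin β (z s) * lin γ (z s) + lin α (z' s) * lin β (z' s) * lin γ (z' s)) :=
    fun s => (ch_add _ _).symm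
  rw [Finset.prod_congr rfl fun s _ => h1 s, ← ch_sum]
  congr 1
  have h2 : ∀ s, lin α (z s) * lin β (z s) * lin γ (z s) + lin α (z' s) * lin β (z' s) * lin γ (z' s) =
      ∑ l, zb (γ l) * (lin α (z s) * lin β (z s) * zb (z s l) +
        lin α (z' s) * lin β (z' s) * zb (z' s l)) := by
    intro s
    rw [lin_eq γ (z s), lin_eq γ (z' s), Finset.mul_sum, Finset.mul_sum, ← Finset.sum_add_distrib]
    refine Finset.sum_congr rfl fun l _ => ?_
    ring
  rw [Finset.sum_congr rfl fun s _ => h2 s, Finset.sum_comm]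
  refine Finset.sum_congr rfl fun l _ => ?_
  rw [Finset.mul_sum]

/-- the quadratic form of a tuple vanishes at few pairs -/
theorem few_pairs {r : ℕ} (z : Fin r → Fin m → Bool) {i j : Fin m}
    (h : ∑ s, zb (z s i) * zb (z s j) ≠ 0) :
    4 * ∑ α : Fin m → Bool, ∑ β : Fin m → Bool,
      (if ∑ s, lin α (z s) * lin β (z s) = 0 then (1 : ℤ) else 0) ≤ 3 * 4 ^ m := by
  have hcard : ∀ c : ℤ, ∑ _x : Fin m → Bool, c = 2 ^ m * c := by
    intro c
    rw [Finset.sum_const, Finset.card_univ, Fintype.card_fun, Fintype.card_bool, Fintype.card_fin,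
      nsmul_eq_mul]
    push_cast
    rfl
  -- the number of `β` whose coordinate vanishes
  have e1 : ∀ (k : Fin m) (β : Fin m → Bool), ∑ s, zb (z s k) * lin β (z s) =
      ∑ l, zb (β l) * ∑ s, zb (z s k) * zb (z s l) := by
    intro k β
    have : ∀ s, zb (z s k) * lin β (z s) = ∑ l, zb (β l) * (zb (z s k) * zb (z s l)) := by
      intro s
      rw [lin_eq, Finset.mul_sum]
      exact Finset.sum_congr rfl fun l _ => by ring
    rw [Finset.sum_congr rfl fun s _ => this s, Finset.sum_comm]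
    exact Finset.sum_congr rfl fun l _ => by rw [Finset.mul_sum]
  have h1 : 2 * ∑ β : Fin m → Bool, (if ∑ s, zb (z s i) * lin β (z s) = 0 then (1 : ℤ) else 0) =
      2 ^ m := by
    rw [Finset.mul_sum]
    rw [Finset.sum_congr rfl fun β _ => ind_ch _, Finset.sum_add_distrib, hcard, mul_one]
    rw [Finset.sum_congr rfl fun β _ => by rw [e1 i β], sum_ch _ h, add_zero]
  -- the sum over `α`
  have e2 : ∀ α β : Fin m → Bool, ∑ s, lin α (z s) * lin β (z s) =
      ∑ k, zb (α k) * ∑ s, zb (z s k) * lin β (z s) := by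
    intro α β
    have : ∀ s, lin α (z s) * lin β (z s) = ∑ k, zb (α k) * (zb (z s k) * lin β (z s)) := by
      intro s
      rw [lin_eq α, Finset.sum_mul]
      exact Finset.sum_congr rfl fun l _ => by ring
    rw [Finset.sum_congr rfl fun s _ => this s, Finset.sum_comm]
    exact Finset.sum_congr rfl fun l _ => by rw [Finset.mul_sum]
  have h2 : ∀ β : Fin m → Bool, ∑ α : Fin m → Bool, ch (∑ s, lin α (z s) * lin β (z s)) ≤
      2 ^ m * (if ∑ s, zb (z s i) * lin β (z s) = 0 then (1 : ℤ) else 0) := by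
    intro β
    split_ifs with hc
    · rw [← hcard]
      refine Finset.sum_le_sum fun α _ => ?_
      exact (le_abs_self _).trans (abs_ch _).le
    · rw [mul_zero]
      refine le_of_eq ?_
      rw [Finset.sum_congr rfl fun α _ => by rw [e2 α β]]
      exact sum_ch _ hc
  have h3 : 2 * ∑ α : Fin m → Bool, ∑ β : Fin m → Bool,
      (if ∑ s, lin α (z s) * lin β (z s) = 0 then (1 : ℤ) else 0) =
      2 ^ m * 2 ^ m + ∑ β : Fin m → Bool, ∑ α : Fin m → Bool, ch (∑ s, lin α (z s) * lin β (z s)) := by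
    rw [Finset.mul_sum]
    have : ∀ α : Fin m → Bool, 2 * ∑ β : Fin m → Bool,
        (if ∑ s, lin α (z s) * lin β (z s) = 0 then (1 : ℤ) else 0) =
        2 ^ m + ∑ β : Fin m → Bool, ch (∑ s, lin α (z s) * lin β (z s)) := by
      intro α
      rw [Finset.mul_sum, Finset.sum_congr rfl fun β _ => ind_ch _, Finset.sum_add_distrib, hcard, mul_one]
    rw [Finset.sum_congr rfl fun α _ => this α, Finset.sum_add_distrib, hcard, Finset.sum_comm]
  have h4 : ∑ β : Fin m → Bool, ∑ α : Fin m → Bool, ch (∑ s, lin α (z s) * lin β (z s)) ≤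
      2 ^ m * ∑ β : Fin m → Bool, (if ∑ s, zb (z s i) * lin β (z s) = 0 then (1 : ℤ) else 0) := by
    rw [Finset.mul_sum]
    exact Finset.sum_le_sum fun β _ => h2 β
  have h5 : (4 : ℤ) ^ m = 2 ^ m * 2 ^ m := by rw [← mul_pow]; norm_num
  have h6 : (2 : ℤ) ^ m * (2 * ∑ β : Fin m → Bool,
      (if ∑ s, zb (z s i) * lin β (z s) = 0 then (1 : ℤ) else 0)) = 2 ^ m * 2 ^ m := by rw [h1]
  rw [h5]
  linarith

/-- the sum is smaller if the tuple is not even -/
theorem W_small {r : ℕ} {T : Finset (Fin m)} {y y' : Fin m → Bool} {l : Fin m} (hl : l ∉ T)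
    (hyl : y l ≠ y' l) {p : Fin r → Fin m → Bool} (hp : ∀ s, p s ∈ cube T y) (ho : ¬ EvenOn T p) :
    4 * |W p fun s => mix T (p s) y'| ≤ 3 * 8 ^ m := by
  unfold EvenOn at ho
  push Not at ho
  obtain ⟨i, hi, j, hj, ho⟩ := ho
  -- the tuple that appears in coordinate `l`
  obtain ⟨z, hz, hzi, hzj⟩ : ∃ z : Fin r → Fin m → Bool,
      (∀ α β : Fin m → Bool, ∑ s, (lin α (p s) * lin β (p s) * zb (p s l) +
        lin α (mix T (p s) y') * lin β (mix T (p s) y') * zb (mix T (p s) y' l)) =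
          ∑ s, lin α (z s) * lin β (z s)) ∧ (∀ s, z s i = p s i) ∧ ∀ s, z s j = p s j := by
    have e1 : ∀ s, p s l = y l := fun s => mem_cube.1 (hp s) l hl
    have e2 : ∀ s, mix T (p s) y' l = y' l := fun s => by simp [mix, hl]
    by_cases hy : y l = true
    · have hy' : y' l = false := by
        cases h : y' l
        · rfl
        · exact absurd (hy.trans h.symm) hyl
      refine ⟨p, fun α β => Finset.sum_congr rfl fun s _ => ?_, fun _ => rfl, fun _ => rfl⟩
      rw [e1, e2, hy, hy']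
      show _ * (1 : ZMod 2) + _ * (0 : ZMod 2) = _
      ring
    · rw [Bool.not_eq_true] at hy
      have hy' : y' l = true := by
        cases h : y' l
        · exact absurd (hy.trans h.symm) hyl
        · rfl
      refine ⟨fun s => mix T (p s) y', fun α β => Finset.sum_congr rfl fun s _ => ?_,
        fun s => by simp [mix, hi], fun s => by simp [mix, hj]⟩
      rw [e1, e2, hy, hy']
      show _ * (0 : ZMod 2) + _ * (1 : ZMod 2) = _
      ring
  have hM : ∑ s, zb (z s i) * zb (z s j) ≠ 0 := by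
    intro h0
    apply ho
    have e3 : ∑ s, zb (z s i) * zb (z s j) =
        (((univ.filter fun s => (p s i && p s j) = true).card : ℕ) : ZMod 2) := by
      rw [Finset.card_filter]
      push_cast
      refine Finset.sum_congr rfl fun s _ => ?_
      rw [hzi, hzj]
      cases p s i <;> cases p s j <;> decide
    rw [h0] at e3
    have := (ZMod.natCast_eq_zero_iff_even (n := (univ.filter fun s => (p s i && p s j) = true).card)).1
      e3.symm
    simpa using this
  have h1 : |W p fun s => mix T (p s) y'| ≤ ∑ α : Fin m → Bool, ∑ β : Fin m → Bool,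
      2 ^ m * (if ∑ s, lin α (z s) * lin β (z s) = 0 then (1 : ℤ) else 0) := by
    unfold W
    rw [Fintype.sum_prod_type]
    refine (Finset.abs_sum_le_sum_abs _ _).trans (Finset.sum_le_sum fun α _ => ?_)
    rw [Fintype.sum_prod_type]
    refine (Finset.abs_sum_le_sum_abs _ _).trans (Finset.sum_le_sum fun β _ => ?_)
    simp only
    rw [sum_third p (fun s => mix T (p s) y') α β]
    split_ifs with hc
    · refine (Finset.abs_sum_le_sum_abs _ _).trans ?_
      rw [Finset.sum_congr rfl fun γ _ => abs_ch _, Finset.sum_const, Finset.card_univ,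
        Fintype.card_fun, Fintype.card_bool, Fintype.card_fin, nsmul_eq_mul]
      push_cast
      exact le_rfl
    · rw [mul_zero]
      refine le_of_eq (abs_eq_zero.2 (sum_ch _ (i := l) ?_))
      rw [hz]
      exact hc
  have h2 := few_pairs z hM
  have h3 : ∑ α : Fin m → Bool, ∑ β : Fin m → Bool,
      2 ^ m * (if ∑ s, lin α (z s) * lin β (z s) = 0 then (1 : ℤ) else 0) =
      2 ^ m * ∑ α : Fin m → Bool, ∑ β : Fin m → Bool,
        (if ∑ s, lin α (z s) * lin β (z s) = 0 then (1 : ℤ) else 0) := by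
    rw [Finset.mul_sum]
    exact Finset.sum_congr rfl fun α _ => by rw [Finset.mul_sum]
  rw [h3] at h1
  have h4 : (8 : ℤ) ^ m = 2 ^ m * 4 ^ m := by rw [← mul_pow]; norm_num
  have h5 : (2 : ℤ) ^ m * (4 * ∑ α : Fin m → Bool, ∑ β : Fin m → Bool,
      (if ∑ s, lin α (z s) * lin β (z s) = 0 then (1 : ℤ) else 0)) ≤ 2 ^ m * (3 * 4 ^ m) :=
    mul_le_mul_of_nonneg_left h2 (by positivity)
  rw [h4]
  linarith

/-- the function of a family of products -/
def gT {K : ℕ} (C : Fin K → Tr m) (x : Fin m → Bool) : Bool :=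
  g3 (fun s => (C s).1) (fun s => (C s).2.1) (fun s => (C s).2.2) x

theorem sg_gT {K : ℕ} (C : Fin K → Tr m) (x : Fin m → Bool) :
    sg (gT C x) = ∏ s, ch (lin (C s).1 x * lin (C s).2.1 x * lin (C s).2.2 x) := by
  unfold gT g3
  rw [sg_dec, ch_sum]

/-- the moment -/
theorem moment {K q : ℕ} {T : Finset (Fin m)} {y y' : Fin m → Bool} (hy : ∃ i, i ∉ T ∧ y i ≠ y' i) :
    4 ^ K * ∑ C : Fin K → Tr m, ssum (gT C) T y y' ^ (2 * q) ≤
      (8 ^ m) ^ K * (4 ^ K * ((2 : ℤ) ^ (T.card * q) * 2 ^ (2 * q * q)) + 3 ^ K * 2 ^ (T.card * (2 * q))) := by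
  classical
  obtain ⟨l, hl, hyl⟩ := hy
  set P := Fintype.piFinset fun _ : Fin (2 * q) => cube T y with hP
  have e1 : ∀ C : Fin K → Tr m, ssum (gT C) T y y' ^ (2 * q) =
      ∑ p ∈ P, ∏ s, (sg (gT C (p s)) * sg (gT C (mix T (p s) y'))) := by
    intro C
    have h := Finset.prod_univ_sum (κ := fun _ => Fin m → Bool) (fun _ : Fin (2 * q) => cube T y)
      (fun _ x => sg (gT C x) * sg (gT C (mix T x y')))
    rw [Finset.prod_const, Finset.card_univ, Fintype.card_fin] at h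
    exact h
  have e2 : ∀ (C : Fin K → Tr m) (p : Fin (2 * q) → Fin m → Bool),
      ∏ s, (sg (gT C (p s)) * sg (gT C (mix T (p s) y'))) =
        ∏ k, (fun c : Tr m => ∏ s, (ch (lin c.1 (p s) * lin c.2.1 (p s) * lin c.2.2 (p s)) *
          ch (lin c.1 (mix T (p s) y') * lin c.2.1 (mix T (p s) y') * lin c.2.2 (mix T (p s) y')))) (C k) := by
    intro C p
    simp only
    rw [Finset.prod_comm]
    refine Finset.prod_congr rfl fun s _ => ?_
    rw [sg_gT, sg_gT, ← Finset.prod_mul_distrib]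
  have e3 : ∀ p : Fin (2 * q) → Fin m → Bool,
      ∑ C : Fin K → Tr m, ∏ s, (sg (gT C (p s)) * sg (gT C (mix T (p s) y'))) =
        (W p fun s => mix T (p s) y') ^ K := by
    intro p
    rw [Finset.sum_congr rfl fun C _ => e2 C p]
    have h := Finset.prod_univ_sum (κ := fun _ : Fin K => Tr m) (fun _ : Fin K => (univ : Finset (Tr m)))
      (fun _ c => ∏ s, (ch (lin c.1 (p s) * lin c.2.1 (p s) * lin c.2.2 (p s)) *
          ch (lin c.1 (mix T (p s) y') * lin c.2.1 (mix T (p s) y') * lin c.2.2 (mix T (p s) y'))))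
    rw [Fintype.piFinset_univ, Finset.prod_const, Finset.card_univ, Fintype.card_fin] at h
    unfold W
    exact h.symm
  rw [Finset.sum_congr rfl fun C _ => e1 C, Finset.sum_comm, Finset.sum_congr rfl fun p _ => e3 p]
  have h1 : ∀ p ∈ P, 4 ^ K * (W p fun s => mix T (p s) y') ^ K ≤
      (if EvenOn T p then (8 ^ m) ^ K * (4 : ℤ) ^ K else 0) + (8 ^ m) ^ K * 3 ^ K := by
    intro p hp
    rw [hP, Fintype.mem_piFinset] at hp
    split_ifs with h
    · have h2 : (W p fun s => mix T (p s) y') ^ K ≤ (8 ^ m) ^ K := by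
        refine (le_abs_self _).trans ?_
        rw [abs_pow]
        exact pow_le_pow_left₀ (abs_nonneg _) (W_le _ _) K
      have h3 : (0 : ℤ) ≤ (8 ^ m) ^ K * 3 ^ K := by positivity
      have h4 : (4 : ℤ) ^ K * (W p fun s => mix T (p s) y') ^ K ≤ 4 ^ K * (8 ^ m) ^ K :=
        mul_le_mul_of_nonneg_left h2 (by positivity)
      linarith
    · have h2 : (4 : ℤ) ^ K * (W p fun s => mix T (p s) y') ^ K ≤
          (4 * |W p fun s => mix T (p s) y'|) ^ K := by
        rw [mul_pow, ← abs_pow]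
        exact mul_le_mul_of_nonneg_left (le_abs_self _) (by positivity)
      have h3 : (4 * |W p fun s => mix T (p s) y'|) ^ K ≤ (3 * 8 ^ m) ^ K :=
        pow_le_pow_left₀ (by positivity) (W_small hl hyl hp h) K
      rw [mul_pow (3 : ℤ) (8 ^ m) K] at h3
      have h4 := h2.trans h3
      linarith
  rw [Finset.mul_sum]
  refine (Finset.sum_le_sum h1).trans ?_
  rw [Finset.sum_add_distrib, ← Finset.sum_filter, Finset.sum_const, Finset.sum_const, nsmul_eq_mul,
    nsmul_eq_mul]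
  have h2 := card_evenOn T y q
  rw [← hP] at h2
  have h3 : P.card ≤ 2 ^ (T.card * (2 * q)) := by
    rw [hP, Fintype.card_piFinset_const, card_cube, ← pow_mul]
  have h2' : (((P.filter fun p => EvenOn T p).card : ℕ) : ℤ) ≤ 2 ^ (T.card * q) * 2 ^ (2 * q * q) := by
    exact_mod_cast h2
  have h3' : ((P.card : ℕ) : ℤ) ≤ 2 ^ (T.card * (2 * q)) := by exact_mod_cast h3
  have h4 : (((P.filter fun p => EvenOn T p).card : ℕ) : ℤ) * ((8 ^ m) ^ K * 4 ^ K) ≤
      (2 ^ (T.card * q) * 2 ^ (2 * q * q)) * ((8 ^ m) ^ K * 4 ^ K) :=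
    mul_le_mul_of_nonneg_right h2' (by positivity)
  have h5 : ((P.card : ℕ) : ℤ) * ((8 ^ m) ^ K * 3 ^ K) ≤ 2 ^ (T.card * (2 * q)) * ((8 ^ m) ^ K * 3 ^ K) :=
    mul_le_mul_of_nonneg_right h3' (by positivity)
  refine (add_le_add h4 h5).trans (le_of_eq ?_)
  ring

/-- few coefficients are bad at a given cube -/
theorem bad_g {e : ℕ} (h8 : 8 * e ≤ m) (h4 : 4 * m ≤ e ^ 2) (he : 1 ≤ e) {T : Finset (Fin m)}
    {y y' : Fin m → Bool} (hy : ∃ i, i ∉ T ∧ y i ≠ y' i) (hT : T.card = 8 * e) :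
    (univ.filter fun C : Fin (40 * m) → Tr m => ¬ |ssum (gT C) T y y'| ≤ 2 ^ (6 * e)).card *
      2 ^ (3 * m + 1) ≤ Fintype.card (Fin (40 * m) → Tr m) := by
  classical
  obtain ⟨q, hq1, hq2⟩ : ∃ q, 3 * m + 2 ≤ 2 * e * q ∧ 2 * e * q ≤ 3 * m + 2 + 2 * e := by
    refine ⟨(3 * m + 2) / (2 * e) + 1, ?_, ?_⟩
    · have h1 := Nat.div_add_mod (3 * m + 2) (2 * e)
      have h2 := Nat.mod_lt (3 * m + 2) (show 0 < 2 * e by omega)
      rw [mul_add, mul_one]
      omega
    · have h1 := Nat.div_mul_le_self (3 * m + 2) (2 * e)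
      rw [mul_add, mul_one, mul_comm (2 * e)]
      omega
  have hqe : q ≤ e := by
    by_contra hcon
    push Not at hcon
    nlinarith
  set B := univ.filter fun C : Fin (40 * m) → Tr m => ¬ |ssum (gT C) T y y'| ≤ 2 ^ (6 * e) with hB
  have h1 : ((B.card : ℕ) : ℤ) * 2 ^ (6 * e * (2 * q)) ≤ ∑ C : Fin (40 * m) → Tr m, ssum (gT C) T y y' ^ (2 * q) := by
    calc ((B.card : ℕ) : ℤ) * 2 ^ (6 * e * (2 * q)) = ∑ _C ∈ B, (2 : ℤ) ^ (6 * e * (2 * q)) := by
          rw [Finset.sum_const, nsmul_eq_mul]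
      _ ≤ ∑ C ∈ B, ssum (gT C) T y y' ^ (2 * q) := by
          refine Finset.sum_le_sum fun C hC => ?_
          have h2 := (Finset.mem_filter.1 hC).2
          rw [not_le] at h2
          rw [pow_mul, ← (even_two_mul q).pow_abs (ssum (gT C) T y y')]
          exact pow_le_pow_left₀ (by positivity) h2.le _
      _ ≤ ∑ C : Fin (40 * m) → Tr m, ssum (gT C) T y y' ^ (2 * q) :=
          Finset.sum_le_sum_of_subset_of_nonneg (Finset.subset_univ _)
            fun C _ _ => (even_two_mul q).pow_nonneg _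
  have h2 := moment (K := 40 * m) (q := q) hy
  have h3 : (3 : ℤ) ^ (40 * m) * 2 ^ (16 * m) ≤ 4 ^ (40 * m) := by
    have e1 : (3 : ℤ) ^ (40 * m) * 2 ^ (16 * m) = (3 ^ 40 * 2 ^ 16) ^ m := by
      rw [mul_pow, ← pow_mul, ← pow_mul]
    rw [e1, pow_mul]
    exact pow_le_pow_left₀ (by norm_num) (by norm_num) m
  have h4' : 2 * q * q ≤ 2 * e * q := Nat.mul_le_mul_right _ (by omega)
  -- the first part
  have h5 : (2 : ℤ) ^ (T.card * q) * 2 ^ (2 * q * q) * 2 ^ (3 * m + 2) ≤ 2 ^ (6 * e * (2 * q)) := by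
    rw [← pow_add, ← pow_add]
    refine pow_le_pow_right₀ (by norm_num) ?_
    rw [hT]
    have e1 : 8 * e * q = 4 * (2 * e * q) := by ring
    have e2 : 6 * e * (2 * q) = 6 * (2 * e * q) := by ring
    omega
  -- the second part
  have h6 : (2 : ℤ) ^ (T.card * (2 * q)) * 2 ^ (3 * m + 2) ≤ 2 ^ (6 * e * (2 * q)) * 2 ^ (16 * m) := by
    rw [← pow_add, ← pow_add]
    refine pow_le_pow_right₀ (by norm_num) ?_
    rw [hT]
    have e1 : 8 * e * (2 * q) = 8 * (2 * e * q) := by ring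
    have e2 : 6 * e * (2 * q) = 6 * (2 * e * q) := by ring
    omega
  have h7 : ((B.card : ℕ) : ℤ) * 2 ^ (3 * m + 1) ≤ (8 ^ m) ^ (40 * m) := by
    have hpos : (0 : ℤ) < 4 ^ (40 * m) * 2 ^ (6 * e * (2 * q)) := by positivity
    refine le_of_mul_le_mul_right ?_ hpos
    have a1 : ((B.card : ℕ) : ℤ) * 2 ^ (3 * m + 1) * (4 ^ (40 * m) * 2 ^ (6 * e * (2 * q))) =
        4 ^ (40 * m) * (((B.card : ℕ) : ℤ) * 2 ^ (6 * e * (2 * q))) * 2 ^ (3 * m + 1) := by ring
    have a2 : 4 ^ (40 * m) * (((B.card : ℕ) : ℤ) * 2 ^ (6 * e * (2 * q))) ≤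
        (8 ^ m) ^ (40 * m) * (4 ^ (40 * m) * ((2 : ℤ) ^ (T.card * q) * 2 ^ (2 * q * q)) +
          3 ^ (40 * m) * 2 ^ (T.card * (2 * q))) :=
      (mul_le_mul_of_nonneg_left h1 (by positivity)).trans h2
    have a3 : (2 : ℤ) * (4 ^ (40 * m) * ((2 : ℤ) ^ (T.card * q) * 2 ^ (2 * q * q)) * 2 ^ (3 * m + 1)) ≤
        4 ^ (40 * m) * 2 ^ (6 * e * (2 * q)) := by
      calc (2 : ℤ) * (4 ^ (40 * m) * ((2 : ℤ) ^ (T.card * q) * 2 ^ (2 * q * q)) * 2 ^ (3 * m + 1))
          = 4 ^ (40 * m) * (2 ^ (T.card * q) * 2 ^ (2 * q * q) * 2 ^ (3 * m + 2)) := by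
            rw [show 3 * m + 2 = (3 * m + 1) + 1 by omega, pow_succ]; ring
        _ ≤ _ := mul_le_mul_of_nonneg_left h5 (by positivity)
    have a4 : (2 : ℤ) * (3 ^ (40 * m) * 2 ^ (T.card * (2 * q)) * 2 ^ (3 * m + 1)) ≤
        4 ^ (40 * m) * 2 ^ (6 * e * (2 * q)) := by
      calc (2 : ℤ) * (3 ^ (40 * m) * 2 ^ (T.card * (2 * q)) * 2 ^ (3 * m + 1))
          = 3 ^ (40 * m) * (2 ^ (T.card * (2 * q)) * 2 ^ (3 * m + 2)) := by
            rw [show 3 * m + 2 = (3 * m + 1) + 1 by omega, pow_succ]; ring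
        _ ≤ 3 ^ (40 * m) * (2 ^ (6 * e * (2 * q)) * 2 ^ (16 * m)) :=
            mul_le_mul_of_nonneg_left h6 (by positivity)
        _ = (3 ^ (40 * m) * 2 ^ (16 * m)) * 2 ^ (6 * e * (2 * q)) := by ring
        _ ≤ 4 ^ (40 * m) * 2 ^ (6 * e * (2 * q)) := mul_le_mul_of_nonneg_right h3 (by positivity)
    rw [a1]
    have a5 := mul_le_mul_of_nonneg_right a2 (show (0 : ℤ) ≤ 2 ^ (3 * m + 1) by positivity)
    refine a5.trans ?_
    rw [mul_assoc]
    refine mul_le_mul_of_nonneg_left ?_ (by positivity)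
    rw [add_mul]
    linarith
  have h8' : Fintype.card (Fin (40 * m) → Tr m) = (8 ^ m) ^ (40 * m) := by
    rw [Fintype.card_fun, card_Tr, Fintype.card_fin]
  rw [h8']
  exact_mod_cast h7

end

/-- **Good coefficients exist.** -/
theorem exists_g3 {m e : ℕ} (he : 1 ≤ e) (h8 : 8 * e ≤ m) (h4 : 4 * m ≤ e ^ 2) :
    ∃ α β γ : Fin (40 * m) → Fin m → Bool, Bal (g3 α β γ) e := by
  classical
  suffices h : ∃ C : Fin (40 * m) → Tr m, Bal (gT C) e by
    obtain ⟨C, hC⟩ := h
    exact ⟨_, _, _, hC⟩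
  by_contra hcon
  push Not at hcon
  set Q : Finset (Finset (Fin m) × (Fin m → Bool) × (Fin m → Bool)) :=
    univ.filter fun t => t.1.card = 8 * e ∧ ∃ i, i ∉ t.1 ∧ t.2.1 i ≠ t.2.2 i with hQ
  have hcov : (univ : Finset (Fin (40 * m) → Tr m)) ⊆ Q.biUnion fun t =>
      univ.filter fun C => ¬ |ssum (gT C) t.1 t.2.1 t.2.2| ≤ 2 ^ (6 * e) := by
    intro C _
    have h := hcon C
    unfold Bal at h
    push Not at h
    obtain ⟨T, hT, y, y', hy, hb⟩ := h
    refine Finset.mem_biUnion.2 ⟨(T, y, y'), Finset.mem_filter.2 ⟨Finset.mem_univ _, hT, hy⟩,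
      Finset.mem_filter.2 ⟨Finset.mem_univ _, ?_⟩⟩
    rw [not_le]
    exact hb
  have h1 : Fintype.card (Fin (40 * m) → Tr m) ≤ ∑ t ∈ Q,
      (univ.filter fun C : Fin (40 * m) → Tr m => ¬ |ssum (gT C) t.1 t.2.1 t.2.2| ≤ 2 ^ (6 * e)).card := by
    rw [← Finset.card_univ]
    exact (Finset.card_le_card hcov).trans Finset.card_biUnion_le
  have h2 : Fintype.card (Fin (40 * m) → Tr m) * 2 ^ (3 * m + 1) ≤
      Q.card * Fintype.card (Fin (40 * m) → Tr m) := by
    refine (Nat.mul_le_mul_right _ h1).trans ?_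
    rw [Finset.sum_mul, ← smul_eq_mul]
    refine Finset.sum_le_card_nsmul _ _ _ fun t ht => ?_
    obtain ⟨_, ht1, ht2⟩ := Finset.mem_filter.1 ht
    exact bad_g h8 h4 he ht2 ht1
  have h3 : Q.card ≤ 2 ^ (3 * m) := by
    refine (Finset.card_filter_le _ _).trans (le_of_eq ?_)
    rw [Finset.card_univ, Fintype.card_prod, Fintype.card_prod, Fintype.card_finset, Fintype.card_fun,
      Fintype.card_bool, Fintype.card_fin, ← pow_add, ← pow_add]
    congr 1
    ring
  have hpos : 0 < Fintype.card (Fin (40 * m) → Tr m) := Fintype.card_pos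
  have h5 : 2 ^ (3 * m + 1) ≤ 2 ^ (3 * m) := by
    have h6 : Fintype.card (Fin (40 * m) → Tr m) * 2 ^ (3 * m + 1) ≤
        Fintype.card (Fin (40 * m) → Tr m) * 2 ^ (3 * m) := by
      calc Fintype.card (Fin (40 * m) → Tr m) * 2 ^ (3 * m + 1) ≤
            Q.card * Fintype.card (Fin (40 * m) → Tr m) := h2
        _ ≤ 2 ^ (3 * m) * Fintype.card (Fin (40 * m) → Tr m) := Nat.mul_le_mul_right _ h3
        _ = _ := mul_comm _ _
    exact Nat.le_of_mul_le_mul_left h6 hpos
  have h6 := (Nat.pow_le_pow_iff_right (by norm_num : 1 < 2)).1 h5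
  omega

end Pool.Agent.KMR
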