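import Pool.Agent.KMR.Word
import Pool.Agent.KH.ShiftX

/-! The iterated map computes a sum of products of three linear forms of the sum of the blocks. -/

namespace Pool.Agent.KMR

open Finset Pool.Agent.KE Pool.Agent.KH
open Pool.Agent.KMQ (zb_true zb_false zb_sq zb_inj sum_window ob zb_ob)

/-- a map with triangular matrices becomes stationary -/
theorem iter_fix {n : ℕ} {f : (ℕ → Bool) → ℕ → Bool} {A B : ℕ → ℕ → Bool}
    (hf : ∀ x, ∀ i < n, f x i = decide (mv n A x i * mv n B x i = 1)) {v : ℕ → Bool} (h0 : v 0 = true)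
    (hA : ∀ i j, A i j = true → j < i ∨ (i = 0 ∧ j = 0))
    (hB : ∀ i j, B i j = true → j < i ∨ (i = 0 ∧ j = 0))
    (hv : ∀ i < n, mv n A v i * mv n B v i = zb (v i)) :
    ∀ t e, e ≤ t → e < n → (f^[t] fun i => decide (i = 0)) e = v e := by
  intro t
  induction t with
  | zero =>
    intro e he _
    obtain rfl : e = 0 := by omega
    rw [h0]
    rfl
  | succ t ih =>
    intro e he hen
    rw [Function.iterate_succ_apply']
    obtain ⟨x, hx⟩ : ∃ x, x = f^[t] fun i => decide (i = 0) := ⟨_, rfl⟩
    rw [← hx] at ih ⊢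
    have key : ∀ R : ℕ → ℕ → Bool, (∀ i j, R i j = true → j < i ∨ (i = 0 ∧ j = 0)) →
        mv n R x e = mv n R v e := by
      intro R hR
      unfold mv
      refine Finset.sum_congr rfl fun j hj => ?_
      by_cases hc : R e j = true
      · have h2 : j ≤ t := by
          rcases hR e j hc with h | h <;> omega
        rw [ih j h2 (mem_range.1 hj)]
      · rw [Bool.not_eq_true] at hc
        rw [hc, zb_false, zero_mul, zero_mul]
    rw [hf x e hen, key A hA, key B hB, hv e hen]
    cases v e <;> decide

/-- the value of a linear form with coefficients given by numbers -/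
def lw (m : ℕ) (α : ℕ → Bool) (w : ℕ → Bool) : ZMod 2 := ∑ l ∈ range m, zb (α l) * zb (w l)

/-- the instance without blocks -/
def insI (m K n : ℕ) (α β γ : ℕ → ℕ → Bool) : Ins where
  A i j :=
    if i < m + 1 then decide (j = 0)
    else if i < 2 * m + 1 then false
    else if i < 2 * m + 1 + K then decide (m + 1 ≤ j ∧ j < m + 1 + m) && α (i - (2 * m + 1)) (j - (m + 1))
    else if i < 2 * m + 1 + 2 * K then decide (j = i - K)
    else if i = n - 1 then decide (2 * m + 1 + K ≤ j ∧ j < 2 * m + 1 + K + K) && true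
    else false
  B i j :=
    if i < 2 * m + 1 then decide (j = 0)
    else if i < 2 * m + 1 + K then decide (m + 1 ≤ j ∧ j < m + 1 + m) && β (i - (2 * m + 1)) (j - (m + 1))
    else if i < 2 * m + 1 + 2 * K then
      decide (m + 1 ≤ j ∧ j < m + 1 + m) && γ (i - (2 * m + 1 + K)) (j - (m + 1))
    else if i = n - 1 then decide (j = 0)
    else false
  C _ _ := false
  r _ := false
  s _ := false

/-- the sum of the blocks -/
def wS {m : ℕ} (X : Fin m → Fin m → Bool) (l : ℕ) : Bool :=
  if h : l < m then xs X ⟨l, h⟩ else false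

/-- the products of two linear forms -/
def tS (m : ℕ) (α β : ℕ → ℕ → Bool) (w : ℕ → Bool) (s : ℕ) : Bool := ob (lw m (α s) w * lw m (β s) w)

/-- the products of three linear forms -/
def rS (m : ℕ) (α β γ : ℕ → ℕ → Bool) (w : ℕ → Bool) (s : ℕ) : Bool :=
  ob (zb (tS m α β w s) * lw m (γ s) w)

/-- the limit -/
def VS (m K n : ℕ) (α β γ : ℕ → ℕ → Bool) (w : ℕ → Bool) (i : ℕ) : Bool :=
  if i < m + 1 then true
  else if i < 2 * m + 1 then w (i - (m + 1))
  else if i < 2 * m + 1 + K then tS m α β w (i - (2 * m + 1))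
  else if i < 2 * m + 1 + 2 * K then rS m α β γ w (i - (2 * m + 1 + K))
  else if i = n - 1 then ob (∑ s ∈ range K, zb (rS m α β γ w s))
  else false

section
variable {m K n : ℕ} {α β γ : ℕ → ℕ → Bool} {w : ℕ → Bool}

theorem VS_one {i : ℕ} (h : i < m + 1) : VS m K n α β γ w i = true := by
  unfold VS
  rw [if_pos h]

theorem VS_w {l : ℕ} (h : l < m) : VS m K n α β γ w (m + 1 + l) = w l := by
  unfold VS
  rw [if_neg (by omega), if_pos (by omega), Nat.add_sub_cancel_left]

theorem VS_t {l : ℕ} (h : l < K) : VS m K n α β γ w (2 * m + 1 + l) = tS m α β w l := by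
  unfold VS
  rw [if_neg (by omega), if_neg (by omega), if_pos (by omega), Nat.add_sub_cancel_left]

theorem VS_r {l : ℕ} (h : l < K) : VS m K n α β γ w (2 * m + 1 + K + l) = rS m α β γ w l := by
  unfold VS
  rw [if_neg (by omega), if_neg (by omega), if_neg (by omega), if_pos (by omega),
    Nat.add_sub_cancel_left]

theorem VS_out (h : 2 * m + 2 + 2 * K ≤ n) :
    VS m K n α β γ w (n - 1) = ob (∑ s ∈ range K, zb (rS m α β γ w s)) := by
  unfold VS
  rw [if_neg (by omega), if_neg (by omega), if_neg (by omega), if_neg (by omega), if_pos rfl]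

/-- a window into the sum of the blocks -/
theorem row_w (hn : 2 * m + 2 + 2 * K ≤ n) (F : ℕ → Bool) :
    ∑ j ∈ range n, zb (decide (m + 1 ≤ j ∧ j < m + 1 + m) && F (j - (m + 1))) *
      zb (VS m K n α β γ w j) = lw m F w := by
  rw [row_window _ (by omega)]
  unfold lw
  refine Finset.sum_congr rfl fun l hl => ?_
  rw [VS_w (mem_range.1 hl)]

end

/-- **The limit is a fixed point.** -/
theorem VS_fix {m K n : ℕ} (hn : 2 * m + 2 + 2 * K ≤ n) (α β γ : ℕ → ℕ → Bool)
    (X : Fin m → Fin m → Bool) (i : ℕ) (hi : i < n) :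
    mv n ((insI m K n α β γ).set (m + 1) 1 X).A (VS m K n α β γ (wS X)) i *
      mv n ((insI m K n α β γ).set (m + 1) 1 X).B (VS m K n α β γ (wS X)) i =
        zb (VS m K n α β γ (wS X) i) := by
  have hB : ∀ i j, ((insI m K n α β γ).set (m + 1) 1 X).B i j = (insI m K n α β γ).B i j := fun _ _ => rfl
  by_cases h1 : i < m + 1
  · have e1 : mv n ((insI m K n α β γ).set (m + 1) 1 X).A (VS m K n α β γ (wS X)) i = 1 := by
      unfold mv
      rw [Finset.sum_congr rfl fun j _ => by
        rw [set_out _ _ (by omega), show (insI m K n α β γ).A i j = decide (j = 0) by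
          unfold insI; simp only; rw [if_pos h1]], row_one _ (by omega), VS_one (by omega), zb_true]
    have e2 : mv n ((insI m K n α β γ).set (m + 1) 1 X).B (VS m K n α β γ (wS X)) i = 1 := by
      unfold mv
      rw [Finset.sum_congr rfl fun j _ => by
        rw [hB, show (insI m K n α β γ).B i j = decide (j = 0) by
          unfold insI; simp only; rw [if_pos (by omega)]], row_one _ (by omega), VS_one (by omega), zb_true]
    rw [e1, e2, VS_one h1, zb_true, mul_one]
  by_cases h2 : i < 2 * m + 1
  · obtain ⟨l, rfl⟩ : ∃ l, i = m + 1 + l := ⟨i - (m + 1), by omega⟩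
    have hl : l < m := by omega
    have e1 : mv n ((insI m K n α β γ).set (m + 1) 1 X).A (VS m K n α β γ (wS X)) (m + 1 + l) =
        zb (wS X l) := by
      unfold mv
      have h3 : ∀ j ∈ range n, zb (((insI m K n α β γ).set (m + 1) 1 X).A (m + 1 + l) j) *
          zb (VS m K n α β γ (wS X) j) = zb (decide (1 ≤ j ∧ j < 1 + m) &&
            (if h : j - 1 < m then X ⟨j - 1, h⟩ ⟨l, hl⟩ else false)) * zb (VS m K n α β γ (wS X) j) := by
        intro j _
        congr 2
        by_cases hj : 1 ≤ j ∧ j < 1 + m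
        · obtain ⟨b, rfl⟩ : ∃ b, j = 1 + b := ⟨j - 1, by omega⟩
          have hb : b < m := by omega
          rw [decide_eq_true hj, Bool.true_and, Nat.add_sub_cancel_left, dif_pos hb]
          exact set_in (insI m K n α β γ) X ⟨b, hb⟩ ⟨l, hl⟩
        · rw [decide_eq_false hj, Bool.false_and, set_out _ _ (by omega)]
          unfold insI
          simp only
          rw [if_neg (by omega), if_pos (by omega)]
      rw [Finset.sum_congr rfl h3,
        row_window (VS m K n α β γ (wS X)) (a := 1) (m := m) (by omega)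
          (fun b => if h : b < m then X ⟨b, h⟩ ⟨l, hl⟩ else false)]
      unfold wS
      rw [dif_pos hl]
      unfold xs
      have h4 : ∀ a : ZMod 2, zb (decide (a = 1)) = a := by decide
      rw [h4, Finset.sum_range]
      refine Finset.sum_congr rfl fun b _ => ?_
      rw [dif_pos b.2, VS_one (by omega), zb_true, mul_one]
    have e2 : mv n ((insI m K n α β γ).set (m + 1) 1 X).B (VS m K n α β γ (wS X)) (m + 1 + l) = 1 := by
      unfold mv
      rw [Finset.sum_congr rfl fun j _ => by
        rw [hB, show (insI m K n α β γ).B (m + 1 + l) j = decide (j = 0) by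
          unfold insI; simp only; rw [if_pos (by omega)]], row_one _ (by omega), VS_one (by omega), zb_true]
    rw [e1, e2, mul_one, VS_w hl]
  have hA : ∀ j, ((insI m K n α β γ).set (m + 1) 1 X).A i j = (insI m K n α β γ).A i j := fun j =>
    set_out _ _ (by omega)
  have hA' : mv n ((insI m K n α β γ).set (m + 1) 1 X).A (VS m K n α β γ (wS X)) i =
      mv n (insI m K n α β γ).A (VS m K n α β γ (wS X)) i := by
    unfold mv
    exact Finset.sum_congr rfl fun j _ => by rw [hA]
  have hB' : mv n ((insI m K n α β γ).set (m + 1) 1 X).B (VS m K n α β γ (wS X)) i =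
      mv n (insI m K n α β γ).B (VS m K n α β γ (wS X)) i := rfl
  rw [hA', hB']
  by_cases h3 : i < 2 * m + 1 + K
  · obtain ⟨s, rfl⟩ : ∃ s, i = 2 * m + 1 + s := ⟨i - (2 * m + 1), by omega⟩
    have e1 : mv n (insI m K n α β γ).A (VS m K n α β γ (wS X)) (2 * m + 1 + s) = lw m (α s) (wS X) := by
      unfold mv
      rw [← row_w (m := m) (K := K) (n := n) (α := α) (β := β) (γ := γ) (w := wS X) hn (α s)]
      refine Finset.sum_congr rfl fun j _ => ?_
      unfold insI
      simp only
      rw [if_neg (by omega), if_neg (by omega), if_pos (by omega), Nat.add_sub_cancel_left]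
    have e2 : mv n (insI m K n α β γ).B (VS m K n α β γ (wS X)) (2 * m + 1 + s) = lw m (β s) (wS X) := by
      unfold mv
      rw [← row_w (m := m) (K := K) (n := n) (α := α) (β := β) (γ := γ) (w := wS X) hn (β s)]
      refine Finset.sum_congr rfl fun j _ => ?_
      unfold insI
      simp only
      rw [if_neg (by omega), if_pos (by omega), Nat.add_sub_cancel_left]
    rw [e1, e2, VS_t (by omega)]
    unfold tS
    rw [zb_ob]
  by_cases h4 : i < 2 * m + 1 + 2 * K
  · obtain ⟨s, rfl⟩ : ∃ s, i = 2 * m + 1 + K + s := ⟨i - (2 * m + 1 + K), by omega⟩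
    have e1 : mv n (insI m K n α β γ).A (VS m K n α β γ (wS X)) (2 * m + 1 + K + s) =
        zb (tS m α β (wS X) s) := by
      unfold mv
      have h5 : ∀ j, (insI m K n α β γ).A (2 * m + 1 + K + s) j = decide (j = 2 * m + 1 + s) := by
        intro j
        unfold insI
        simp only
        rw [if_neg (by omega), if_neg (by omega), if_neg (by omega), if_pos (by omega),
          show 2 * m + 1 + K + s - K = 2 * m + 1 + s by omega]
      rw [Finset.sum_congr rfl fun j _ => by rw [h5], row_one _ (by omega), VS_t (by omega)]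
    have e2 : mv n (insI m K n α β γ).B (VS m K n α β γ (wS X)) (2 * m + 1 + K + s) =
        lw m (γ s) (wS X) := by
      unfold mv
      rw [← row_w (m := m) (K := K) (n := n) (α := α) (β := β) (γ := γ) (w := wS X) hn (γ s)]
      refine Finset.sum_congr rfl fun j _ => ?_
      unfold insI
      simp only
      rw [if_neg (by omega), if_neg (by omega), if_pos (by omega), Nat.add_sub_cancel_left]
    rw [e1, e2, VS_r (by omega)]
    unfold rS
    rw [zb_ob]
  by_cases h5 : i = n - 1
  · subst h5
    have e1 : mv n (insI m K n α β γ).A (VS m K n α β γ (wS X)) (n - 1) =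
        ∑ s ∈ range K, zb (rS m α β γ (wS X) s) := by
      unfold mv
      have h6 : ∀ j, (insI m K n α β γ).A (n - 1) j =
          (decide (2 * m + 1 + K ≤ j ∧ j < 2 * m + 1 + K + K) && true) := by
        intro j
        unfold insI
        simp only
        rw [if_neg (by omega), if_neg (by omega), if_neg (by omega), if_neg (by omega), if_pos trivial]
      rw [Finset.sum_congr rfl fun j _ => by rw [h6],
        row_window (VS m K n α β γ (wS X)) (a := 2 * m + 1 + K) (m := K) (by omega) (fun _ => true)]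
      refine Finset.sum_congr rfl fun s hs => ?_
      rw [VS_r (mem_range.1 hs), zb_true, one_mul]
    have e2 : mv n (insI m K n α β γ).B (VS m K n α β γ (wS X)) (n - 1) = 1 := by
      unfold mv
      have h6 : ∀ j, (insI m K n α β γ).B (n - 1) j = decide (j = 0) := by
        intro j
        unfold insI
        simp only
        rw [if_neg (by omega), if_neg (by omega), if_neg (by omega), if_pos trivial]
      rw [Finset.sum_congr rfl fun j _ => by rw [h6], row_one _ (by omega), VS_one (by omega), zb_true]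
    rw [e1, e2, mul_one, VS_out hn, zb_ob]
  · have e1 : mv n (insI m K n α β γ).A (VS m K n α β γ (wS X)) i = 0 := by
      unfold mv
      refine Finset.sum_eq_zero fun j _ => ?_
      have : (insI m K n α β γ).A i j = false := by
        unfold insI
        simp only
        rw [if_neg h1, if_neg h2, if_neg h3, if_neg h4, if_neg h5]
      rw [this, zb_false, zero_mul]
    have e2 : VS m K n α β γ (wS X) i = false := by
      unfold VS
      rw [if_neg h1, if_neg h2, if_neg h3, if_neg h4, if_neg h5]
    rw [e1, e2, zero_mul, zb_false]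

theorem triA {m K n : ℕ} (hn : 2 * m + 2 + 2 * K ≤ n) (α β γ : ℕ → ℕ → Bool)
    (X : Fin m → Fin m → Bool) (i j : ℕ) (h : ((insI m K n α β γ).set (m + 1) 1 X).A i j = true) :
    j < i ∨ (i = 0 ∧ j = 0) := by
  by_cases hin : (1 ≤ j ∧ j - 1 < m) ∧ (m + 1 ≤ i ∧ i - (m + 1) < m)
  · omega
  · rw [set_out _ _ hin] at h
    unfold insI at h
    simp only at h
    split_ifs at h with h1 h2 h3 h4 h5
    · rw [decide_eq_true_eq] at h
      omega
    · rw [Bool.and_eq_true, decide_eq_true_eq] at h
      omega
    · rw [decide_eq_true_eq] at h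
      omega
    · rw [Bool.and_eq_true, decide_eq_true_eq] at h
      omega

theorem triB {m K n : ℕ} (hn : 2 * m + 2 + 2 * K ≤ n) (α β γ : ℕ → ℕ → Bool)
    (X : Fin m → Fin m → Bool) (i j : ℕ) (h : ((insI m K n α β γ).set (m + 1) 1 X).B i j = true) :
    j < i ∨ (i = 0 ∧ j = 0) := by
  have h : (insI m K n α β γ).B i j = true := h
  unfold insI at h
  simp only at h
  split_ifs at h with h1 h2 h3 h4
  · rw [decide_eq_true_eq] at h
    omega
  · rw [Bool.and_eq_true, decide_eq_true_eq] at h
    omega
  · rw [Bool.and_eq_true, decide_eq_true_eq] at h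
    omega
  · rw [decide_eq_true_eq] at h
    omega

/-- linear forms as functions on numbers -/
def ex {m K : ℕ} (α : Fin K → Fin m → Bool) (s l : ℕ) : Bool :=
  if h : s < K ∧ l < m then α ⟨s, h.1⟩ ⟨l, h.2⟩ else false

theorem lw_ex {m K : ℕ} (α : Fin K → Fin m → Bool) (x : Fin m → Bool) (w : ℕ → Bool)
    (hw : ∀ l : Fin m, w l = x l) (s : Fin K) : lw m (ex α s) w = lin (α s) x := by
  unfold lw lin
  rw [Finset.sum_range]
  refine Finset.sum_congr rfl fun l _ => ?_
  unfold ex
  rw [dif_pos ⟨s.2, l.2⟩, hw, zb_and]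

theorem sum_g3 {m K : ℕ} (α β γ : Fin K → Fin m → Bool) (x : Fin m → Bool) (w : ℕ → Bool)
    (hw : ∀ l : Fin m, w l = x l) :
    (∑ s ∈ range K, lw m (ex α s) w * lw m (ex β s) w * lw m (ex γ s) w = 1) ↔ g3 α β γ x = true := by
  unfold g3
  rw [decide_eq_true_iff, Finset.sum_range]
  rw [Finset.sum_congr rfl fun s _ => by rw [lw_ex α x w hw s, lw_ex β x w hw s, lw_ex γ x w hw s]]

/-- **The iterated map with the blocks `X`.** -/
theorem it_iff {t : ℕ → ℕ} (ht : ∀ n, n ≤ t n) {N m K : ℕ} (hn : 2 * m + 2 + 2 * K ≤ dim N)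
    (α β γ : Fin K → Fin m → Bool) (X : Fin m → Fin m → Bool) :
    It t (List.ofFn (wd (pos N m (m + 1) 1 (by omega) (by omega))
      (word N (insI m K (dim N) (ex α) (ex β) (ex γ))) X)) ↔ g3 α β γ (xs X) = true := by
  rw [wd_word]
  unfold It
  rw [List.length_ofFn, iter_fix (n := dim N) (fun x i hi => step_word _ x hi) (VS_one (by omega))
    (triA hn _ _ _ X) (triB hn _ _ _ X) (VS_fix hn _ _ _ X) (t (dim N)) (dim N - 1)
    (by have := ht (dim N); omega) (by omega), VS_out hn,
    ← sum_g3 α β γ (xs X) (wS X) (fun l => by unfold wS; rw [dif_pos l.2])]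
  unfold ob
  rw [decide_eq_true_iff]
  have h1 : ∑ s ∈ range K, zb (rS m (ex α) (ex β) (ex γ) (wS X) s) =
      ∑ s ∈ range K, lw m (ex α s) (wS X) * lw m (ex β s) (wS X) * lw m (ex γ s) (wS X) := by
    refine Finset.sum_congr rfl fun s _ => ?_
    unfold rS
    rw [zb_ob]
    unfold tS
    rw [zb_ob]
  rw [h1]

end Pool.Agent.KMR
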