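import Pool.Agent.KMR.FinM
import Pool.Agent.KMR.Bal3
import Pool.Agent.KMR.DecE

/-! All matrix problems at once. -/

namespace Pool.Agent.KMR

open Finset Pool.Agent.KNL Pool.Agent.KD Pool.Agent.KE Pool.Agent.KH
open Pool.Agent.KMQ (Halt Answers)

/-- the block structure of decoding -/
theorem dec_blocks (N : ℕ) (hN : 1 ≤ bm N) :
    ∃ pos : Fin (bm N) → Fin (bm N) → Fin N,
      (∀ b b' l l', pos b l = pos b' l' → b = b' ∧ l = l') ∧
      ∀ α β γ : Fin (40 * bm N) → Fin (bm N) → Bool, ∃ z0 : Fin N → Bool, ∀ X,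
        ¬ Dec (List.ofFn (wd pos z0 X)) ↔ ∀ b, g3 α β γ (X b) = false := by
  have h := bm_le N
  refine ⟨pos N (bm N) (bm N + 1 + 40 * bm N) 0 (by omega) (by omega), fun b b' l l' => pos_inj _ _,
    fun α β γ => ⟨_, fun X => decE_iff hN (by omega) (by omega) α β γ X⟩⟩

theorem existsG3 : ExistsG3 := fun _ _ he h8 h4 => exists_g3 he h8 h4

/-- **One pair of constants for all problems.** -/
theorem hard_all : ∃ c x0 : ℝ, 0 < c ∧ 1 ≤ x0 ∧ ∀ L : List Bool → Prop,
    (L = Dec ∨ L = RCS ∨ ∃ t : ℕ → ℕ, (∀ n, n ≤ t n) ∧ L = It t) → Hard c x0 L := by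
  obtain ⟨c, x, hc, hx, h⟩ := hard_compl existsG3
  obtain ⟨c', x', hc', hx', h'⟩ := hard_sum existsG3
  refine ⟨min c c', max (max x x') (Real.exp (Real.exp 1)), lt_min hc hc',
    le_max_of_le_left (le_max_of_le_left hx), ?_⟩
  rintro L (rfl | rfl | ⟨t, ht, rfl⟩)
  · exact (h _ dec_blocks).mono (min_le_left _ _) (le_max_of_le_left (le_max_left _ _)) (le_max_right _ _)
  · exact (h _ rcs_blocks).mono (min_le_left _ _) (le_max_of_le_left (le_max_left _ _))
      (le_max_right _ _)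
  · exact (h' _ (it_blocks ht)).mono (min_le_right _ _) (le_max_of_le_left (le_max_right _ _))
      (le_max_right _ _)

end Pool.Agent.KMR
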