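import Pool.Agent.KE.ExpAlg

/-! Three problems on matrices over the field with two elements. -/

namespace Pool.Agent.KMR

open Finset Pool.Agent.KE

/-- the largest `n` with `3 * n ^ 2 + 2 * n ≤ N` -/
def dim (N : ℕ) : ℕ := Nat.findGreatest (fun n => 3 * n ^ 2 + 2 * n ≤ N) N

/-- coordinate `i` of the product of the matrix with the entries `A (i * n + j)` and the vector `x` -/
def mul (n : ℕ) (A x : ℕ → Bool) (i : ℕ) : ZMod 2 :=
  ∑ j ∈ range n, zb (A (i * n + j)) * zb (x j)

/-- the letter `p` of the word `y` -/
def lt (y : List Bool) (p : ℕ) : Bool := y.getD p false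

/-- The first matrix of a word of length `N`. A word of length `N` consists, with `n = dim N`, of three
matrices `A`, `B`, `C` with `n` rows and columns (letters `i * n + j`, `n ^ 2 + i * n + j` and
`2 * n ^ 2 + i * n + j`), two vectors `r` and `s` (letters `3 * n ^ 2 + i` and `3 * n ^ 2 + n + i`) and
unused letters. -/
def mA (y : List Bool) (p : ℕ) : Bool := lt y p

/-- the second matrix -/
def mB (y : List Bool) (p : ℕ) : Bool := lt y (dim y.length ^ 2 + p)

/-- the third matrix -/
def mC (y : List Bool) (p : ℕ) : Bool := lt y (2 * dim y.length ^ 2 + p)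

/-- the first vector -/
def vR (y : List Bool) (i : ℕ) : Bool := lt y (3 * dim y.length ^ 2 + i)

/-- the second vector -/
def vS (y : List Bool) (i : ℕ) : Bool := lt y (3 * dim y.length ^ 2 + dim y.length + i)

/-- **Maximum likelihood decoding.** There is a vector `x` with `A x = r` whose number of ones is at most
the number of ones of `s`. -/
def Dec (y : List Bool) : Prop :=
  ∃ x : ℕ → Bool, (∀ i < dim y.length, mul (dim y.length) (mA y) x i = zb (vR y i)) ∧
    ((range (dim y.length)).filter fun j => x j = true).card ≤
      ((range (dim y.length)).filter fun j => vS y j = true).card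

/-- **Rank one constraint systems.** There is a vector `x` with first coordinate one and
`(A x) i * (B x) i = (C x) i` for all `i`. -/
def RCS (y : List Bool) : Prop :=
  ∃ x : ℕ → Bool, x 0 = true ∧ ∀ i < dim y.length,
    mul (dim y.length) (mA y) x i * mul (dim y.length) (mB y) x i = mul (dim y.length) (mC y) x i

/-- one step of the map that sends `x` to the vector with the coordinates `(A x) i * (B x) i` -/
def step (y : List Bool) (x : ℕ → Bool) (i : ℕ) : Bool :=
  decide (mul (dim y.length) (mA y) x i * mul (dim y.length) (mB y) x i = 1)

/-- **Iteration.** The last coordinate is one after the map has been applied `t n` times to the first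
unit vector. -/
def It (t : ℕ → ℕ) (y : List Bool) : Prop :=
  ((step y)^[t (dim y.length)] fun i => decide (i = 0)) (dim y.length - 1) = true

/-- the value of a linear form -/
def lin {m : ℕ} (α x : Fin m → Bool) : ZMod 2 := ∑ l, zb (α l && x l)

/-- the value of a sum of products of three linear forms -/
def g3 {m K : ℕ} (α β γ : Fin K → Fin m → Bool) (x : Fin m → Bool) : Bool :=
  decide (∑ s, lin (α s) x * lin (β s) x * lin (γ s) x = 1)

end Pool.Agent.KMR
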