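import Pool.Agent.KMR.ItE

/-! A rank one constraint system that is solvable if and only if a sum of products of three linear forms
does not vanish at one of the blocks. -/

namespace Pool.Agent.KMR

open Finset Pool.Agent.KE Pool.Agent.KH
open Pool.Agent.KMQ (zb_true zb_false zb_sq zb_inj sum_window ob zb_ob onehot)

/-- the system without blocks -/
def insR (m K : ℕ) (α β γ : ℕ → ℕ → Bool) : Ins where
  A i j :=
    if i = 0 then decide (3 * m + 1 + K ≤ j ∧ j < 3 * m + 1 + K + K) && true
    else if i = 1 then decide (j = 1)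
    else if i < m + 1 then decide (j = i) || decide (j = m + i - 1)
    else if i = m + 1 then decide (j = 2 * m)
    else if i < 2 * m + 1 then decide (j = i - m)
    else if i < 3 * m + 1 then false
    else if i < 3 * m + 1 + K then
      decide (2 * m + 1 ≤ j ∧ j < 2 * m + 1 + m) && α (i - (3 * m + 1)) (j - (2 * m + 1))
    else if i < 3 * m + 1 + 2 * K then decide (j = i - K)
    else false
  B i j :=
    if i < m + 2 then decide (j = 0)
    else if i < 2 * m + 1 then decide (j = i - 1)
    else if i < 3 * m + 1 then decide (j = 0)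
    else if i < 3 * m + 1 + K then
      decide (2 * m + 1 ≤ j ∧ j < 2 * m + 1 + m) && β (i - (3 * m + 1)) (j - (2 * m + 1))
    else if i < 3 * m + 1 + 2 * K then
      decide (2 * m + 1 ≤ j ∧ j < 2 * m + 1 + m) && γ (i - (3 * m + 1 + K)) (j - (2 * m + 1))
    else false
  C i j :=
    if i = 0 then decide (j = 0)
    else if i < m + 1 then decide (j = m + i)
    else if i = m + 1 then decide (j = 0)
    else if i < 2 * m + 1 then false
    else if i < 3 * m + 1 + 2 * K then decide (j = i)
    else false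
  r _ := false
  s _ := false

theorem row_two {n : ℕ} (x : ℕ → Bool) {a b : ℕ} (ha : a < n) (hb : b < n) (hab : a ≠ b) :
    ∑ j ∈ range n, zb (decide (j = a) || decide (j = b)) * zb (x j) = zb (x a) + zb (x b) := by
  rw [← row_one x ha, ← row_one x hb, ← Finset.sum_add_distrib]
  refine Finset.sum_congr rfl fun j _ => ?_
  by_cases h1 : j = a
  · have h2 : j ≠ b := fun h => hab (h1.symm.trans h)
    simp [h1, hab, zb_true, zb_false]
  · by_cases h2 : j = b
    · simp [h2, Ne.symm hab, zb_true, zb_false]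
    · simp [h1, h2, zb_false]

section
variable {m K n : ℕ} (α β γ : ℕ → ℕ → Bool) (X : Fin m → Fin m → Bool) (x : ℕ → Bool)

theorem mv_one {R : ℕ → ℕ → Bool} {i a : ℕ} (h : ∀ j, R i j = decide (j = a)) (ha : a < n) :
    mv n R x i = zb (x a) := by
  unfold mv
  rw [Finset.sum_congr rfl fun j _ => by rw [h], row_one _ ha]

theorem mv_win {R : ℕ → ℕ → Bool} {i a k : ℕ} {F : ℕ → Bool}
    (h : ∀ j, R i j = (decide (a ≤ j ∧ j < a + k) && F (j - a))) (ha : a + k ≤ n) :
    mv n R x i = ∑ l ∈ range k, zb (F l) * zb (x (a + l)) := by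
  unfold mv
  rw [Finset.sum_congr rfl fun j _ => by rw [h], row_window _ ha]

theorem mv_zero {R : ℕ → ℕ → Bool} {i : ℕ} (h : ∀ j, R i j = false) : mv n R x i = 0 := by
  unfold mv
  exact Finset.sum_eq_zero fun j _ => by rw [h, zb_false, zero_mul]

/-- outside the rows of the blocks -/
theorem mv_set {I : Ins} {a c i : ℕ} (h : ¬ (a ≤ i ∧ i - a < m)) :
    mv n (I.set a c X).A x i = mv n I.A x i := by
  unfold mv
  refine Finset.sum_congr rfl fun j _ => ?_
  rw [set_out _ _ (fun hc => h hc.2)]

/-- in the rows of the blocks -/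
theorem mv_block {I : Ins} {a c l : ℕ} (hl : l < m) (hc : c + m ≤ n)
    (h0 : ∀ j, I.A (a + l) j = false) :
    mv n (I.set a c X).A x (a + l) = ∑ b : Fin m, zb (X b ⟨l, hl⟩) * zb (x (c + b)) := by
  have h3 : ∀ j, (I.set a c X).A (a + l) j = (decide (c ≤ j ∧ j < c + m) &&
      (fun b => if h : b < m then X ⟨b, h⟩ ⟨l, hl⟩ else false) (j - c)) := by
    intro j
    by_cases hj : c ≤ j ∧ j < c + m
    · obtain ⟨b, rfl⟩ : ∃ b, j = c + b := ⟨j - c, by omega⟩
      have hb : b < m := by omega
      rw [decide_eq_true hj, Bool.true_and, Nat.add_sub_cancel_left]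
      simp only
      rw [dif_pos hb]
      exact set_in I X ⟨b, hb⟩ ⟨l, hl⟩
    · rw [decide_eq_false hj, Bool.false_and, set_out _ _ (by omega)]
      exact h0 j
  rw [mv_win x (F := fun b => if h : b < m then X ⟨b, h⟩ ⟨l, hl⟩ else false) h3 hc, Finset.sum_range]
  refine Finset.sum_congr rfl fun b _ => ?_
  rw [dif_pos b.2]

theorem R0 (hm : 1 ≤ m) (hn : 3 * m + 1 + 2 * K ≤ n) :
    mv n ((insR m K α β γ).set (2 * m + 1) 1 X).A x 0 = ∑ s ∈ range K, zb (x (3 * m + 1 + K + s)) ∧
      mv n (insR m K α β γ).B x 0 = zb (x 0) ∧ mv n (insR m K α β γ).C x 0 = zb (x 0) := by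
  refine ⟨?_, ?_, ?_⟩
  · rw [mv_set X x (by omega), mv_win x (a := 3 * m + 1 + K) (k := K) (F := fun _ => true) (fun j => by
      unfold insR; simp only; rw [if_pos trivial]) (by omega)]
    refine Finset.sum_congr rfl fun s _ => ?_
    rw [zb_true, one_mul]
  · exact mv_one x (fun j => by unfold insR; simp only; rw [if_pos (by omega)]) (by omega)
  · exact mv_one x (fun j => by unfold insR; simp only; rw [if_pos trivial]) (by omega)

theorem R1 (hm : 1 ≤ m) (hn : 3 * m + 1 + 2 * K ≤ n) :
    mv n ((insR m K α β γ).set (2 * m + 1) 1 X).A x 1 = zb (x (1 + 0)) ∧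
      mv n (insR m K α β γ).B x 1 = zb (x 0) ∧ mv n (insR m K α β γ).C x 1 = zb (x (m + 1 + 0)) := by
  refine ⟨?_, ?_, ?_⟩
  · rw [mv_set X x (by omega)]
    exact mv_one x (fun j => by unfold insR; simp only; rw [if_neg (by omega), if_pos trivial]) (by omega)
  · exact mv_one x (fun j => by unfold insR; simp only; rw [if_pos (by omega)]) (by omega)
  · exact mv_one x (fun j => by
      unfold insR; simp only; rw [if_neg (by omega), if_pos (by omega)]) (by omega)

theorem R2 (hn : 3 * m + 1 + 2 * K ≤ n) {b : ℕ} (hb : b + 1 < m) :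
    mv n ((insR m K α β γ).set (2 * m + 1) 1 X).A x (1 + (b + 1)) =
        zb (x (1 + (b + 1))) + zb (x (m + 1 + b)) ∧
      mv n (insR m K α β γ).B x (1 + (b + 1)) = zb (x 0) ∧
      mv n (insR m K α β γ).C x (1 + (b + 1)) = zb (x (m + 1 + (b + 1))) := by
  refine ⟨?_, ?_, ?_⟩
  · rw [mv_set X x (by omega)]
    unfold mv
    have h : ∀ j, (insR m K α β γ).A (1 + (b + 1)) j =
        (decide (j = 1 + (b + 1)) || decide (j = m + 1 + b)) := by
      intro j
      unfold insR
      simp only
      rw [if_neg (by omega), if_neg (by omega), if_pos (by omega),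
        show m + (1 + (b + 1)) - 1 = m + 1 + b by omega]
    rw [Finset.sum_congr rfl fun j _ => by rw [h], row_two x (by omega) (by omega) (by omega)]
  · exact mv_one x (fun j => by unfold insR; simp only; rw [if_pos (by omega)]) (by omega)
  · exact mv_one x (fun j => by
      unfold insR; simp only
      rw [if_neg (by omega), if_pos (by omega), show m + (1 + (b + 1)) = m + 1 + (b + 1) by omega])
      (by omega)

theorem R3 (hm : 1 ≤ m) (hn : 3 * m + 1 + 2 * K ≤ n) :
    mv n ((insR m K α β γ).set (2 * m + 1) 1 X).A x (m + 1) = zb (x (m + 1 + (m - 1))) ∧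
      mv n (insR m K α β γ).B x (m + 1) = zb (x 0) ∧ mv n (insR m K α β γ).C x (m + 1) = zb (x 0) := by
  refine ⟨?_, ?_, ?_⟩
  · rw [mv_set X x (by omega)]
    exact mv_one x (fun j => by
      unfold insR; simp only
      rw [if_neg (by omega), if_neg (by omega), if_neg (by omega), if_pos trivial,
        show m + 1 + (m - 1) = 2 * m by omega]) (by omega)
  · exact mv_one x (fun j => by unfold insR; simp only; rw [if_pos (by omega)]) (by omega)
  · exact mv_one x (fun j => by
      unfold insR; simp only; rw [if_neg (by omega), if_neg (by omega), if_pos trivial]) (by omega)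

theorem R4 (hn : 3 * m + 1 + 2 * K ≤ n) {b : ℕ} (hb : b + 1 < m) :
    mv n ((insR m K α β γ).set (2 * m + 1) 1 X).A x (m + 1 + (b + 1)) = zb (x (1 + (b + 1))) ∧
      mv n (insR m K α β γ).B x (m + 1 + (b + 1)) = zb (x (m + 1 + b)) ∧
      mv n (insR m K α β γ).C x (m + 1 + (b + 1)) = 0 := by
  refine ⟨?_, ?_, ?_⟩
  · rw [mv_set X x (by omega)]
    exact mv_one x (fun j => by
      unfold insR; simp only
      rw [if_neg (by omega), if_neg (by omega), if_neg (by omega), if_neg (by omega), if_pos (by omega),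
        show m + 1 + (b + 1) - m = 1 + (b + 1) by omega]) (by omega)
  · exact mv_one x (fun j => by
      unfold insR; simp only
      rw [if_neg (by omega), if_pos (by omega), show m + 1 + (b + 1) - 1 = m + 1 + b by omega]) (by omega)
  · exact mv_zero x fun j => by
      unfold insR; simp only
      rw [if_neg (by omega), if_neg (by omega), if_neg (by omega), if_pos (by omega)]

theorem R5 (hn : 3 * m + 1 + 2 * K ≤ n) {l : ℕ} (hl : l < m) :
    mv n ((insR m K α β γ).set (2 * m + 1) 1 X).A x (2 * m + 1 + l) =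
        ∑ b : Fin m, zb (X b ⟨l, hl⟩) * zb (x (1 + b)) ∧
      mv n (insR m K α β γ).B x (2 * m + 1 + l) = zb (x 0) ∧
      mv n (insR m K α β γ).C x (2 * m + 1 + l) = zb (x (2 * m + 1 + l)) := by
  refine ⟨?_, ?_, ?_⟩
  · refine mv_block X x hl (by omega) fun j => ?_
    unfold insR
    simp only
    rw [if_neg (by omega), if_neg (by omega), if_neg (by omega), if_neg (by omega), if_neg (by omega),
      if_pos (by omega)]
  · exact mv_one x (fun j => by
      unfold insR; simp only; rw [if_neg (by omega), if_neg (by omega), if_pos (by omega)]) (by omega)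
  · exact mv_one x (fun j => by
      unfold insR; simp only
      rw [if_neg (by omega), if_neg (by omega), if_neg (by omega), if_neg (by omega), if_pos (by omega)])
      (by omega)

theorem R6 (hm : 1 ≤ m) (hn : 3 * m + 1 + 2 * K ≤ n) {s : ℕ} (hs : s < K) :
    mv n ((insR m K α β γ).set (2 * m + 1) 1 X).A x (3 * m + 1 + s) =
        lw m (α s) (fun l => x (2 * m + 1 + l)) ∧
      mv n (insR m K α β γ).B x (3 * m + 1 + s) = lw m (β s) (fun l => x (2 * m + 1 + l)) ∧
      mv n (insR m K α β γ).C x (3 * m + 1 + s) = zb (x (3 * m + 1 + s)) := by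
  refine ⟨?_, ?_, ?_⟩
  · rw [mv_set X x (by omega)]
    exact mv_win x (fun j => by
      unfold insR; simp only
      rw [if_neg (by omega), if_neg (by omega), if_neg (by omega), if_neg (by omega), if_neg (by omega),
        if_neg (by omega), if_pos (by omega), Nat.add_sub_cancel_left]) (by omega)
  · exact mv_win x (fun j => by
      unfold insR; simp only
      rw [if_neg (by omega), if_neg (by omega), if_neg (by omega), if_pos (by omega),
        Nat.add_sub_cancel_left]) (by omega)
  · exact mv_one x (fun j => by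
      unfold insR; simp only
      rw [if_neg (by omega), if_neg (by omega), if_neg (by omega), if_neg (by omega), if_pos (by omega)])
      (by omega)

theorem R7 (hm : 1 ≤ m) (hn : 3 * m + 1 + 2 * K ≤ n) {s : ℕ} (hs : s < K) :
    mv n ((insR m K α β γ).set (2 * m + 1) 1 X).A x (3 * m + 1 + K + s) = zb (x (3 * m + 1 + s)) ∧
      mv n (insR m K α β γ).B x (3 * m + 1 + K + s) = lw m (γ s) (fun l => x (2 * m + 1 + l)) ∧
      mv n (insR m K α β γ).C x (3 * m + 1 + K + s) = zb (x (3 * m + 1 + K + s)) := by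
  refine ⟨?_, ?_, ?_⟩
  · rw [mv_set X x (by omega)]
    exact mv_one x (fun j => by
      unfold insR; simp only
      rw [if_neg (by omega), if_neg (by omega), if_neg (by omega), if_neg (by omega), if_neg (by omega),
        if_neg (by omega), if_neg (by omega), if_pos (by omega),
        show 3 * m + 1 + K + s - K = 3 * m + 1 + s by omega]) (by omega)
  · exact mv_win x (fun j => by
      unfold insR; simp only
      rw [if_neg (by omega), if_neg (by omega), if_neg (by omega), if_neg (by omega), if_pos (by omega),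
        Nat.add_sub_cancel_left]) (by omega)
  · exact mv_one x (fun j => by
      unfold insR; simp only
      rw [if_neg (by omega), if_neg (by omega), if_neg (by omega), if_neg (by omega), if_pos (by omega)])
      (by omega)

theorem R8 (hm : 1 ≤ m) {i : ℕ} (h : 3 * m + 1 + 2 * K ≤ i) :
    mv n ((insR m K α β γ).set (2 * m + 1) 1 X).A x i = 0 ∧ mv n (insR m K α β γ).C x i = 0 := by
  refine ⟨?_, ?_⟩
  · rw [mv_set X x (by omega)]
    exact mv_zero x fun j => by
      unfold insR; simp only
      rw [if_neg (by omega), if_neg (by omega), if_neg (by omega), if_neg (by omega), if_neg (by omega),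
        if_neg (by omega), if_neg (by omega), if_neg (by omega)]
  · exact mv_zero x fun j => by
      unfold insR; simp only
      rw [if_neg (by omega), if_neg (by omega), if_neg (by omega), if_neg (by omega), if_neg (by omega)]

/-- the system in terms of its parts -/
structure Sol (m K : ℕ) (α β γ : ℕ → ℕ → Bool) (X : Fin m → Fin m → Bool) (x : ℕ → Bool) : Prop where
  e0 : (∑ s ∈ range K, zb (x (3 * m + 1 + K + s))) * zb (x 0) = zb (x 0)
  e1 : zb (x (1 + 0)) * zb (x 0) = zb (x (m + 1 + 0))
  e2 : ∀ b, b + 1 < m → (zb (x (1 + (b + 1))) + zb (x (m + 1 + b))) * zb (x 0) =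
    zb (x (m + 1 + (b + 1)))
  e3 : zb (x (m + 1 + (m - 1))) * zb (x 0) = zb (x 0)
  e4 : ∀ b, b + 1 < m → zb (x (1 + (b + 1))) * zb (x (m + 1 + b)) = 0
  e5 : ∀ l (hl : l < m), (∑ b : Fin m, zb (X b ⟨l, hl⟩) * zb (x (1 + b))) * zb (x 0) =
    zb (x (2 * m + 1 + l))
  e6 : ∀ s < K, lw m (α s) (fun l => x (2 * m + 1 + l)) * lw m (β s) (fun l => x (2 * m + 1 + l)) =
    zb (x (3 * m + 1 + s))
  e7 : ∀ s < K, zb (x (3 * m + 1 + s)) * lw m (γ s) (fun l => x (2 * m + 1 + l)) =
    zb (x (3 * m + 1 + K + s))

theorem sol_iff (hm : 1 ≤ m) (hn : 3 * m + 1 + 2 * K ≤ n) :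
    (∀ i < n, mv n ((insR m K α β γ).set (2 * m + 1) 1 X).A x i *
      mv n (insR m K α β γ).B x i = mv n (insR m K α β γ).C x i) ↔ Sol m K α β γ X x := by
  constructor
  · intro h
    refine ⟨?_, ?_, ?_, ?_, ?_, ?_, ?_, ?_⟩
    · obtain ⟨h1, h2, h3⟩ := R0 α β γ X x hm hn
      have := h 0 (by omega)
      rwa [h1, h2, h3] at this
    · obtain ⟨h1, h2, h3⟩ := R1 α β γ X x hm hn
      have := h 1 (by omega)
      rwa [h1, h2, h3] at this
    · intro b hb
      obtain ⟨h1, h2, h3⟩ := R2 α β γ X x hn hb
      have := h (1 + (b + 1)) (by omega)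
      rwa [h1, h2, h3] at this
    · obtain ⟨h1, h2, h3⟩ := R3 α β γ X x hm hn
      have := h (m + 1) (by omega)
      rwa [h1, h2, h3] at this
    · intro b hb
      obtain ⟨h1, h2, h3⟩ := R4 α β γ X x hn hb
      have := h (m + 1 + (b + 1)) (by omega)
      rwa [h1, h2, h3] at this
    · intro l hl
      obtain ⟨h1, h2, h3⟩ := R5 α β γ X x hn hl
      have := h (2 * m + 1 + l) (by omega)
      rwa [h1, h2, h3] at this
    · intro s hs
      obtain ⟨h1, h2, h3⟩ := R6 α β γ X x hm hn hs
      have := h (3 * m + 1 + s) (by omega)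
      rwa [h1, h2, h3] at this
    · intro s hs
      obtain ⟨h1, h2, h3⟩ := R7 α β γ X x hm hn hs
      have := h (3 * m + 1 + K + s) (by omega)
      rwa [h1, h2, h3] at this
  · intro h i hi
    by_cases c0 : i = 0
    · subst c0
      obtain ⟨h1, h2, h3⟩ := R0 α β γ X x hm hn
      rw [h1, h2, h3]
      exact h.e0
    by_cases c1 : i = 1
    · subst c1
      obtain ⟨h1, h2, h3⟩ := R1 α β γ X x hm hn
      rw [h1, h2, h3]
      exact h.e1
    by_cases c2 : i < m + 1
    · obtain ⟨b, rfl⟩ : ∃ b, i = 1 + (b + 1) := ⟨i - 2, by omega⟩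
      obtain ⟨h1, h2, h3⟩ := R2 α β γ X x hn (b := b) (by omega)
      rw [h1, h2, h3]
      exact h.e2 b (by omega)
    by_cases c3 : i = m + 1
    · subst c3
      obtain ⟨h1, h2, h3⟩ := R3 α β γ X x hm hn
      rw [h1, h2, h3]
      exact h.e3
    by_cases c4 : i < 2 * m + 1
    · obtain ⟨b, rfl⟩ : ∃ b, i = m + 1 + (b + 1) := ⟨i - (m + 2), by omega⟩
      obtain ⟨h1, h2, h3⟩ := R4 α β γ X x hn (b := b) (by omega)
      rw [h1, h2, h3]
      exact h.e4 b (by omega)
    by_cases c5 : i < 3 * m + 1
    · obtain ⟨l, rfl⟩ : ∃ l, i = 2 * m + 1 + l := ⟨i - (2 * m + 1), by omega⟩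
      obtain ⟨h1, h2, h3⟩ := R5 α β γ X x hn (l := l) (by omega)
      rw [h1, h2, h3]
      exact h.e5 l (by omega)
    by_cases c6 : i < 3 * m + 1 + K
    · obtain ⟨s, rfl⟩ : ∃ s, i = 3 * m + 1 + s := ⟨i - (3 * m + 1), by omega⟩
      obtain ⟨h1, h2, h3⟩ := R6 α β γ X x hm hn (s := s) (by omega)
      rw [h1, h2, h3]
      exact h.e6 s (by omega)
    by_cases c7 : i < 3 * m + 1 + 2 * K
    · obtain ⟨s, rfl⟩ : ∃ s, i = 3 * m + 1 + K + s := ⟨i - (3 * m + 1 + K), by omega⟩
      obtain ⟨h1, h2, h3⟩ := R7 α β γ X x hm hn (s := s) (by omega)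
      rw [h1, h2, h3]
      exact h.e7 s (by omega)
    · obtain ⟨h1, h3⟩ := R8 (m := m) (K := K) (n := n) α β γ X x hm (i := i) (by omega)
      rw [h1, h3, zero_mul]

end

/-- the solution that selects the block `b0` -/
def solR (m K : ℕ) (α β γ : ℕ → ℕ → Bool) (b0 : ℕ) (w : ℕ → Bool) (j : ℕ) : Bool :=
  if j = 0 then true
  else if j < m + 1 then decide (j = 1 + b0)
  else if j < 2 * m + 1 then decide (m + 1 + b0 ≤ j)
  else if j < 3 * m + 1 then w (j - (2 * m + 1))
  else if j < 3 * m + 1 + K then tS m α β w (j - (3 * m + 1))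
  else rS m α β γ w (j - (3 * m + 1 + K))

theorem lw_congr {m : ℕ} {F w w' : ℕ → Bool} (h : ∀ l < m, w l = w' l) : lw m F w = lw m F w' := by
  unfold lw
  exact Finset.sum_congr rfl fun l hl => by rw [h l (mem_range.1 hl)]

/-- **The system with the blocks `X`.** -/
theorem sys_iff {m K n : ℕ} (hm : 1 ≤ m) (hn : 3 * m + 1 + 2 * K ≤ n) (α β γ : Fin K → Fin m → Bool)
    (X : Fin m → Fin m → Bool) :
    (∃ x : ℕ → Bool, x 0 = true ∧ ∀ i < n,
      mv n ((insR m K (ex α) (ex β) (ex γ)).set (2 * m + 1) 1 X).A x i *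
        mv n (insR m K (ex α) (ex β) (ex γ)).B x i = mv n (insR m K (ex α) (ex β) (ex γ)).C x i) ↔
      ∃ b, g3 α β γ (X b) = true := by
  constructor
  · rintro ⟨x, hx0, hx⟩
    have h := (sol_iff (ex α) (ex β) (ex γ) X x hm hn).1 hx
    have h0 := h.e0
    have h1 := h.e1
    have h3 := h.e3
    rw [hx0, zb_true, mul_one] at h0 h1 h3
    obtain ⟨i0, hi0, hu⟩ := onehot hm (fun b => x (1 + b)) (fun b => x (m + 1 + b))
      (by
        rw [show x (m + 1 + 0) = x (1 + 0) from zb_inj.1 h1.symm]
        generalize x (1 + 0) = a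
        cases a <;> decide)
      (fun i hi => by
        have := h.e2 i hi
        rw [hx0, zb_true, mul_one] at this
        rw [← this]
        generalize x (1 + (i + 1)) = a
        generalize x (m + 1 + i) = b
        cases a <;> cases b <;> decide)
      (fun i hi => h.e4 i hi) h3
    refine ⟨⟨i0, hi0⟩, ?_⟩
    have hw : ∀ l : Fin m, x (2 * m + 1 + l) = X ⟨i0, hi0⟩ l := by
      intro l
      have := h.e5 l l.2
      rw [hx0, zb_true, mul_one, Finset.sum_eq_single (⟨i0, hi0⟩ : Fin m)] at this
      · have h5 : x (1 + i0) = true := by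
          have := hu i0 hi0
          rw [this]
          simp
        rw [h5, zb_true, mul_one] at this
        exact (zb_inj.1 this).symm
      · intro b _ hb
        have h5 : x (1 + b) = false := by
          have := hu b b.2
          rw [this, decide_eq_false (fun hc => hb (Fin.ext hc))]
        rw [h5, zb_false, mul_zero]
      · intro hc
        exact absurd (Finset.mem_univ _) hc
    rw [← sum_g3 α β γ (X ⟨i0, hi0⟩) (fun l => x (2 * m + 1 + l)) hw, ← h0]
    refine Finset.sum_congr rfl fun s hs => ?_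
    rw [← h.e7 s (mem_range.1 hs), ← h.e6 s (mem_range.1 hs)]
  · rintro ⟨b, hb⟩
    obtain ⟨w, hw⟩ : ∃ w : ℕ → Bool, w = fun l => if h : l < m then X b ⟨l, h⟩ else false := ⟨_, rfl⟩
    have hwX : ∀ l : Fin m, w l = X b l := fun l => by rw [hw]; simp only; rw [dif_pos l.2]
    obtain ⟨x, hx⟩ : ∃ x, x = solR m K (ex α) (ex β) (ex γ) b w := ⟨_, rfl⟩
    have x0 : x 0 = true := by rw [hx]; unfold solR; rw [if_pos rfl]
    have xu : ∀ j < m, x (1 + j) = decide (j = (b : ℕ)) := by
      intro j hj
      rw [hx]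
      unfold solR
      rw [if_neg (by omega), if_pos (by omega)]
      congr 1
      rw [eq_iff_iff]
      omega
    have xp : ∀ j < m, x (m + 1 + j) = decide ((b : ℕ) ≤ j) := by
      intro j hj
      rw [hx]
      unfold solR
      rw [if_neg (by omega), if_neg (by omega), if_pos (by omega)]
      congr 1
      rw [eq_iff_iff]
      omega
    have xw : ∀ l < m, x (2 * m + 1 + l) = w l := by
      intro l hl
      rw [hx]
      unfold solR
      rw [if_neg (by omega), if_neg (by omega), if_neg (by omega), if_pos (by omega),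
        Nat.add_sub_cancel_left]
    have xt : ∀ s < K, x (3 * m + 1 + s) = tS m (ex α) (ex β) w s := by
      intro s hs
      rw [hx]
      unfold solR
      rw [if_neg (by omega), if_neg (by omega), if_neg (by omega), if_neg (by omega), if_pos (by omega),
        Nat.add_sub_cancel_left]
    have xr : ∀ s, x (3 * m + 1 + K + s) = rS m (ex α) (ex β) (ex γ) w s := by
      intro s
      rw [hx]
      unfold solR
      rw [if_neg (by omega), if_neg (by omega), if_neg (by omega), if_neg (by omega), if_neg (by omega),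
        Nat.add_sub_cancel_left]
    have hlw : ∀ F : ℕ → Bool, lw m F (fun l => x (2 * m + 1 + l)) = lw m F w :=
      fun F => lw_congr fun l hl => xw l hl
    have hb2 := b.2
    refine ⟨x, x0, (sol_iff (ex α) (ex β) (ex γ) X x hm hn).2 ⟨?_, ?_, ?_, ?_, ?_, ?_, ?_, ?_⟩⟩
    · rw [x0, zb_true, mul_one, ← (sum_g3 α β γ (X b) w hwX).2 hb]
      refine Finset.sum_congr rfl fun s _ => ?_
      rw [xr]
      unfold rS
      rw [zb_ob]
      unfold tS
      rw [zb_ob]
    · rw [x0, zb_true, mul_one, xu 0 (by omega), xp 0 (by omega)]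
      congr 2
      rw [eq_iff_iff]
      omega
    · intro j hj
      rw [x0, zb_true, mul_one, xu (j + 1) hj, xp j (by omega), xp (j + 1) hj]
      by_cases c1 : j + 1 = (b : ℕ)
      · rw [decide_eq_true c1, decide_eq_false (by omega), decide_eq_true (by omega)]
        decide
      · rw [decide_eq_false c1]
        by_cases c2 : (b : ℕ) ≤ j
        · rw [decide_eq_true c2, decide_eq_true (by omega)]
          decide
        · rw [decide_eq_false c2, decide_eq_false (by omega)]
          decide
    · rw [x0, zb_true, mul_one, xp (m - 1) (by omega), decide_eq_true (by omega), zb_true]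
    · intro j hj
      rw [xu (j + 1) hj, xp j (by omega)]
      by_cases c1 : j + 1 = (b : ℕ)
      · rw [decide_eq_true c1, decide_eq_false (by omega)]
        decide
      · rw [decide_eq_false c1, zb_false, zero_mul]
    · intro l hl
      rw [x0, zb_true, mul_one, Finset.sum_eq_single b, xu b b.2, decide_eq_true rfl, zb_true, mul_one,
        xw l hl, ← hwX ⟨l, hl⟩]
      · intro c _ hc
        rw [xu c c.2, decide_eq_false (fun h => hc (Fin.ext h)), zb_false, mul_zero]
      · intro hc
        exact absurd (Finset.mem_univ _) hc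
    · intro s hs
      rw [xt s hs, hlw, hlw]
      unfold tS
      rw [zb_ob]
    · intro s hs
      rw [xt s hs, hlw, xr]
      unfold rS
      rw [zb_ob]

/-- **The word with the blocks `X`.** -/
theorem rcsE_iff {N m K : ℕ} (hm : 1 ≤ m) (hn : 3 * m + 1 + 2 * K ≤ dim N)
    (α β γ : Fin K → Fin m → Bool) (X : Fin m → Fin m → Bool) :
    ¬ RCS (List.ofFn (wd (pos N m (2 * m + 1) 1 (by omega) (by omega))
      (word N (insR m K (ex α) (ex β) (ex γ))) X)) ↔ ∀ b, g3 α β γ (X b) = false := by
  rw [wd_word, rcs_iff]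
  have h := sys_iff hm hn α β γ X
  constructor
  · intro h1 b
    by_contra hb
    rw [Bool.not_eq_false] at hb
    exact h1 (h.2 ⟨b, hb⟩)
  · intro h1 h2
    obtain ⟨b, hb⟩ := h.1 h2
    rw [h1 b] at hb
    exact absurd hb (by decide)

end Pool.Agent.KMR
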