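import Pool.Agent.KMR.Abs
import Pool.Agent.KMR.RcsE
import Pool.Agent.KMQ.FinI

/-! Two-sided error for the matrix problems. -/

namespace Pool.Agent.KMR

open Finset Pool.Agent.KNL Pool.Agent.KD Pool.Agent.KE Pool.Agent.KH
open Pool.Agent.KMQ (Halt Answers withAcc det_withAcc)

/-- balanced sums of products of three linear forms exist -/
def ExistsG3 : Prop := ∀ m e : ℕ, 1 ≤ e → 8 * e ≤ m → 4 * m ≤ e ^ 2 →
  ∃ α β γ : Fin (40 * m) → Fin m → Bool, Pool.Agent.KE.Bal (g3 α β γ) e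

/-- the length of the blocks -/
def bm (N : ℕ) : ℕ := dim N / 324

theorem bm_le (N : ℕ) : 324 * bm N ≤ dim N := by
  unfold bm
  omega

theorem dim_le_bm {N : ℕ} (h : 1 ≤ bm N) : dim N + 1 ≤ 648 * bm N := by
  unfold bm at *
  omega

theorem N_le {N : ℕ} (h : 1 ≤ bm N) : N ≤ 1261008 * (bm N * bm N) := by
  have h1 := dim_max N
  have h2 := dim_le_bm h
  have h3 : (dim N + 1) ^ 2 ≤ (648 * bm N) ^ 2 := Nat.pow_le_pow_left h2 2
  have h4 : (648 * bm N) ^ 2 = 419904 * (bm N * bm N) := by ring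
  have h5 : bm N ≤ bm N * bm N := Nat.le_mul_of_pos_left _ h
  omega

/-- the bound in terms of the dimension -/
theorem log_transfer {d b S : ℕ} {c η M : ℝ} (hc : 0 ≤ c) (hη : 0 ≤ η) (hM : 0 ≤ M) (hS : 1 ≤ S)
    (hd2 : 648 * Real.exp 8 * S ≤ d) (hb : (d : ℝ) ≤ 648 * b) (hbd : b ≤ d) :
    c / 2 * η * M * Real.log (d / S) / Real.log (Real.log (d / S)) ≤
      c * η * M * Real.log (b / S) / Real.log (Real.log (b / S)) := by
  have hS1 : (1 : ℝ) ≤ S := by exact_mod_cast hS
  have hS0 : (0 : ℝ) < S := by linarith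
  have hd0 : (0 : ℝ) < d := lt_of_lt_of_le (by positivity) hd2
  have hbp : (0 : ℝ) < b := by linarith
  have hL : 8 ≤ Real.log (b / S) := by
    rw [Real.le_log_iff_exp_le (by positivity), le_div_iff₀ hS0]
    linarith
  have hle : Real.log (b / S) ≤ Real.log (d / S) := by
    refine Real.log_le_log (by positivity) ?_
    refine div_le_div_of_nonneg_right ?_ hS0.le
    exact_mod_cast hbd
  have hlog : Real.log (d / S) ≤ 2 * Real.log (b / S) := by
    have h1 : Real.log (d / S) ≤ Real.log (648 * (b / S)) := by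
      refine Real.log_le_log (by positivity) ?_
      rw [← mul_div_assoc]
      exact div_le_div_of_nonneg_right hb hS0.le
    rw [Real.log_mul (by norm_num) (by positivity)] at h1
    have h2 : Real.log 648 ≤ 8 := by
      rw [Real.log_le_iff_le_exp (by norm_num)]
      have : (2.7 : ℝ) < Real.exp 1 := lt_trans (by norm_num) Real.exp_one_gt_d9
      calc (648 : ℝ) ≤ 2.7 ^ 8 := by norm_num
        _ ≤ Real.exp 1 ^ 8 := pow_le_pow_left₀ (by norm_num) this.le 8
        _ = Real.exp 8 := by rw [← Real.exp_nat_mul]; norm_num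
    linarith
  have hl1 : 0 < Real.log (Real.log (b / S)) := Real.log_pos (by linarith)
  have hl2 : Real.log (Real.log (b / S)) ≤ Real.log (Real.log (d / S)) :=
    Real.log_le_log (by linarith) hle
  have h1 : c / 2 * η * M * Real.log (d / S) ≤ c * η * M * Real.log (b / S) := by
    have h3 : 0 ≤ c / 2 * η * M := by positivity
    calc c / 2 * η * M * Real.log (d / S) ≤ c / 2 * η * M * (2 * Real.log (b / S)) :=
          mul_le_mul_of_nonneg_left hlog h3
      _ = c * η * M * Real.log (b / S) := by ring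
  have h0 : 0 ≤ c * η * M * Real.log (b / S) := by
    have : 0 ≤ Real.log (b / S) := by linarith
    positivity
  calc c / 2 * η * M * Real.log (d / S) / Real.log (Real.log (d / S))
      ≤ c * η * M * Real.log (b / S) / Real.log (Real.log (d / S)) :=
        div_le_div_of_nonneg_right h1 (hl1.le.trans hl2)
    _ ≤ _ := div_le_div_of_nonneg_left h0 hl1 hl2

open Classical in
/-- the lower bound for the language `L` with the constants `c` and `x0` -/
def Hard (c x0 : ℝ) (L : List Bool → Prop) : Prop :=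
  ∀ (N S : ℕ) (η : ℝ), 1 ≤ S → x0 * S ≤ dim N → 1 / 2 ^ S ≤ η →
    ∀ (ι : Type) [Fintype ι] (w : ι → ℝ) (V Γ : ι → Type) [∀ i, Fintype (V i)]
      (P : ∀ i, SBP (V i) (Γ i) (Fin N)) (rej : ∀ i, V i), (∀ i, 0 ≤ w i) → ∑ i, w i = 1 →
      (∀ i, Det (P i) ∧ Halt (P i) (rej i) ∧ rej i ≠ (P i).acc ∧ Fintype.card (V i) ≤ 2 ^ S) →
      ∀ T : ℕ, (∀ y, 1 / 2 + η ≤ ∑ i, if Answers L (P i) (rej i) T y then w i else 0) →
        c * η * N * Real.log (dim N / S) / Real.log (Real.log (dim N / S)) ≤ T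

/-- smaller constants -/
theorem Hard.mono {c x0 c' x0' : ℝ} {L : List Bool → Prop} (h : Hard c x0 L) (hc : c' ≤ c)
    (hx : x0 ≤ x0') (he : Real.exp (Real.exp 1) ≤ x0') : Hard c' x0' L := by
  intro N S η hS hx1 hη ι _ w V Γ _ P rej hw0 hw1 hP T hT
  have hS1 : (1 : ℝ) ≤ S := by exact_mod_cast hS
  have hS0 : (0 : ℝ) < S := by linarith
  have hη0 : 0 ≤ η := le_trans (by positivity) hη
  have hq : Real.exp (Real.exp 1) ≤ dim N / S := by
    rw [le_div_iff₀ hS0]
    exact (mul_le_mul_of_nonneg_right he hS0.le).trans hx1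
  have hl : Real.exp 1 ≤ Real.log (dim N / S) := by
    rw [Real.le_log_iff_exp_le (lt_of_lt_of_le (Real.exp_pos _) hq)]
    exact hq
  have hl0 : 0 ≤ Real.log (dim N / S) := (Real.exp_pos _).le.trans hl
  have hll : 0 ≤ Real.log (Real.log (dim N / S)) :=
    Real.log_nonneg (le_trans (by have := Real.add_one_le_exp 1; linarith) hl)
  refine le_trans ?_ (h N S η hS ((mul_le_mul_of_nonneg_right hx hS0.le).trans hx1) hη ι w V Γ P rej
    hw0 hw1 hP T hT)
  refine div_le_div_of_nonneg_right ?_ hll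
  refine mul_le_mul_of_nonneg_right ?_ hl0
  refine mul_le_mul_of_nonneg_right ?_ (Nat.cast_nonneg _)
  exact mul_le_mul_of_nonneg_right hc hη0

open Classical in
/-- **Languages whose complement is, on a subcube, a conjunction.** -/
theorem hard_compl (h3 : ExistsG3) : ∃ c x0 : ℝ, 0 < c ∧ 1 ≤ x0 ∧ ∀ L : List Bool → Prop,
    (∀ N, 1 ≤ bm N → ∃ pos : Fin (bm N) → Fin (bm N) → Fin N,
      (∀ b b' l l', pos b l = pos b' l' → b = b' ∧ l = l') ∧
      ∀ α β γ : Fin (40 * bm N) → Fin (bm N) → Bool, ∃ z0 : Fin N → Bool, ∀ X,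
        ¬ L (List.ofFn (wd pos z0 X)) ↔ ∀ b, g3 α β γ (X b) = false) → Hard c x0 L := by
  obtain ⟨c, x0, hc, hx0, h⟩ := time_abs 1261008 (by norm_num)
  refine ⟨c / 2, max (648 * x0) (648 * Real.exp 8), by positivity,
    le_max_of_le_left (by linarith), ?_⟩
  intro L hL N S η hS hx hη ι _ w V Γ _ P rej hw0 hw1 hP T hT
  have hS1 : (1 : ℝ) ≤ S := by exact_mod_cast hS
  have hS0 : (0 : ℝ) < S := by linarith
  have hd1 : 648 * x0 * S ≤ dim N := le_trans (mul_le_mul_of_nonneg_right (le_max_left _ _) hS0.le) hx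
  have hd2 : 648 * Real.exp 8 * S ≤ dim N :=
    le_trans (mul_le_mul_of_nonneg_right (le_max_right _ _) hS0.le) hx
  have hd0 : (648 : ℝ) ≤ dim N := by
    refine le_trans ?_ hd1
    nlinarith
  have hb1 : 1 ≤ bm N := by
    have : 648 ≤ dim N := by exact_mod_cast hd0
    unfold bm
    omega
  have hb : (dim N : ℝ) ≤ 648 * bm N := by
    have h1 : ((dim N + 1 : ℕ) : ℝ) ≤ ((648 * bm N : ℕ) : ℝ) := by exact_mod_cast dim_le_bm hb1
    push_cast at h1
    linarith
  have hbS : x0 * S ≤ bm N := by linarith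
  obtain ⟨pos, hpos, hz⟩ := hL N hb1
  have key := h N (bm N) (bm N) S η hS hbS hb1 (N_le hb1) hη pos hpos (fun w => ¬ L w)
    (fun e he h8 h4 => by
      obtain ⟨α, β, γ, hbal⟩ := h3 (bm N) e he h8 h4
      obtain ⟨z0, hz0⟩ := hz α β γ
      exact ⟨g3 α β γ, hbal, z0, hz0⟩)
    ι w V Γ (fun i => withAcc (P i) (rej i)) hw0 hw1
    (fun i => ⟨det_withAcc (hP i).1 (hP i).2.1, (hP i).2.2.2⟩) T (fun y => ?_)
  · refine le_trans ?_ key
    exact log_transfer hc.le (le_trans (by positivity) hη) (Nat.cast_nonneg _) hS hd2 hb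
      (by have := bm_le N; omega)
  · refine (hT y).trans (Finset.sum_le_sum fun i _ => ?_)
    split_ifs with h1 h2 h2
    · exact le_rfl
    · exact absurd (h1.compl (hP i).1 (hP i).2.1 (hP i).2.2.1) h2
    · exact hw0 i
    · exact le_rfl

open Classical in
/-- **Languages that are, on a subcube, a function of the sum of the blocks.** -/
theorem hard_sum (h3 : ExistsG3) : ∃ c x0 : ℝ, 0 < c ∧ 1 ≤ x0 ∧ ∀ L : List Bool → Prop,
    (∀ N, 1 ≤ bm N → ∃ pos : Fin (bm N) → Fin (bm N) → Fin N,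
      (∀ b b' l l', pos b l = pos b' l' → b = b' ∧ l = l') ∧
      ∀ α β γ : Fin (40 * bm N) → Fin (bm N) → Bool, ∃ z0 : Fin N → Bool, ∀ X,
        L (List.ofFn (wd pos z0 X)) ↔ g3 α β γ (xs X) = true) → Hard c x0 L := by
  obtain ⟨c, x0, hc, hx0, h⟩ := time_absx 1261008 (by norm_num)
  refine ⟨c / 2, max (648 * x0) (648 * Real.exp 8), by positivity,
    le_max_of_le_left (by linarith), ?_⟩
  intro L hL N S η hS hx hη ι _ w V Γ _ P rej hw0 hw1 hP T hT
  have hS1 : (1 : ℝ) ≤ S := by exact_mod_cast hS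
  have hS0 : (0 : ℝ) < S := by linarith
  have hd1 : 648 * x0 * S ≤ dim N := le_trans (mul_le_mul_of_nonneg_right (le_max_left _ _) hS0.le) hx
  have hd2 : 648 * Real.exp 8 * S ≤ dim N :=
    le_trans (mul_le_mul_of_nonneg_right (le_max_right _ _) hS0.le) hx
  have hd0 : (648 : ℝ) ≤ dim N := by
    refine le_trans ?_ hd1
    nlinarith
  have hb1 : 1 ≤ bm N := by
    have : 648 ≤ dim N := by exact_mod_cast hd0
    unfold bm
    omega
  have hb : (dim N : ℝ) ≤ 648 * bm N := by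
    have h1 : ((dim N + 1 : ℕ) : ℝ) ≤ ((648 * bm N : ℕ) : ℝ) := by exact_mod_cast dim_le_bm hb1
    push_cast at h1
    linarith
  have hbS : x0 * S ≤ bm N := by linarith
  obtain ⟨pos, hpos, hz⟩ := hL N hb1
  have key := h N (bm N) (bm N) S η hS hbS hb1 (N_le hb1) hη pos hpos L
    (fun e he h8 h4 => by
      obtain ⟨α, β, γ, hbal⟩ := h3 (bm N) e he h8 h4
      obtain ⟨z0, hz0⟩ := hz α β γ
      exact ⟨g3 α β γ, hbal, z0, hz0⟩)
    ι w V Γ P hw0 hw1 (fun i => ⟨(hP i).1, (hP i).2.2.2⟩) T (fun y => ?_)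
  · refine le_trans ?_ key
    exact log_transfer hc.le (le_trans (by positivity) hη) (Nat.cast_nonneg _) hS hd2 hb
      (by have := bm_le N; omega)
  · refine (hT y).trans (Finset.sum_le_sum fun i _ => ?_)
    split_ifs with h1 h2 h2
    · exact le_rfl
    · exact absurd (h1.correct (hP i).1 (hP i).2.1 (hP i).2.2.1) h2
    · exact hw0 i
    · exact le_rfl

/-- the block structure of iteration -/
theorem it_blocks {t : ℕ → ℕ} (ht : ∀ n, n ≤ t n) (N : ℕ) (hN : 1 ≤ bm N) :
    ∃ pos : Fin (bm N) → Fin (bm N) → Fin N,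
      (∀ b b' l l', pos b l = pos b' l' → b = b' ∧ l = l') ∧
      ∀ α β γ : Fin (40 * bm N) → Fin (bm N) → Bool, ∃ z0 : Fin N → Bool, ∀ X,
        It t (List.ofFn (wd pos z0 X)) ↔ g3 α β γ (xs X) = true := by
  have h := bm_le N
  refine ⟨pos N (bm N) (bm N + 1) 1 (by omega) (by omega), fun b b' l l' => pos_inj _ _,
    fun α β γ => ⟨_, fun X => it_iff ht (by omega) α β γ X⟩⟩

/-- the block structure of rank one constraint systems -/
theorem rcs_blocks (N : ℕ) (hN : 1 ≤ bm N) :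
    ∃ pos : Fin (bm N) → Fin (bm N) → Fin N,
      (∀ b b' l l', pos b l = pos b' l' → b = b' ∧ l = l') ∧
      ∀ α β γ : Fin (40 * bm N) → Fin (bm N) → Bool, ∃ z0 : Fin N → Bool, ∀ X,
        ¬ RCS (List.ofFn (wd pos z0 X)) ↔ ∀ b, g3 α β γ (X b) = false := by
  have h := bm_le N
  refine ⟨pos N (bm N) (2 * bm N + 1) 1 (by omega) (by omega), fun b b' l l' => pos_inj _ _,
    fun α β γ => ⟨_, fun X => rcsE_iff hN (by omega) α β γ X⟩⟩

end Pool.Agent.KMR
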