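import Pool.Agent.KMR.Word
import Pool.Agent.KMQ.ItP

/-! The language of the maps iterated as often as their dimension is in P. -/

namespace Pool.Agent.KMR

open Finset Pool.Agent.PolyTime Pool.Agent.KE
open Pool.Agent.KMQ (toNat_ne getD_mapRange mod_two_ne toNat_zb)

theorem lt_dim {N q : ℕ} : q < dim N ↔ 3 * (q + 1) ^ 2 + 2 * (q + 1) ≤ N := by
  constructor
  · intro h
    have h1 := dim_spec N
    have h2 : (q + 1) ^ 2 ≤ dim N ^ 2 := Nat.pow_le_pow_left h 2
    omega
  · intro h
    unfold dim
    have h2 : q + 1 ≤ N := by omega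
    exact Nat.le_findGreatest (P := fun n => 3 * n ^ 2 + 2 * n ≤ N) h2 h

theorem dim_eq_card (N : ℕ) :
    dim N = ((range (N + 1)).filter fun q => 3 * (q + 1) ^ 2 + 2 * (q + 1) ≤ N).card := by
  have : (range (N + 1)).filter (fun q => 3 * (q + 1) ^ 2 + 2 * (q + 1) ≤ N) = range (dim N) := by
    ext q
    rw [mem_filter, mem_range, mem_range, lt_dim]
    exact ⟨fun h => h.2, fun h => ⟨by omega, h⟩⟩
  rw [this, card_range]

theorem pf_dim {α : Type} [Ctx α] {K : List Bool → α → ℕ} (hK : PF K) :
    PF (fun y a => dim (K y a)) := by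
  have h1 : PD (fun (x : List Bool) (t : α × ℕ) => 3 * (t.2 + 1) ^ 2 + 2 * (t.2 + 1) ≤ K x t.1) :=
    PD.le (((PF.const 3).mul ((PF.snd.add (PF.const 1)).pow 2)).add
      ((PF.const 2).mul (PF.snd.add (PF.const 1)))) hK.fst
  refine (PF.count (hK.add (PF.const 1)) h1).congr fun x a => ?_
  rw [dim_eq_card]

theorem pf_dim' {α : Type} [Ctx α] : PF (fun (y : List Bool) (_ : α) => dim y.length) := pf_dim PF.len

/-- a coordinate of the product of a matrix and a vector, as a number -/
def mN (n : ℕ) (a x : ℕ → Bool) (i : ℕ) : ℕ := ∑ j ∈ range n, (a (i * n + j)).toNat * (x j).toNat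

theorem mN_cast (n : ℕ) (a x : ℕ → Bool) (i : ℕ) : ((mN n a x i : ℕ) : ZMod 2) = mul n a x i := by
  unfold mN mul
  push_cast
  simp only [toNat_zb]

/-- the number that is the new letter `p` -/
def stepN (y : List Bool) (p : ℕ) : ℕ :=
  if 3 * dim y.length ^ 2 ≤ p ∧ p < 3 * dim y.length ^ 2 + dim y.length then
    (mN (dim y.length) (fun q => y.getD q false) (fun j => y.getD (3 * dim y.length ^ 2 + j) false)
        (p - 3 * dim y.length ^ 2) *
      mN (dim y.length) (fun q => y.getD (dim y.length ^ 2 + q) false)
        (fun j => y.getD (3 * dim y.length ^ 2 + j) false) (p - 3 * dim y.length ^ 2)) % 2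
  else (y.getD p false).toNat

/-- one step; the state is stored in the first vector -/
def stepW (y : List Bool) : List Bool := (List.range y.length).map fun p => decide (stepN y p ≠ 0)

/-- the letters of the first word -/
def initN (y : List Bool) (p : ℕ) : ℕ :=
  if p < 3 * dim y.length ^ 2 then (y.getD p false).toNat
  else if p = 3 * dim y.length ^ 2 then 1 else 0

/-- the first word -/
def initW (y : List Bool) : List Bool := (List.range y.length).map fun p => decide (initN y p ≠ 0)

/-- the output -/
def outN (y : List Bool) : ℕ :=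
  if dim y.length = 0 then 1 else (y.getD (3 * dim y.length ^ 2 + (dim y.length - 1)) false).toNat

/-- the output word -/
def outW (y : List Bool) : List Bool := (List.range 1).map fun _ => decide (outN y ≠ 0)

theorem pb_step : PFBits stepW := by
  refine ⟨fun y => y.length, stepN, PF.len, ?_, fun x => rfl⟩
  have hn : ∀ (α : Type) [Ctx α], PF (fun (y : List Bool) (_ : α) => dim y.length) :=
    fun α _ => pf_dim'
  have hq : ∀ (α : Type) [Ctx α], PF (fun (y : List Bool) (_ : α) => 3 * dim y.length ^ 2) :=
    fun α _ => (PF.const 3).mul ((hn α).pow 2)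
  unfold stepN
  refine PF.ite (P := fun (y : List Bool) (t : Unit × ℕ) =>
    3 * dim y.length ^ 2 ≤ t.2 ∧ t.2 < 3 * dim y.length ^ 2 + dim y.length)
    ((PD.le (hq _) PF.snd).and (PD.lt PF.snd ((hq _).add (hn _)))) ?_ PF.snd.inp
  refine PF.mod (PF.mul ?_ ?_) (PF.const 2)
  · unfold mN
    refine PF.sum (F := fun (y : List Bool) (t : (Unit × ℕ) × ℕ) =>
      (y.getD ((t.1.2 - 3 * dim y.length ^ 2) * dim y.length + t.2) false).toNat *
        (y.getD (3 * dim y.length ^ 2 + t.2) false).toNat) (hn _) ?_
    have hp : PF (fun (_ : List Bool) (t : (Unit × ℕ) × ℕ) => t.1.2) := PF.snd.fst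
    have hj : PF (fun (_ : List Bool) (t : (Unit × ℕ) × ℕ) => t.2) := PF.snd
    have h := hn ((Unit × ℕ) × ℕ)
    have h' := hq ((Unit × ℕ) × ℕ)
    exact (((hp.sub h').mul h).add hj).inp.mul (h'.add hj).inp
  · unfold mN
    refine PF.sum (F := fun (y : List Bool) (t : (Unit × ℕ) × ℕ) =>
      (y.getD (dim y.length ^ 2 + ((t.1.2 - 3 * dim y.length ^ 2) * dim y.length + t.2)) false).toNat *
        (y.getD (3 * dim y.length ^ 2 + t.2) false).toNat) (hn _) ?_
    have hp : PF (fun (_ : List Bool) (t : (Unit × ℕ) × ℕ) => t.1.2) := PF.snd.fst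
    have hj : PF (fun (_ : List Bool) (t : (Unit × ℕ) × ℕ) => t.2) := PF.snd
    have h := hn ((Unit × ℕ) × ℕ)
    have h' := hq ((Unit × ℕ) × ℕ)
    exact ((h.pow 2).add (((hp.sub h').mul h).add hj)).inp.mul (h'.add hj).inp

theorem pb_init : PFBits initW := by
  refine ⟨fun y => y.length, initN, PF.len, ?_, fun x => rfl⟩
  have hq : ∀ (α : Type) [Ctx α], PF (fun (y : List Bool) (_ : α) => 3 * dim y.length ^ 2) :=
    fun α _ => (PF.const 3).mul (pf_dim'.pow 2)
  unfold initN
  refine PF.ite (P := fun (y : List Bool) (t : Unit × ℕ) => t.2 < 3 * dim y.length ^ 2)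
    (PD.lt PF.snd (hq _)) PF.snd.inp ?_
  exact PF.ite (P := fun (y : List Bool) (t : Unit × ℕ) => t.2 = 3 * dim y.length ^ 2)
    (PD.eq PF.snd (hq _)) (PF.const 1) (PF.const 0)

theorem pb_out : PFBits outW := by
  refine ⟨fun _ => 1, fun y _ => outN y, PF.const 1, ?_, fun x => rfl⟩
  unfold outN
  exact PF.ite (P := fun (y : List Bool) (_ : Unit × ℕ) => dim y.length = 0)
    (PD.eq pf_dim' (PF.const 0)) (PF.const 1)
    ((((PF.const 3).mul (pf_dim'.pow 2)).add (pf_dim'.sub (PF.const 1))).inp)

theorem length_stepW (y : List Bool) : (stepW y).length = y.length := by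
  unfold stepW
  simp

/-- the word contains the matrices of `y` and the state `x` -/
def Inv (y : List Bool) (x : ℕ → Bool) (w : List Bool) : Prop :=
  w.length = y.length ∧ (∀ p < 3 * dim y.length ^ 2, w.getD p false = y.getD p false) ∧
    ∀ e < dim y.length, w.getD (3 * dim y.length ^ 2 + e) false = x e

theorem inv_init (y : List Bool) : Inv y (fun i => decide (i = 0)) (initW y) := by
  have h := dim_spec y.length
  refine ⟨by unfold initW; simp, fun p hp => ?_, fun e he => ?_⟩
  · unfold initW
    rw [getD_mapRange _ _ (by omega)]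
    unfold initN
    rw [if_pos hp, toNat_ne]
  · unfold initW
    rw [getD_mapRange _ _ (by omega)]
    unfold initN
    rw [if_neg (by omega)]
    by_cases h0 : e = 0
    · subst h0
      rw [if_pos (by omega)]
      rfl
    · rw [if_neg (by omega)]
      show decide (0 ≠ 0) = decide (e = 0)
      rw [decide_eq_false h0]
      rfl

theorem inv_step {y : List Bool} {x : ℕ → Bool} {w : List Bool} (h : Inv y x w) :
    Inv y (step y x) (stepW w) := by
  obtain ⟨h1, h2, h3⟩ := h
  have h0 := dim_spec y.length
  refine ⟨by rw [length_stepW, h1], fun p hp => ?_, fun e he => ?_⟩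
  · unfold stepW
    rw [getD_mapRange _ _ (by rw [h1]; omega)]
    unfold stepN
    rw [h1, if_neg (by omega), toNat_ne]
    exact h2 p hp
  · unfold stepW
    rw [getD_mapRange _ _ (by rw [h1]; omega)]
    unfold stepN
    rw [h1, if_pos (by omega), mod_two_ne]
    unfold step
    push_cast
    rw [mN_cast, mN_cast, Nat.add_sub_cancel_left]
    have e1 : mul (dim y.length) (fun q => w.getD q false)
        (fun j => w.getD (3 * dim y.length ^ 2 + j) false) e = mul (dim y.length) (mA y) x e := by
      unfold mul
      refine Finset.sum_congr rfl fun j hj => ?_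
      have hj' := mem_range.1 hj
      have h4 := lt_sq he hj'
      simp only
      rw [h3 j hj', h2 _ (by omega)]
      rfl
    have e2 : mul (dim y.length) (fun q => w.getD (dim y.length ^ 2 + q) false)
        (fun j => w.getD (3 * dim y.length ^ 2 + j) false) e = mul (dim y.length) (mB y) x e := by
      unfold mul
      refine Finset.sum_congr rfl fun j hj => ?_
      have hj' := mem_range.1 hj
      have h4 := lt_sq he hj'
      simp only
      rw [h3 j hj', h2 _ (by omega)]
      rfl
    rw [e1, e2]

theorem inv_iter (y : List Bool) (t : ℕ) :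
    Inv y ((step y)^[t] fun i => decide (i = 0)) (stepW^[t] (initW y)) := by
  induction t with
  | zero => exact inv_init y
  | succ t ih =>
    rw [Function.iterate_succ_apply', Function.iterate_succ_apply']
    exact inv_step ih

open Classical in
/-- **Iterating the map as often as its dimension is in P.** -/
theorem inP_It : Pool.Agent.KNL.InP (It fun n => n) := by
  have h1 : PC (fun w => stepW^[dim w.length] w) :=
    PFBits.iterate pb_step (fun x => (length_stepW x).le) pf_dim'
  have h2 : PC (fun y => outW (stepW^[dim (initW y).length] (initW y))) :=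
    pb_out.pc.comp (h1.comp pb_init.pc)
  refine ⟨fun y => decide (It (fun n => n) y), fun w => by simp, (h2.congr fun y => ?_).polyTime⟩
  have hl : (initW y).length = y.length := (inv_init y).1
  rw [hl]
  obtain ⟨w1, _, w3⟩ := inv_iter y (dim y.length)
  have h3 : outW (stepW^[dim y.length] (initW y)) =
      [decide (outN (stepW^[dim y.length] (initW y)) ≠ 0)] := rfl
  rw [h3]
  congr 1
  have h4 : outN (stepW^[dim y.length] (initW y)) ≠ 0 ↔ It (fun n => n) y := by
    unfold outN It
    rw [w1]
    by_cases h0 : dim y.length = 0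
    · rw [if_pos h0, h0]
      exact ⟨fun _ => rfl, fun _ => one_ne_zero⟩
    · rw [if_neg h0, w3 _ (by omega)]
      show _ ↔ ((step y)^[dim y.length] fun i => decide (i = 0)) (dim y.length - 1) = true
      generalize ((step y)^[dim y.length] fun i => decide (i = 0)) (dim y.length - 1) = b
      cases b <;> decide
  exact decide_eq_decide.2 h4

end Pool.Agent.KMR
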