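import Pool.Agent.KMR.Defs
import Pool.Agent.KH.Avg
import Pool.Agent.KMQ.Sys

/-! Words with given matrices. -/

namespace Pool.Agent.KMR

open Finset Pool.Agent.KE Pool.Agent.KH
open Pool.Agent.KMQ (zb_true zb_false zb_sq zb_inj sum_window ob zb_ob)

/-- three matrices and two vectors -/
structure Ins where
  /-- the first matrix -/
  A : ℕ → ℕ → Bool
  /-- the second matrix -/
  B : ℕ → ℕ → Bool
  /-- the third matrix -/
  C : ℕ → ℕ → Bool
  /-- the first vector -/
  r : ℕ → Bool
  /-- the second vector -/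
  s : ℕ → Bool

/-- coordinate `i` of the product of a matrix and a vector -/
def mv (n : ℕ) (R : ℕ → ℕ → Bool) (x : ℕ → Bool) (i : ℕ) : ZMod 2 := ∑ j ∈ range n, zb (R i j) * zb (x j)

/-- the word of length `N` with given matrices and vectors -/
def word (N : ℕ) (I : Ins) (p : Fin N) : Bool :=
  if (p : ℕ) < dim N ^ 2 then I.A ((p : ℕ) / dim N) ((p : ℕ) % dim N)
  else if (p : ℕ) < 2 * dim N ^ 2 then I.B (((p : ℕ) - dim N ^ 2) / dim N) (((p : ℕ) - dim N ^ 2) % dim N)
  else if (p : ℕ) < 3 * dim N ^ 2 then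
    I.C (((p : ℕ) - 2 * dim N ^ 2) / dim N) (((p : ℕ) - 2 * dim N ^ 2) % dim N)
  else if (p : ℕ) < 3 * dim N ^ 2 + dim N then I.r ((p : ℕ) - 3 * dim N ^ 2)
  else I.s ((p : ℕ) - (3 * dim N ^ 2 + dim N))

theorem dim_spec (N : ℕ) : 3 * dim N ^ 2 + 2 * dim N ≤ N := by
  unfold dim
  exact Nat.findGreatest_spec (P := fun n => 3 * n ^ 2 + 2 * n ≤ N) (Nat.zero_le N) (by simp)

theorem dim_max (N : ℕ) : N < 3 * (dim N + 1) ^ 2 + 2 * (dim N + 1) := by
  by_contra h
  have h1 : 3 * (dim N + 1) ^ 2 + 2 * (dim N + 1) ≤ N := not_lt.1 h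
  have h2 : dim N + 1 ≤ N := by omega
  have := Nat.le_findGreatest (P := fun n => 3 * n ^ 2 + 2 * n ≤ N) h2 h1
  unfold dim at this h1
  omega

theorem lt_sq {n i j : ℕ} (hi : i < n) (hj : j < n) : i * n + j < n ^ 2 := by
  calc i * n + j < i * n + n := by omega
    _ = (i + 1) * n := by ring
    _ ≤ n * n := Nat.mul_le_mul_right _ hi
    _ = n ^ 2 := by ring

theorem split2 {n i j : ℕ} (hj : j < n) : (i * n + j) / n = i ∧ (i * n + j) % n = j := by
  have hn : 0 < n := by omega
  constructor
  · rw [mul_comm, Nat.mul_add_div hn, Nat.div_eq_of_lt hj, add_zero]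
  · rw [mul_comm, Nat.mul_add_mod, Nat.mod_eq_of_lt hj]

section word
variable {N : ℕ} (I : Ins)

theorem lt_word {p : ℕ} (h : p < N) : lt (List.ofFn (word N I)) p = word N I ⟨p, h⟩ := by
  unfold lt
  rw [List.getD_eq_getElem _ _ (by simpa using h), List.getElem_ofFn]

theorem mA_word {i j : ℕ} (hi : i < dim N) (hj : j < dim N) :
    mA (List.ofFn (word N I)) (i * dim N + j) = I.A i j := by
  have h1 := lt_sq hi hj
  have h2 := dim_spec N
  unfold mA
  rw [lt_word I (by omega)]
  unfold word
  simp only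
  rw [if_pos h1, (split2 hj).1, (split2 hj).2]

theorem mB_word {i j : ℕ} (hi : i < dim N) (hj : j < dim N) :
    mB (List.ofFn (word N I)) (i * dim N + j) = I.B i j := by
  have h1 := lt_sq hi hj
  have h2 := dim_spec N
  unfold mB
  rw [List.length_ofFn, lt_word I (by omega)]
  unfold word
  simp only
  rw [if_neg (by omega), if_pos (by omega), Nat.add_sub_cancel_left, (split2 hj).1, (split2 hj).2]

theorem mC_word {i j : ℕ} (hi : i < dim N) (hj : j < dim N) :
    mC (List.ofFn (word N I)) (i * dim N + j) = I.C i j := by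
  have h1 := lt_sq hi hj
  have h2 := dim_spec N
  unfold mC
  rw [List.length_ofFn, lt_word I (by omega)]
  unfold word
  simp only
  rw [if_neg (by omega), if_neg (by omega), if_pos (by omega), Nat.add_sub_cancel_left, (split2 hj).1,
    (split2 hj).2]

theorem vR_word {i : ℕ} (hi : i < dim N) : vR (List.ofFn (word N I)) i = I.r i := by
  have h2 := dim_spec N
  unfold vR
  rw [List.length_ofFn, lt_word I (by omega)]
  unfold word
  simp only
  rw [if_neg (by omega), if_neg (by omega), if_neg (by omega), if_pos (by omega), Nat.add_sub_cancel_left]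

theorem vS_word {i : ℕ} (hi : i < dim N) : vS (List.ofFn (word N I)) i = I.s i := by
  have h2 := dim_spec N
  unfold vS
  rw [List.length_ofFn, lt_word I (by omega)]
  unfold word
  simp only
  rw [if_neg (by omega), if_neg (by omega), if_neg (by omega), if_neg (by omega), Nat.add_sub_cancel_left]

theorem mul_A (x : ℕ → Bool) {i : ℕ} (hi : i < dim N) :
    mul (dim N) (mA (List.ofFn (word N I))) x i = mv (dim N) I.A x i := by
  unfold mul mv
  refine Finset.sum_congr rfl fun j hj => ?_
  rw [mA_word I hi (mem_range.1 hj)]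

theorem mul_B (x : ℕ → Bool) {i : ℕ} (hi : i < dim N) :
    mul (dim N) (mB (List.ofFn (word N I))) x i = mv (dim N) I.B x i := by
  unfold mul mv
  refine Finset.sum_congr rfl fun j hj => ?_
  rw [mB_word I hi (mem_range.1 hj)]

theorem mul_C (x : ℕ → Bool) {i : ℕ} (hi : i < dim N) :
    mul (dim N) (mC (List.ofFn (word N I))) x i = mv (dim N) I.C x i := by
  unfold mul mv
  refine Finset.sum_congr rfl fun j hj => ?_
  rw [mC_word I hi (mem_range.1 hj)]

theorem dec_iff : Dec (List.ofFn (word N I)) ↔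
    ∃ x : ℕ → Bool, (∀ i < dim N, mv (dim N) I.A x i = zb (I.r i)) ∧
      ((range (dim N)).filter fun j => x j = true).card ≤
        ((range (dim N)).filter fun j => I.s j = true).card := by
  unfold Dec
  rw [List.length_ofFn]
  refine exists_congr fun x => and_congr (forall_congr' fun i => forall_congr' fun hi => ?_) ?_
  · rw [mul_A I x hi, vR_word I hi]
  · have : ((range (dim N)).filter fun j => vS (List.ofFn (word N I)) j = true) =
        (range (dim N)).filter fun j => I.s j = true := by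
      refine Finset.filter_congr fun j hj => ?_
      rw [vS_word I (mem_range.1 hj)]
    rw [this]

theorem rcs_iff : RCS (List.ofFn (word N I)) ↔
    ∃ x : ℕ → Bool, x 0 = true ∧ ∀ i < dim N, mv (dim N) I.A x i * mv (dim N) I.B x i =
      mv (dim N) I.C x i := by
  unfold RCS
  rw [List.length_ofFn]
  refine exists_congr fun x => and_congr Iff.rfl (forall_congr' fun i => forall_congr' fun hi => ?_)
  rw [mul_A I x hi, mul_B I x hi, mul_C I x hi]

/-- one step, below the dimension -/
theorem step_word (x : ℕ → Bool) {i : ℕ} (hi : i < dim N) :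
    step (List.ofFn (word N I)) x i = decide (mv (dim N) I.A x i * mv (dim N) I.B x i = 1) := by
  unfold step
  rw [List.length_ofFn, mul_A I x hi, mul_B I x hi]

end word

/-! ### Blocks -/

/-- the position of letter `l` of the block `b`: row `a + l` and column `c + b` of the first matrix -/
def pos (N m a c : ℕ) (ha : a + m ≤ dim N) (hc : c + m ≤ dim N) (b l : Fin m) : Fin N :=
  ⟨(a + l) * dim N + (c + b), by
    have h1 := lt_sq (n := dim N) (i := a + l) (j := c + b) (by omega) (by omega)
    have h2 := dim_spec N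
    omega⟩

theorem pos_inj {N m a c : ℕ} (ha : a + m ≤ dim N) (hc : c + m ≤ dim N) {b b' l l' : Fin m}
    (h : pos N m a c ha hc b l = pos N m a c ha hc b' l') : b = b' ∧ l = l' := by
  have h1 := congrArg Fin.val h
  simp only [pos] at h1
  obtain ⟨e1, e2⟩ := split2 (n := dim N) (i := a + l) (j := c + b) (by omega)
  obtain ⟨f1, f2⟩ := split2 (n := dim N) (i := a + l') (j := c + b') (by omega)
  rw [h1] at e1 e2
  exact ⟨Fin.ext (by omega), Fin.ext (by omega)⟩

/-- the instance with the blocks `X` in the first matrix -/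
def Ins.set (I : Ins) {m : ℕ} (a c : ℕ) (X : Fin m → Fin m → Bool) : Ins where
  A i j := if h : (c ≤ j ∧ j - c < m) ∧ (a ≤ i ∧ i - a < m) then X ⟨j - c, h.1.2⟩ ⟨i - a, h.2.2⟩ else I.A i j
  B := I.B
  C := I.C
  r := I.r
  s := I.s

theorem set_in (I : Ins) {m a c : ℕ} (X : Fin m → Fin m → Bool) (b l : Fin m) :
    (I.set a c X).A (a + l) (c + b) = X b l := by
  unfold Ins.set
  simp only
  rw [dif_pos ⟨⟨by omega, by omega⟩, ⟨by omega, by omega⟩⟩]
  have e1 : (⟨c + (b : ℕ) - c, by omega⟩ : Fin m) = b := Fin.ext (by simp)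
  have e2 : (⟨a + (l : ℕ) - a, by omega⟩ : Fin m) = l := Fin.ext (by simp)
  rw [e1, e2]

theorem set_out (I : Ins) {m a c : ℕ} (X : Fin m → Fin m → Bool) {i j : ℕ}
    (h : ¬ ((c ≤ j ∧ j - c < m) ∧ (a ≤ i ∧ i - a < m))) : (I.set a c X).A i j = I.A i j := by
  unfold Ins.set
  simp only
  rw [dif_neg h]

theorem wd_word (I : Ins) {N m a c : ℕ} (ha : a + m ≤ dim N) (hc : c + m ≤ dim N)
    (X : Fin m → Fin m → Bool) : wd (pos N m a c ha hc) (word N I) X = word N (I.set a c X) := by
  have hn := dim_spec N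
  funext p
  by_cases h : ∃ b l, pos N m a c ha hc b l = p
  · obtain ⟨b, l, rfl⟩ := h
    rw [wd_pos (fun b b' l l' h => pos_inj ha hc h)]
    unfold word pos
    simp only
    rw [if_pos (lt_sq (by omega) (by omega)), (split2 (by omega)).1, (split2 (by omega)).2, set_in]
  · rw [wd_off _ _ (fun b l hb => h ⟨b, l, hb⟩)]
    unfold word
    by_cases h1 : (p : ℕ) < dim N ^ 2
    · rw [if_pos h1, if_pos h1, set_out]
      rintro ⟨⟨h2, h3⟩, h4, h5⟩
      refine h ⟨⟨_, h3⟩, ⟨_, h5⟩, Fin.ext ?_⟩
      simp only [pos]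
      have := Nat.div_add_mod (p : ℕ) (dim N)
      rw [Nat.add_sub_cancel' h2, Nat.add_sub_cancel' h4, mul_comm]
      exact this
    · rw [if_neg h1, if_neg h1]
      rfl

/-! ### Rows -/

section rows
variable {n : ℕ} (x : ℕ → Bool)

theorem row_one {a : ℕ} (ha : a < n) : ∑ j ∈ range n, zb (decide (j = a)) * zb (x j) = zb (x a) := by
  rw [Finset.sum_eq_single a]
  · simp [zb_true]
  · intro j _ hj
    simp [hj, zb_false]
  · intro h
    exact absurd (mem_range.2 ha) h

theorem row_window {a m : ℕ} (h : a + m ≤ n) (F : ℕ → Bool) :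
    ∑ j ∈ range n, zb (decide (a ≤ j ∧ j < a + m) && F (j - a)) * zb (x j) =
      ∑ l ∈ range m, zb (F l) * zb (x (a + l)) := by
  have h1 := sum_window h (fun j => zb (F (j - a)) * zb (x j))
  have h2 : ∑ l ∈ range m, zb (F l) * zb (x (a + l)) =
      ∑ l ∈ range m, zb (F (a + l - a)) * zb (x (a + l)) := by
    refine Finset.sum_congr rfl fun l _ => ?_
    rw [Nat.add_sub_cancel_left]
  rw [h2, ← h1]
  refine Finset.sum_congr rfl fun j _ => ?_
  by_cases hj : a ≤ j ∧ j < a + m
  · rw [if_pos hj, decide_eq_true hj, Bool.true_and]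
  · rw [if_neg hj, decide_eq_false hj, Bool.false_and, zb_false, zero_mul]

end rows

end Pool.Agent.KMR
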